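import Pool.Agent.Lib.MP_8fffab_lc_AC.Reach

/-!
# Reachable sets of free coordinates are contained in a small set
-/

open Finset

namespace SmallDepth

variable {Ω : Type} [DecidableEq Ω]

/-- The assignment which is true exactly on `X`. -/
def oneOn (X : Finset Ω) : Ω → Bool := fun S => decide (S ∈ X)

/-- The restricted function `v` depends only on the coordinates in `T`. -/
def Jun (ρ : Restr Ω) (v : (Ω → Bool) → Prop) (T : Finset Ω) : Prop :=
  ∀ x y, (∀ S ∈ T, x S = y S) → (res ρ v x ↔ res ρ v y)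

section

variable {ρ : Restr Ω} {Q : Finset Ω}

theorem fl_tr (hQ : ∀ S ∈ Q, ρ S = none) {X : Finset Ω} (hX : X ⊆ Q) :
    fl (tr ρ) Q X = ap ρ (oneOn X) := by
  funext S
  unfold fl ap oneOn tr
  by_cases hS : S ∈ Q
  · simp [hS, hQ S hS]
  · have hSX : S ∉ X := fun h => hS (hX h)
    rcases hρ : ρ S with _ | _ | _ <;> simp [hS, hSX]

theorem dep_subset_jun (hQ : ∀ S ∈ Q, ρ S = none) {v : (Ω → Bool) → Prop} {T : Finset Ω}
    (hT : Jun ρ v T) : dep v (tr ρ) Q ⊆ T := by
  intro S hS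
  obtain ⟨hSQ, X, hX, h⟩ := mem_dep.1 hS
  by_contra hST
  apply h
  rw [fl_tr hQ hX, fl_tr hQ (insert_subset hSQ hX)]
  refine hT _ _ fun S' hS' => ?_
  unfold oneOn
  have : S' ≠ S := fun e => hST (e ▸ hS')
  simp [this]

end

/-- The sets with at most `K` elements. -/
theorem card_small (B : Finset Ω) (K : ℕ) :
    (B.powerset.filter fun Z => Z.card ≤ K).card ≤ (B.card + 1) ^ K := by
  classical
  have h1 : (B.powerset.filter fun Z => Z.card ≤ K) ⊆
      (univ : Finset (Fin K → Option B)).image fun z =>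
        (univ.filter fun b : B => ∃ i, z i = some b).map (Function.Embedding.subtype _) := by
    intro Z hZ
    obtain ⟨hZB, hZK⟩ := mem_filter.1 hZ
    rw [mem_powerset] at hZB
    rw [mem_image]
    refine ⟨fun i => if h : (i : ℕ) < Z.card then
      some ⟨(Z.equivFin.symm ⟨i, h⟩ : Z), hZB (Z.equivFin.symm ⟨i, h⟩).2⟩ else none,
      mem_univ _, ?_⟩
    ext S
    simp only [mem_map, mem_filter, mem_univ, true_and, Function.Embedding.coe_subtype,
      Subtype.exists, exists_and_right, exists_eq_right]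
    constructor
    · rintro ⟨hSB, i, hi⟩
      by_cases h : (i : ℕ) < Z.card
      · rw [dif_pos h, Option.some.injEq, Subtype.mk.injEq] at hi
        rw [← hi]
        exact (Z.equivFin.symm ⟨i, h⟩).2
      · rw [dif_neg h] at hi
        exact absurd hi (by simp)
    · intro hS
      refine ⟨hZB hS, ⟨Z.equivFin ⟨S, hS⟩, (Z.equivFin ⟨S, hS⟩).isLt.trans_le hZK⟩, ?_⟩
      rw [dif_pos (Z.equivFin ⟨S, hS⟩).isLt]
      simp
  refine (card_le_card h1).trans (card_image_le.trans ?_)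
  rw [card_univ, Fintype.card_fun, Fintype.card_fin, Fintype.card_option, Fintype.card_coe]

/-- The sets which contain the reachable sets. -/
noncomputable def al (v : ℕ → (Ω → Bool) → Prop) (A : Finset ℕ) (b : Prop) (ρ : Restr Ω)
    (T : ℕ → Finset Ω) (Tg : Finset Ω) (K : ℕ) : ℕ → Finset Ω
  | 0 => ∅
  | n + 1 => al v A b ρ T Tg K n ∪
      ((al v A b ρ T Tg K n ∪ Tg).powerset.filter fun Z => Z.card ≤ K).biUnion fun Z =>
        T (fst v A b (ap ρ (oneOn Z)))

theorem al_mono (v : ℕ → (Ω → Bool) → Prop) (A : Finset ℕ) (b : Prop) (ρ : Restr Ω)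
    (T : ℕ → Finset Ω) (Tg : Finset Ω) (K : ℕ) {n n' : ℕ} (h : n ≤ n') :
    al v A b ρ T Tg K n ⊆ al v A b ρ T Tg K n' := by
  induction n', h using Nat.le_induction with
  | base => exact Subset.rfl
  | succ n' _ ih => exact ih.trans subset_union_left

theorem card_al (v : ℕ → (Ω → Bool) → Prop) (A : Finset ℕ) (b : Prop) (ρ : Restr Ω)
    {T : ℕ → Finset Ω} {Tg : Finset Ω} {K c₀ : ℕ} (hK : 1 ≤ K) (hT : ∀ j, (T j).card ≤ c₀)
    (hTg : Tg.card ≤ c₀) (n : ℕ) :
    (al v A b ρ T Tg K n).card + c₀ + 1 ≤ (c₀ + 1) ^ ((K + 1) ^ n) := by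
  induction n with
  | zero => simp [al]
  | succ n ih =>
    set a := al v A b ρ T Tg K n with ha
    have h1 : (al v A b ρ T Tg K (n + 1)).card ≤ a.card + (a.card + c₀ + 1) ^ K * c₀ := by
      change (a ∪ _).card ≤ _
      refine (card_union_le _ _).trans (Nat.add_le_add_left ?_ _)
      refine (card_biUnion_le_card_mul _ _ c₀ fun Z _ => hT _).trans ?_
      refine Nat.mul_le_mul_right c₀ ?_
      refine (card_small _ K).trans (Nat.pow_le_pow_left ?_ K)
      have h0 : (al v A b ρ T Tg K n ∪ Tg).card ≤ a.card + Tg.card := card_union_le _ _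
      omega
    have h2 : a.card + c₀ + 1 ≤ (a.card + c₀ + 1) ^ K := Nat.le_self_pow (by omega) _
    have h3 : (al v A b ρ T Tg K (n + 1)).card + c₀ + 1 ≤ (a.card + c₀ + 1) ^ (K + 1) := by
      calc _ ≤ a.card + (a.card + c₀ + 1) ^ K * c₀ + c₀ + 1 := by omega
        _ = (a.card + c₀ + 1) + (a.card + c₀ + 1) ^ K * c₀ := by ring
        _ ≤ (a.card + c₀ + 1) ^ K + (a.card + c₀ + 1) ^ K * c₀ := Nat.add_le_add_right h2 _
        _ = (a.card + c₀ + 1) ^ K * (c₀ + 1) := by ring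
        _ ≤ (a.card + c₀ + 1) ^ K * (a.card + c₀ + 1) := Nat.mul_le_mul_left _ (by omega)
        _ = _ := by rw [pow_succ]
    calc _ ≤ (a.card + c₀ + 1) ^ (K + 1) := h3
      _ ≤ ((c₀ + 1) ^ ((K + 1) ^ n)) ^ (K + 1) := Nat.pow_le_pow_left ih _
      _ = _ := by rw [← pow_mul, pow_succ]

/-- Reachable sets of free coordinates. -/
theorem reach_subset {v : ℕ → (Ω → Bool) → Prop} {g : (Ω → Bool) → Prop} {A : Finset ℕ}
    {b : Prop} {ρ : Restr Ω} {T : ℕ → Finset Ω} {Tg : Finset Ω} {K : ℕ}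
    (hT : ∀ j ∈ A, Jun ρ (v j) (T j)) (hTg : Jun ρ g Tg) {Q : Finset Ω}
    (hQ : ∀ S ∈ Q, ρ S = none) (hQK : Q.card ≤ K) {n : ℕ} {U : Finset Ω}
    (h : Reach v g A b (tr ρ) Q n U) : U ⊆ Q ∧ U ⊆ al v A b ρ T Tg K n := by
  induction h with
  | zero => exact ⟨empty_subset _, empty_subset _⟩
  | step n U Z h hZ hl ih =>
    obtain ⟨ih1, ih2⟩ := ih
    have hZQ : Z ⊆ Q := hZ.trans (union_subset ih1 (dep_subset _ _ _))
    refine ⟨union_subset ih1 (dep_subset _ _ _), union_subset (ih2.trans subset_union_left) ?_⟩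
    rw [fl_tr hQ hZQ] at hl ⊢
    refine (dep_subset_jun hQ (hT _ hl)).trans ?_
    intro S hS
    refine mem_union_right _ (mem_biUnion.2 ⟨Z, ?_, hS⟩)
    rw [mem_filter, mem_powerset]
    refine ⟨hZ.trans (union_subset_union ih2 (dep_subset_jun hQ hTg)), ?_⟩
    exact (card_le_card hZQ).trans hQK

end SmallDepth
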