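import Pool.Agent.Lib.MP_8fffab_lc_AC.Count

/-!
# The lower bound in terms of the parameters
-/

open Finset

namespace SmallDepth

variable {ι : Type} {k h : ℕ}

/-- The functions on `J`. -/
def piJ (J : Finset (Fin k)) (B : Finset (Finset (Fin (k * h)))) :
    Finset (Fin k → Finset (Fin (k * h))) :=
  Fintype.piFinset fun j => if j ∈ J then B else {∅}

theorem card_piJ (J : Finset (Fin k)) (B : Finset (Finset (Fin (k * h)))) :
    (piJ J B).card = B.card ^ J.card := by
  unfold piJ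
  rw [Fintype.card_piFinset]
  have h1 : ∀ j : Fin k, (if j ∈ J then B else {∅}).card = if j ∈ J then B.card else 1 := by
    intro j
    split_ifs <;> simp
  simp only [h1]
  rw [prod_ite, prod_const_one, mul_one, prod_const]
  congr 2
  ext j
  simp

theorem ind_mul_ind (P Q : Prop) : ind P * ind Q = ind (P ∧ Q) := (ind_and P Q).symm

theorem sum_ind_le {α : Type*} (s t : Finset α) (P : α → Prop) (h : ∀ a ∈ s, P a → a ∈ t) :
    ∑ a ∈ s, ind (P a) ≤ t.card := by
  classical
  calc ∑ a ∈ s, ind (P a) ≤ ∑ a ∈ s.filter fun a => P a, (1 : ℝ) := by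
        rw [sum_filter]
        refine sum_le_sum fun a _ => ?_
        by_cases hP : P a
        · rw [ind_true hP, if_pos hP]
        · rw [ind_false hP, if_neg hP]
    _ = ((s.filter fun a => P a).card : ℝ) := by simp
    _ ≤ t.card := by
        exact_mod_cast card_le_card fun a ha => h a (mem_filter.1 ha).1 (mem_filter.1 ha).2

/-- The error for `j` planted units. -/
noncomputable def errJ (k h : ℕ) (Q : ℝ) (A : ℕ) (ε₁ : ℝ) (j : ℕ) : ℝ :=
  ((h.factorial ^ j * (k * h - j * h).factorial : ℕ) : ℝ) * ((Q ^ j)⁻¹ *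
    ((A : ℝ) ^ j + (2 ^ (k * h)) ^ j * ε₁))

theorem prob_ev {C : Circuit ι} {a : (Cd k h → Bool) → ι → Prop} {o m d f : ℕ} (hk : 0 < k)
    {qb : Bool → ℝ} (hq0 : ∀ b, 0 < qb b) (hq1 : ∀ b, qb b ≤ 1) {p : Cd k h → ℝ}
    (hp : ∀ S, 0 ≤ p S) (hqp : ∀ S : Cd k h, qb S.2 + p S ≤ 1) {ε₁ : ℝ}
    (hG : Ex (fun S : Cd k h => qb S.2) p (fun ρ => ind (¬ Good C a o m d ρ)) ≤ ε₁)
    {i : ℕ} (hi : i ≤ o) (hd : C.depth i ≤ d) (hf : (C i).wires ≤ f)
    (X : Finset (Fin k × Bool)) :
    ∑ π : Equiv.Perm (Fin (k * h)), Ex (fun S : Cd k h => qb S.2) p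
      (fun ρ => ind (Ev C a (2 * k) (tr ρ) (Qs X (blk π)) i)) ≤
      errJ k h (qb false * qb true) (asize (2 * k) (2 ^ m) f) ε₁ (tys X).card := by
  classical
  set J := tys X with hJ
  set q : Cd k h → ℝ := fun S => qb S.2 with hq
  have hqn : ∀ S, 0 ≤ q S := fun S => (hq0 _).le
  set Φ : (Fin k → Finset (Fin (k * h))) → ℝ := fun T =>
    Ex q p (fun ρ => ind (Ev C a (2 * k) (tr ρ) (Qs X T) i)) with hΦ
  have hΦ0 : ∀ T, 0 ≤ Φ T := fun T => Ex_nonneg hqn hp hqp fun _ => ind_nonneg _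
  have h1 : ∀ π : Equiv.Perm (Fin (k * h)),
      Ex q p (fun ρ => ind (Ev C a (2 * k) (tr ρ) (Qs X (blk π)) i)) =
        Φ (fun j => if j ∈ J then blk π j else ∅) := by
    intro π
    simp only [hΦ]
    rw [Qs_congr (T := blk π) (T' := fun j => if j ∈ J then blk π j else ∅)]
    intro j hj
    rw [if_pos hj]
  simp only [h1]
  refine (plant J Φ hΦ0).trans ?_
  unfold errJ
  refine mul_le_mul_of_nonneg_left ?_ (by positivity)
  have hQ : 0 < qb false * qb true := mul_pos (hq0 _) (hq0 _)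
  rw [← div_eq_inv_mul, le_div_iff₀ (pow_pos hQ _), mul_comm, mul_sum]
  -- the free coordinates
  have h2 : ∀ T, (qb false * qb true) ^ J.card * Φ T ≤
      Ex q p (fun ρ => ind ((∀ S ∈ Qs X T, ρ S = none) ∧
        Ev C a (2 * k) (tr ρ) (Qs X T) i)) := by
    intro T
    have h3 : Ex q p (fun ρ => ind ((∀ S ∈ Qs X T, ρ S = none) ∧
        Ev C a (2 * k) (tr ρ) (Qs X T) i)) = (∏ S ∈ Qs X T, q S) * Φ T := by
      rw [hΦ]
      simp only
      rw [← Ex_free (q := q) (p := p) (Qs X T)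
        (fun ρ => ind (Ev C a (2 * k) (tr ρ) (Qs X T) i))]
      · exact Ex_congr fun ρ => (ind_mul_ind _ _).symm
      · intro S hS ρ b
        congr 1
        apply propext
        refine ev_congr (fun S' hS' => ?_) i
        unfold tr
        rw [Function.update_of_ne (fun e => hS' (by rw [e]; exact hS))]
    rw [h3]
    exact mul_le_mul_of_nonneg_right (prod_Qs X T hq0 hq1) (hΦ0 T)
  refine (sum_le_sum fun T _ => h2 T).trans ?_
  rw [← Ex_sum]
  -- pointwise
  have hpiJ : (Fintype.piFinset fun j : Fin k => if j ∈ J then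
      (univ : Finset (Finset (Fin (k * h)))) else {∅}) = piJ J univ := rfl
  have h4 : ∀ ρ : Restr (Cd k h), ∑ T ∈ Fintype.piFinset fun j : Fin k => if j ∈ J then
      (univ : Finset (Finset (Fin (k * h)))) else {∅},
      ind ((∀ S ∈ Qs X T, ρ S = none) ∧ Ev C a (2 * k) (tr ρ) (Qs X T) i) ≤
      (asize (2 * k) (2 ^ m) f : ℝ) ^ J.card + (2 ^ (k * h)) ^ J.card *
        ind (¬ Good C a o m d ρ) := by
    intro ρ
    rw [hpiJ]
    by_cases hρ : Good C a o m d ρ
    · rw [ind_false (not_not.2 hρ), mul_zero, add_zero]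
      obtain ⟨A, hA, hA'⟩ := alive_gate (K := 2 * k) (by omega) hρ hi hd hf
      have hXc : X.card ≤ 2 * k := by
        refine (card_le_univ X).trans ?_
        rw [Fintype.card_prod, Fintype.card_fin, Fintype.card_bool, mul_comm]
      set B := A.image fun e : Cd k h => e.1.2 with hB
      refine (sum_ind_le _ (piJ J B) _ ?_).trans ?_
      · rintro T hT ⟨hfree, hev⟩
        have h5 := hA' (Qs X T) hfree (by rw [card_Qs]; exact hXc) hev
        unfold piJ at hT ⊢
        rw [Fintype.mem_piFinset] at hT ⊢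
        intro j
        by_cases hj : j ∈ J
        · rw [if_pos hj]
          obtain ⟨e, he, rfl⟩ := mem_image.1 hj
          rw [hB, mem_image]
          exact ⟨((e.1, T e.1), e.2), h5 (mem_image_of_mem _ he), rfl⟩
        · have := hT j
          rwa [if_neg hj] at this ⊢
      · rw [card_piJ]
        have h6 : B.card ≤ asize (2 * k) (2 ^ m) f := card_image_le.trans hA
        exact_mod_cast Nat.pow_le_pow_left h6 _
    · rw [ind_true hρ, mul_one]
      refine (sum_ind_le _ (piJ J univ) _ fun T hT _ => hT).trans ?_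
      rw [card_piJ, card_univ, Fintype.card_finset, Fintype.card_fin]
      push_cast
      have : (0 : ℝ) ≤ (asize (2 * k) (2 ^ m) f : ℝ) ^ J.card := by positivity
      linarith
  refine (Ex_mono hqn hp hqp h4).trans ?_
  rw [Ex_add, Ex_const, Ex_mul]
  have : (0 : ℝ) ≤ (2 ^ (k * h)) ^ J.card := by positivity
  have := mul_le_mul_of_nonneg_left hG this
  linarith

/-- The main inequality. -/
theorem core {n M f s o d m W : ℕ} (hk : 0 < k) (hh : 0 < h) {C : Circuit (Fin M × Fin n)}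
    {w : ℕ → ℝ} {θ' : ℝ} (hs : C.size o ≤ s)
    (hC : ∀ i ≤ o, C.depth i ≤ d ∧ (C i).wires ≤ f)
    (hcov : ∀ a : Fin M → Fin n → Prop, HasCover k a ↔
      θ' ≤ ∑ i ∈ range (o + 1), w i * bit (C.val (fun e => a e.1 e.2) i))
    (hn : k * h + 2 * k ≤ n) (hM : 2 * k * (k * h).choose h ≤ M)
    (hW : 1 ≤ W) (hWk : W < k)
    {qb pb : Bool → ℝ} (hq0 : ∀ b, 0 < qb b) (hq1 : ∀ b, qb b ≤ 1)
    (hp : ∀ b, 0 ≤ pb b) (hqp : ∀ b, qb b + pb b ≤ 1) (hpe1 : (k : ℝ) ^ h * pb false ≤ 1)
    {ε₁ : ℝ} (hG : ∀ a : (Cd k h → Bool) → Fin M × Fin n → Prop, IsLit a →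
      Ex (fun S : Cd k h => qb S.2) (fun S => pb S.2) (fun ρ => ind (¬ Good C a o m d ρ)) ≤ ε₁)
    {E : ℝ} (hE0 : 0 ≤ E) (hE : ∀ j, W < j → j ≤ 2 * W → j ≤ k →
      errJ k h (qb false * qb true) (asize (2 * k) (2 ^ m) f) ε₁ j ≤ E) :
    ((k * h).factorial : ℝ) * ((1 - pb false) ^ k * (1 - pb true) ^ k) ≤
      (k * h).factorial * (2 ^ k * (k : ℝ) ^ k * ((k : ℝ) ^ h * pb false)) + s * (4 ^ k * E) := by
  classical
  obtain ⟨Γ, hΓ, hΓ'⟩ := gadget (k := k) (h := h) (m := M) (n := n) hk hh hn hM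
  set q : Cd k h → ℝ := fun S => qb S.2 with hq
  set p : Cd k h → ℝ := fun S => pb S.2 with hpdef
  have hqn : ∀ S, 0 ≤ q S := fun S => (hq0 _).le
  have hpn : ∀ S, 0 ≤ p S := fun S => hp _
  have hqpn : ∀ S, q S + p S ≤ 1 := fun S => hqp _
  -- the exceptional cases
  set I := (range (o + 1)).filter fun i => (C i).counts = true with hI
  set 𝒳 := (univ : Finset (Finset (Fin k × Bool))).filter fun X =>
    W < (tys X).card ∧ (tys X).card ≤ 2 * W with h𝒳
  have key : ∀ (π : Equiv.Perm (Fin (k * h))) (ρ : Restr (Cd k h)),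
      ind (∀ S ∈ Ph π, ρ S ≠ some true) ≤ ind (Extra (tr ρ) π) +
        ∑ i ∈ I, ∑ X ∈ 𝒳, ind (Ev C Γ (2 * k) (tr ρ) (Qs X (blk π)) i) := by
    intro π ρ
    have hs0 : 0 ≤ ∑ i ∈ I, ∑ X ∈ 𝒳, ind (Ev C Γ (2 * k) (tr ρ) (Qs X (blk π)) i) :=
      sum_nonneg fun i _ => sum_nonneg fun X _ => ind_nonneg _
    by_cases hfree : ∀ S ∈ Ph π, ρ S ≠ some true
    swap
    · rw [ind_false hfree]
      linarith [ind_nonneg (Extra (tr ρ) π)]
    by_cases hex : Extra (tr ρ) π
    · rw [ind_true hex]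
      linarith [ind_le_one (∀ S ∈ Ph π, ρ S ≠ some true)]
    rw [ind_true hfree, ind_false hex, zero_add]
    by_contra hcon
    push Not at hcon
    have hno : ∀ i ∈ I, ∀ X ∈ 𝒳, ¬ Ev C Γ (2 * k) (tr ρ) (Qs X (blk π)) i := by
      intro i hi X hX hev
      have h1 : ind (Ev C Γ (2 * k) (tr ρ) (Qs X (blk π)) i) ≤
          ∑ i ∈ I, ∑ X ∈ 𝒳, ind (Ev C Γ (2 * k) (tr ρ) (Qs X (blk π)) i) := by
        refine le_trans ?_ (single_le_sum (f := fun i => ∑ X ∈ 𝒳,
          ind (Ev C Γ (2 * k) (tr ρ) (Qs X (blk π)) i))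
          (fun i _ => sum_nonneg fun X _ => ind_nonneg _) hi)
        exact single_le_sum (f := fun X => ind (Ev C Γ (2 * k) (tr ρ) (Qs X (blk π)) i))
          (fun X _ => ind_nonneg _) hX
      rw [ind_true hev] at h1
      linarith
    have hGf : ∀ S ∈ Ph π, tr ρ S = false := by
      intro S hS
      unfold tr
      exact decide_eq_false (hfree S hS)
    have hdep := small_dep (C := C) (a := Γ) hΓ (o := o) (d := d) (K := 2 * k) hGf (card_Ph π)
      touch_mono touch_union touch_card hW (by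
        intro i hi hcnt _ Q hQ h1 h2 hev
        obtain ⟨X, rfl⟩ := exists_Qs hQ
        rw [touch_Qs] at h1 h2
        refine hno i ?_ X ?_ hev
        · rw [hI, mem_filter, mem_range]
          exact ⟨by omega, hcnt⟩
        · rw [h𝒳, mem_filter]
          exact ⟨mem_univ _, h1, h2⟩)
    refine threshold_fails (k := k) (h := h) hk (G := tr ρ) (π := π) (v := gv C Γ) (N := o + 1)
      (w := w) (θ := θ') ?_ ?_
    · intro i hi
      exact (hdep i (by omega) (hC i (by omega)).1).trans_lt hWk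
    · intro x
      obtain ⟨h1, h2⟩ := hΓ' (tr ρ) π x
      constructor
      · intro hodd
        exact (hcov _).1 (h1 hodd)
      · intro hle
        exact h2 hex ((hcov fun i v => Γ (fl (tr ρ) (Ph π) (Xs π x)) (i, v)).2 hle)
  -- expectation
  have hEx : ∀ π : Equiv.Perm (Fin (k * h)),
      (1 - pb false) ^ k * (1 - pb true) ^ k ≤ Ex q p (fun ρ => ind (Extra (tr ρ) π)) +
        ∑ i ∈ I, ∑ X ∈ 𝒳, Ex q p (fun ρ => ind (Ev C Γ (2 * k) (tr ρ) (Qs X (blk π)) i)) := by
    intro π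
    have h1 : Ex q p (fun ρ => ind (∀ S ∈ Ph π, ρ S ≠ some true)) =
        (1 - pb false) ^ k * (1 - pb true) ^ k := by
      rw [Ex_ne_true]
      unfold Ph
      rw [prod_image]
      · rw [Fintype.prod_prod_type]
        simp only [hpdef, Fintype.prod_bool, prod_const, card_univ, Fintype.card_fin]
        rw [mul_pow, mul_comm]
      · intro e _ e' _ hee
        have h1 := Prod.mk.inj hee
        have h2 := (Prod.mk.inj h1.1).1
        exact Prod.ext h2 h1.2
    rw [← h1]
    refine (Ex_mono hqn hpn hqpn (key π)).trans ?_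
    rw [Ex_add, Ex_sum]
    simp only [Ex_sum]
    exact le_rfl
  have hsum := sum_le_sum fun (π : Equiv.Perm (Fin (k * h))) (_ : π ∈ univ) => hEx π
  rw [sum_const, card_univ, Fintype.card_perm, Fintype.card_fin, nsmul_eq_mul,
    sum_add_distrib] at hsum
  refine hsum.trans (add_le_add ?_ ?_)
  · refine (sum_le_sum fun π _ => prob_extra hh π hqn hpn hqpn (pe := pb false)
      (fun u => le_rfl) hpe1).trans ?_
    rw [sum_const, card_univ, Fintype.card_perm, Fintype.card_fin, nsmul_eq_mul]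
  · rw [sum_comm]
    have h2 : ∀ i ∈ I, ∑ π : Equiv.Perm (Fin (k * h)), ∑ X ∈ 𝒳,
        Ex q p (fun ρ => ind (Ev C Γ (2 * k) (tr ρ) (Qs X (blk π)) i)) ≤ 4 ^ k * E := by
      intro i hi
      rw [hI, mem_filter, mem_range] at hi
      have hio : i ≤ o := by omega
      rw [sum_comm]
      calc _ ≤ ∑ _X ∈ 𝒳, E := by
            refine sum_le_sum fun X hX => ?_
            rw [h𝒳, mem_filter] at hX
            refine (prob_ev hk hq0 hq1 hpn hqpn (hG Γ hΓ) hio (hC i hio).1 (hC i hio).2 X).trans ?_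
            refine hE _ hX.2.1 hX.2.2 ?_
            exact (card_le_univ _).trans (by rw [Fintype.card_fin])
        _ = (𝒳.card : ℝ) * E := by rw [sum_const, nsmul_eq_mul]
        _ ≤ 4 ^ k * E := by
            refine mul_le_mul_of_nonneg_right ?_ hE0
            have h3 : 𝒳.card ≤ 4 ^ k := by
              refine (card_le_univ _).trans ?_
              rw [Fintype.card_finset, Fintype.card_prod, Fintype.card_fin, Fintype.card_bool,
                mul_comm, pow_mul]
              norm_num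
            exact_mod_cast h3
    calc _ ≤ ∑ _i ∈ I, 4 ^ k * E := sum_le_sum h2
      _ = (I.card : ℝ) * (4 ^ k * E) := by rw [sum_const, nsmul_eq_mul]
      _ ≤ s * (4 ^ k * E) := by
          refine mul_le_mul_of_nonneg_right ?_ (by positivity)
          have : I.card ≤ s := hs
          exact_mod_cast this

end SmallDepth
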