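import Pool.Agent.Lib.MP_8fffab_lc_AC.Top
import Pool.Agent.Lib.MP_8fffab_lc_AC.Alive

/-!
# Planted units are rarely reached
-/

open Finset

namespace SmallDepth

section general

variable {ι Ω : Type} [DecidableEq Ω]

theorem fl_congr {G G' : Ω → Bool} {Q : Finset Ω} (h : ∀ S, S ∉ Q → G S = G' S) (X : Finset Ω) :
    fl G Q X = fl G' Q X := by
  funext S
  unfold fl
  by_cases hS : S ∈ Q
  · simp [hS]
  · simp [hS, h S hS]

theorem dep_congr {G G' : Ω → Bool} {Q : Finset Ω} (h : ∀ S, S ∉ Q → G S = G' S)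
    (v : (Ω → Bool) → Prop) : dep v G Q = dep v G' Q := by
  ext S
  rw [mem_dep, mem_dep]
  simp only [fl_congr h]

theorem reach_congr {v : ℕ → (Ω → Bool) → Prop} {g : (Ω → Bool) → Prop} {A : Finset ℕ}
    {b : Prop} {G G' : Ω → Bool} {Q : Finset Ω} (h : ∀ S, S ∉ Q → G S = G' S) {n : ℕ}
    {U : Finset Ω} (hR : Reach v g A b G Q n U) : Reach v g A b G' Q n U := by
  induction hR with
  | zero => exact Reach.zero
  | step n U Z hr hZ hl ih =>
    rw [fl_congr h] at hl ⊢
    rw [dep_congr h] at hZ ⊢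
    exact Reach.step n U Z ih hZ hl

theorem ev_congr {C : Circuit ι} {a : (Ω → Bool) → ι → Prop} {K : ℕ} {G G' : Ω → Bool}
    {Q : Finset Ω} (h : ∀ S, S ∉ Q → G S = G' S) (i : ℕ) : Ev C a K G Q i ↔ Ev C a K G' Q i := by
  have h' : ∀ S, S ∉ Q → G' S = G S := fun S hS => (h S hS).symm
  rcases hg : C i with v | b | S | S | ⟨r, u, g⟩ <;> unfold Ev <;> rw [hg]
  · constructor
    · rintro ⟨n, hn, hR⟩; exact ⟨n, hn, reach_congr h hR⟩
    · rintro ⟨n, hn, hR⟩; exact ⟨n, hn, reach_congr h' hR⟩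
  · constructor
    · rintro ⟨n, hn, hR⟩; exact ⟨n, hn, reach_congr h hR⟩
    · rintro ⟨n, hn, hR⟩; exact ⟨n, hn, reach_congr h' hR⟩
  · simp only [dep_congr h]

/-- The size of the sets which contain the reachable sets. -/
def asize (K c₀ f : ℕ) : ℕ := (c₀ + 1) ^ ((K + 1) ^ K) + f * c₀

/-- All reachable sets of free coordinates are contained in a small set. -/
theorem alive_gate {C : Circuit ι} {a : (Ω → Bool) → ι → Prop} {o m d f K : ℕ} (hK : 1 ≤ K)
    {ρ : Restr Ω} (hρ : Good C a o m d ρ) {i : ℕ} (hi : i ≤ o) (hd : C.depth i ≤ d)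
    (hf : (C i).wires ≤ f) : ∃ A : Finset Ω, A.card ≤ asize K (2 ^ m) f ∧
      ∀ Q : Finset Ω, (∀ S ∈ Q, ρ S = none) → Q.card ≤ K → Ev C a K (tr ρ) Q i → Q ⊆ A := by
  classical
  have hJ : ∀ j, ∃ T : Finset Ω, T.card ≤ 2 ^ m ∧ (j ≤ o → C.depth j ≤ d →
      Jun ρ (gv C a j) T) := by
    intro j
    by_cases h : j ≤ o ∧ C.depth j ≤ d
    · obtain ⟨T, hT, hT'⟩ := (hρ j h.1 h.2).junta
      exact ⟨T, by omega, fun _ _ => hT'⟩
    · exact ⟨∅, by simp, fun h1 h2 => absurd ⟨h1, h2⟩ h⟩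
  choose T hTc hTJ using hJ
  have hkids : ∀ S : Finset (Fin i), (∀ b ∈ S, C.depth (b : ℕ) ≤ d) →
      ∀ j ∈ kids S, Jun ρ (gv C a j) (T j) := by
    intro S hS j hj
    obtain ⟨b, hb, rfl⟩ := mem_kids.1 hj
    exact hTJ b (by have := b.isLt; omega) (hS b hb)
  have hreach : ∀ (S : Finset (Fin i)) (b : Prop), (∀ b ∈ S, C.depth (b : ℕ) ≤ d) →
      ∃ A : Finset Ω, A.card ≤ asize K (2 ^ m) f ∧
      ∀ Q : Finset Ω, (∀ S ∈ Q, ρ S = none) → Q.card ≤ K →
        (∃ n ≤ K, Reach (gv C a) (gv C a i) (kids S) b (tr ρ) Q n Q) → Q ⊆ A := by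
    intro S b hS
    refine ⟨al (gv C a) (kids S) b ρ T (T i) K K, ?_, ?_⟩
    · have := card_al (gv C a) (kids S) b ρ (T := T) (Tg := T i) hK hTc (hTc i) K
      unfold asize
      exact (((Nat.le_add_right _ _).trans (Nat.le_succ _)).trans this).trans
        (Nat.le_add_right _ _)
    · rintro Q hQ hQK ⟨n, hn, hR⟩
      exact ((reach_subset (hkids S hS) (hTJ i hi hd) hQ hQK hR).2).trans (al_mono _ _ _ _ _ _ _ hn)
  rcases hg : C i with v | b | S | S | ⟨r, u, g⟩
  · refine ⟨∅, by simp, fun Q _ _ h => ?_⟩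
    unfold Ev at h
    rw [hg] at h
    exact h.elim
  · refine ⟨∅, by simp, fun Q _ _ h => ?_⟩
    unfold Ev at h
    rw [hg] at h
    exact h.elim
  · have hS : ∀ b ∈ S, C.depth (b : ℕ) ≤ d := by
      intro b hb
      rw [depth_eq, hg] at hd
      have := le_sup (f := fun a : Fin i => C.depth a) hb
      simp only at hd this
      omega
    obtain ⟨A, hA, hA'⟩ := hreach S False hS
    refine ⟨A, hA, fun Q hQ hQK h => hA' Q hQ hQK ?_⟩
    unfold Ev at h
    rw [hg] at h
    exact h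
  · have hS : ∀ b ∈ S, C.depth (b : ℕ) ≤ d := by
      intro b hb
      rw [depth_eq, hg] at hd
      have := le_sup (f := fun a : Fin i => C.depth a) hb
      simp only at hd this
      omega
    obtain ⟨A, hA, hA'⟩ := hreach S True hS
    refine ⟨A, hA, fun Q hQ hQK h => hA' Q hQ hQK ?_⟩
    unfold Ev at h
    rw [hg] at h
    exact h
  · have hS : ∀ b ∈ univ.image u, C.depth (b : ℕ) ≤ d := by
      intro b hb
      obtain ⟨l, -, rfl⟩ := mem_image.1 hb
      rw [depth_eq, hg] at hd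
      have := le_sup (f := fun l : Fin r => C.depth (u l)) (mem_univ l)
      simp only at hd this
      omega
    refine ⟨(kids (univ.image u)).biUnion T, ?_, ?_⟩
    · refine (card_biUnion_le_card_mul _ _ (2 ^ m) fun j _ => hTc j).trans ?_
      unfold asize
      have h1 : (kids (univ.image u)).card ≤ f := by
        unfold kids
        refine card_image_le.trans (card_image_le.trans ?_)
        rw [card_univ, Fintype.card_fin]
        rw [hg] at hf
        exact hf
      have := Nat.mul_le_mul_right (2 ^ m) h1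
      omega
    · intro Q hQ _ h
      unfold Ev at h
      rw [hg] at h
      intro S hSQ
      obtain ⟨j, hj, hSj⟩ := mem_biUnion.1 (h hSQ)
      exact mem_biUnion.2 ⟨j, hj, dep_subset_jun hQ (hkids _ hS j hj) hSj⟩

end general

section planted

variable {ι : Type} {k h : ℕ}

/-- The coordinates `X` of the units `(j, T j)`. -/
def Qs (X : Finset (Fin k × Bool)) (T : Fin k → Finset (Fin (k * h))) : Finset (Cd k h) :=
  X.image fun e => ((e.1, T e.1), e.2)

/-- The types of `X`. -/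
def tys (X : Finset (Fin k × Bool)) : Finset (Fin k) := X.image fun e => e.1

theorem Qs_congr {X : Finset (Fin k × Bool)} {T T' : Fin k → Finset (Fin (k * h))}
    (hT : ∀ j ∈ tys X, T j = T' j) : Qs X T = Qs X T' := by
  unfold Qs
  refine image_congr fun e he => ?_
  have : T e.1 = T' e.1 := hT _ (mem_image_of_mem _ he)
  simp only [this]

theorem card_Qs (X : Finset (Fin k × Bool)) (T : Fin k → Finset (Fin (k * h))) :
    (Qs X T).card = X.card := by
  unfold Qs
  refine card_image_of_injective _ fun e e' hee => ?_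
  have h1 := Prod.mk.inj hee
  have h2 := (Prod.mk.inj h1.1).1
  exact Prod.ext h2 h1.2

theorem touch_Qs (X : Finset (Fin k × Bool)) (T : Fin k → Finset (Fin (k * h))) :
    touch (Qs X T) = (tys X).card := by
  unfold touch Qs tys
  rw [image_image]
  have h1 : (X.image ((fun e : Cd k h => e.1) ∘ fun e => ((e.1, T e.1), e.2))) =
      (X.image fun e => e.1).image fun j => (j, T j) := by
    rw [image_image]
    rfl
  rw [h1]
  exact card_image_of_injective _ fun a b hab => (Prod.mk.inj hab).1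

/-- The subsets of the planted coordinates. -/
theorem exists_Qs {π : Equiv.Perm (Fin (k * h))} {Q : Finset (Cd k h)} (hQ : Q ⊆ Ph π) :
    ∃ X : Finset (Fin k × Bool), Q = Qs X (blk π) := by
  classical
  refine ⟨univ.filter fun e => ((e.1, blk π e.1), e.2) ∈ Q, ?_⟩
  unfold Qs
  ext e
  rw [mem_image]
  constructor
  · intro he
    have h1 := hQ he
    unfold Ph at h1
    obtain ⟨e', -, rfl⟩ := mem_image.1 h1
    exact ⟨e', mem_filter.2 ⟨mem_univ _, he⟩, rfl⟩
  · rintro ⟨e', he', rfl⟩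
    exact (mem_filter.1 he').2

theorem prod_Qs (X : Finset (Fin k × Bool)) (T : Fin k → Finset (Fin (k * h)))
    {qb : Bool → ℝ} (hq0 : ∀ b, 0 < qb b) (hq1 : ∀ b, qb b ≤ 1) :
    (qb false * qb true) ^ (tys X).card ≤ ∏ S ∈ Qs X T, qb S.2 := by
  classical
  have h1 : ∏ S ∈ Qs X T, qb S.2 = ∏ e ∈ X, qb e.2 := by
    unfold Qs
    rw [prod_image]
    intro e _ e' _ hee
    have h1 := Prod.mk.inj hee
    have h2 := (Prod.mk.inj h1.1).1
    exact Prod.ext h2 h1.2
  rw [h1]
  have h2 : X ⊆ (tys X) ×ˢ (univ : Finset Bool) := by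
    intro e he
    exact mem_product.2 ⟨mem_image_of_mem _ he, mem_univ _⟩
  have h3 : ∏ e ∈ (tys X) ×ˢ (univ : Finset Bool), qb e.2 = (qb false * qb true) ^ (tys X).card := by
    rw [prod_product]
    simp only [Fintype.prod_bool, prod_const]
    rw [mul_comm]
  rw [← h3, ← prod_sdiff h2]
  refine mul_le_of_le_one_left (prod_nonneg fun e _ => (hq0 e.2).le) ?_
  exact prod_le_one (fun e _ => (hq0 e.2).le) fun e _ => hq1 e.2

end planted

end SmallDepth
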