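import Pool.Agent.Lib.MP_8fffab_lc_AC.Rest

/-!
# Decision trees
-/

open Finset

namespace SmallDepth

/-- The function `g` has a decision tree of depth at most `m`. -/
inductive DT {Ω : Type} [DecidableEq Ω] : ℕ → ((Ω → Bool) → Prop) → Prop
  | const (m : ℕ) (g : (Ω → Bool) → Prop) (h : ∀ x y, g x ↔ g y) : DT m g
  | node (m : ℕ) (g : (Ω → Bool) → Prop) (S : Ω)
      (h : ∀ b, DT m (fun x => g (Function.update x S b))) : DT (m + 1) g

variable {Ω : Type} [DecidableEq Ω]

theorem DT.mono {m m' : ℕ} {g : (Ω → Bool) → Prop} (h : DT m g) (hm : m ≤ m') : DT m' g := by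
  induction h generalizing m' with
  | const m g h => exact DT.const m' g h
  | node m g S h ih =>
    obtain ⟨m'', rfl⟩ : ∃ m'', m' = m'' + 1 := ⟨m' - 1, by omega⟩
    exact DT.node m'' g S fun b => ih b (by omega)

theorem DT.not {m : ℕ} {g : (Ω → Bool) → Prop} (h : DT m g) : DT m (fun x => ¬ g x) := by
  induction h with
  | const m g h => exact DT.const m _ fun x y => not_congr (h x y)
  | node m g S h ih => exact DT.node m _ S ih

theorem DT.not_iff {m : ℕ} {g : (Ω → Bool) → Prop} : DT m (fun x => ¬ g x) ↔ DT m g := by
  refine ⟨fun h => ?_, DT.not⟩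
  have := h.not
  simpa using this

theorem ap_update (ρ : Restr Ω) (x : Ω → Bool) (S : Ω) (b : Bool) :
    ap (Function.update ρ S (some b)) x = Function.update (ap ρ x) S b := by
  funext T
  by_cases hT : T = S
  · subst hT; simp [ap]
  · simp [ap, Function.update_of_ne hT]

theorem ap_update' (ρ : Restr Ω) (x : Ω → Bool) (S : Ω) (b : Bool) :
    ap (Function.update ρ S none) (Function.update x S b) = Function.update (ap ρ x) S b := by
  funext T
  by_cases hT : T = S
  · subst hT; simp [ap]
  · simp [ap, Function.update_of_ne hT]

theorem ap_of_free {ρ : Restr Ω} {S : Ω} (h : ρ S = none) (x : Ω → Bool) (b : Bool) :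
    ap ρ (Function.update x S b) = Function.update (ap ρ x) S b := by
  funext T
  by_cases hT : T = S
  · subst hT; simp [ap, h]
  · simp [ap, Function.update_of_ne hT]

theorem ap_of_fixed {ρ : Restr Ω} {S : Ω} {b : Bool} (h : ρ S = some b) (x : Ω → Bool) :
    Function.update (ap ρ x) S b = ap ρ x := by
  funext T
  by_cases hT : T = S
  · subst hT; simp [ap, h]
  · simp [Function.update_of_ne hT]

/-- Restrictions preserve the depth. -/
theorem DT.res {m : ℕ} {g : (Ω → Bool) → Prop} (h : DT m g) (ρ : Restr Ω) :
    DT m (SmallDepth.res ρ g) := by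
  induction h with
  | const m g h => exact DT.const m _ fun x y => h _ _
  | node m g S h ih =>
    rcases hS : ρ S with _ | b
    · refine DT.node m _ S fun b => ?_
      have h1 := ih b
      have h2 : (fun x => SmallDepth.res ρ g (Function.update x S b)) =
          SmallDepth.res ρ fun x => g (Function.update x S b) := by
        funext x
        unfold SmallDepth.res
        rw [ap_of_free hS]
      rw [h2]
      exact h1
    · have h1 := ih b
      have h2 : (SmallDepth.res ρ fun x => g (Function.update x S b)) = SmallDepth.res ρ g := by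
        funext x
        change g (Function.update (ap ρ x) S b) = g (ap ρ x)
        rw [ap_of_fixed hS]
      rw [h2] at h1
      exact h1.mono (Nat.le_succ m)

/-- A function with a shallow decision tree depends on few coordinates. -/
theorem DT.junta {m : ℕ} {g : (Ω → Bool) → Prop} (h : DT m g) :
    ∃ T : Finset Ω, T.card + 1 ≤ 2 ^ m ∧ ∀ x y, (∀ S ∈ T, x S = y S) → (g x ↔ g y) := by
  induction h with
  | const m g h => exact ⟨∅, by simpa using Nat.one_le_two_pow, fun x y _ => h x y⟩
  | node m g S h ih =>
    obtain ⟨T₀, h0, h0'⟩ := ih false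
    obtain ⟨T₁, h1, h1'⟩ := ih true
    refine ⟨insert S (T₀ ∪ T₁), ?_, ?_⟩
    · have h2 := card_insert_le S (T₀ ∪ T₁)
      have h3 := card_union_le T₀ T₁
      rw [pow_succ]
      omega
    · intro x y hxy
      have hS : x S = y S := hxy S (mem_insert_self _ _)
      have e1 : x = Function.update x S (x S) := by simp
      have e2 : y = Function.update y S (x S) := by rw [hS]; simp
      rw [e1, e2]
      rcases hb : x S with _ | _
      · exact h0' x y fun T hT => hxy T (mem_insert_of_mem (mem_union_left _ hT))
      · exact h1' x y fun T hT => hxy T (mem_insert_of_mem (mem_union_right _ hT))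

/-- Certificates. -/
theorem DT.cert {m : ℕ} {g : (Ω → Bool) → Prop} (h : DT m g) (x : Ω → Bool) :
    ∃ T : Finset Ω, T.card ≤ m ∧ ∀ y, (∀ S ∈ T, y S = x S) → (g y ↔ g x) := by
  induction h with
  | const m g h => exact ⟨∅, by simp, fun y _ => h y x⟩
  | node m g S h ih =>
    obtain ⟨T, hT, hT'⟩ := ih (x S)
    refine ⟨insert S T, (card_insert_le S T).trans (by omega), fun y hy => ?_⟩
    have e1 : x = Function.update x S (x S) := by simp
    have e2 : y = Function.update y S (x S) := by rw [← hy S (mem_insert_self _ _)]; simp
    have h3 : g (Function.update y S (x S)) ↔ g (Function.update x S (x S)) :=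
      hT' y fun U hU => hy U (mem_insert_of_mem hU)
    rwa [← e1, ← e2] at h3

/-- A function which depends only on the coordinates in `T`. -/
theorem DT.of_junta (T : Finset Ω) : ∀ g : (Ω → Bool) → Prop,
    (∀ x y, (∀ S ∈ T, x S = y S) → (g x ↔ g y)) → DT T.card g := by
  induction T using Finset.induction_on with
  | empty => exact fun g h => DT.const _ g fun x y => h x y (by simp)
  | insert S T hS ih =>
    intro g h
    rw [card_insert_of_notMem hS]
    refine DT.node _ g S fun b => ih _ fun x y hxy => h _ _ fun U hU => ?_
    by_cases hUS : U = S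
    · subst hUS; simp
    · rw [Function.update_of_ne hUS, Function.update_of_ne hUS]
      exact hxy U (mem_of_mem_insert_of_ne hU hUS)

/-- Case distinction according to a function with a decision tree. -/
theorem DT.bind {m m' : ℕ} {u : (Ω → Bool) → Prop} (hu : DT m u) :
    ∀ (G : (Ω → Bool) → Prop) (H : Prop → (Ω → Bool) → Prop), (∀ b, DT m' (H b)) →
      (∀ x, G x ↔ H (u x) x) → DT (m + m') G := by
  induction hu with
  | const m u h =>
    intro G H hH hG
    have x₀ : Ω → Bool := fun _ => false
    have : G = H (u x₀) := by
      funext x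
      rw [eq_iff_iff, hG x, show u x = u x₀ from propext (h x x₀)]
    rw [this]
    exact (hH _).mono (Nat.le_add_left _ _)
  | node m u S h ih =>
    intro G H hH hG
    rw [Nat.add_right_comm]
    refine DT.node _ G S fun b => ih b _ (fun c x => H c (Function.update x S b)) ?_ ?_
    · intro c
      have h1 := (hH c).res (Function.update (fun _ => none) S (some b))
      have h2 : ∀ x : Ω → Bool, ap (Function.update (fun _ => none) S (some b)) x =
          Function.update x S b := by
        intro x
        rw [ap_update]
        rfl
      have h3 : SmallDepth.res (Function.update (fun _ => none) S (some b)) (H c) =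
          fun x => H c (Function.update x S b) := by
        funext x
        unfold SmallDepth.res
        rw [h2]
      rw [h3] at h1
      exact h1
    · intro x
      exact hG _

/-- Functions of few functions with shallow decision trees. -/
theorem DT.of_fun {m r : ℕ} {v : Fin r → (Ω → Bool) → Prop} (hv : ∀ l, DT m (v l))
    (G : (Fin r → Prop) → Prop) : DT (r * m) (fun x => G fun l => v l x) := by
  induction r with
  | zero =>
    refine DT.const _ _ fun x y => ?_
    have : (fun l => v l x) = (fun l : Fin 0 => v l y) := by funext l; exact l.elim0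
    rw [this]
  | succ r ih =>
    have h1 : ∀ b : Prop, DT (r * m) (fun x => G (Fin.cons b fun l => v l.succ x)) := fun b =>
      ih (fun l => hv l.succ) fun z => G (Fin.cons b z)
    have h2 := (hv 0).bind (m' := r * m) (fun x => G fun l => v l x)
      (fun b x => G (Fin.cons b fun l => v l.succ x)) h1 (fun x => by
        have : (fun l => v l x) = Fin.cons (v 0 x) fun l => v l.succ x := by
          funext l
          refine Fin.cases ?_ (fun l => ?_) l
          · rfl
          · rfl
        rw [this])
    rw [Nat.succ_mul, Nat.add_comm]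
    exact h2

variable [Fintype Ω]

theorem DT.exists (g : (Ω → Bool) → Prop) : DT (Fintype.card Ω) g := by
  have := DT.of_junta (univ : Finset Ω) g fun x y h => by
    rw [show x = y from funext fun S => h S (mem_univ S)]
  rwa [card_univ] at this

/-- The depth of the best decision tree. -/
noncomputable def dt (g : (Ω → Bool) → Prop) : ℕ := sInf {m | DT m g}

theorem dt_spec (g : (Ω → Bool) → Prop) : DT (dt g) g :=
  Nat.sInf_mem (s := {m | DT m g}) ⟨_, DT.exists g⟩

omit [Fintype Ω] in
theorem dt_le {m : ℕ} {g : (Ω → Bool) → Prop} (h : DT m g) : dt g ≤ m :=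
  Nat.sInf_le (s := {m | DT m g}) h

theorem dt_not (g : (Ω → Bool) → Prop) : dt (fun x => ¬ g x) = dt g := by
  apply le_antisymm
  · exact dt_le (dt_spec g).not
  · exact dt_le (DT.not_iff.1 (dt_spec fun x => ¬ g x))

end SmallDepth
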