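import Mathlib

/-!
# Circuits of small depth for Set Cover: definitions

An instance consists of `m` subsets of `Fin n`, given by an `m × n` incidence matrix. The circuits
have AND gates and OR gates of any fan-in, NOT gates and further gates, which compute arbitrary
Boolean functions of a limited number of gates.
-/

open Finset

namespace SmallDepth

/-- A gate which may refer to the gates with numbers `< i`. -/
inductive Gate (ι : Type) (i : ℕ) : Type
  | input (v : ι)
  | not (a : Fin i)
  | and (S : Finset (Fin i))
  | or (S : Finset (Fin i))
  | other (r : ℕ) (w : Fin r → Fin i) (g : (Fin r → Prop) → Prop)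

/-- Is the gate an AND gate, an OR gate or one of the further gates? -/
def Gate.counts {ι : Type} {i : ℕ} : Gate ι i → Bool
  | .input _ => false
  | .not _ => false
  | _ => true

/-- Number of input wires, if the gate is one of the further gates. -/
def Gate.wires {ι : Type} {i : ℕ} : Gate ι i → ℕ
  | .other r _ _ => r
  | _ => 0

/-- A circuit: gate number `i` refers only to gates with smaller numbers. A circuit with output
gate `o` is given by the gates with numbers `≤ o`; the other ones are irrelevant. -/
abbrev Circuit (ι : Type) := (i : ℕ) → Gate ι i

/-- The value of gate number `i` on the input `x`. -/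
def Circuit.val {ι : Type} (C : Circuit ι) (x : ι → Prop) (i : ℕ) : Prop :=
  match C i with
  | .input v => x v
  | .not a => ¬ C.val x a
  | .and S => ∀ a : Fin i, a ∈ S → C.val x a
  | .or S => ∃ a : Fin i, a ∈ S ∧ C.val x a
  | .other _ w g => g fun l => C.val x (w l)
termination_by i
decreasing_by all_goals exact Fin.isLt _

/-- The depth of gate number `i`; inputs have depth `0`, and NOT gates are free. -/
def Circuit.depth {ι : Type} (C : Circuit ι) (i : ℕ) : ℕ :=
  match C i with
  | .input _ => 0
  | .not a => C.depth a
  | .and S => (S.sup fun a => C.depth a) + 1
  | .or S => (S.sup fun a => C.depth a) + 1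
  | .other _ w _ => (univ.sup fun l => C.depth (w l)) + 1
termination_by i
decreasing_by all_goals exact Fin.isLt _

/-- Number of AND gates, OR gates and further gates among the gates with numbers `≤ o`. -/
def Circuit.size {ι : Type} (C : Circuit ι) (o : ℕ) : ℕ :=
  ((range (o + 1)).filter fun i => (C i).counts = true).card

/-- The number `1` if `p` is true and `0` if not. -/
noncomputable def bit (p : Prop) : ℝ := by
  classical exact if p then 1 else 0

/-- At most `k` of the `m` sets cover `Fin n`; `a i v` says that the set number `i` contains
`v`. -/
def HasCover {m n : ℕ} (k : ℕ) (a : Fin m → Fin n → Prop) : Prop :=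
  ∃ I : Finset (Fin m), I.card ≤ k ∧ ∀ v, ∃ i ∈ I, a i v

/-- There is a circuit of depth at most `d` with at most `s` gates (inputs and NOT gates are not
counted), whose further gates have at most `f` input wires each, and a threshold gate with
arbitrary real weights `w` and threshold `θ`, which reads all gates of the circuit, such that the
threshold gate decides, given `m` subsets of `Fin n`, whether at most `k` of them cover `Fin n`.
The inputs of the circuit are the `m * n` entries of the incidence matrix. -/
def HasCircuit (m n k d f s : ℕ) : Prop :=
  ∃ (C : Circuit (Fin m × Fin n)) (o : ℕ) (w : ℕ → ℝ) (θ : ℝ),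
    C.size o ≤ s ∧ (∀ i ≤ o, C.depth i ≤ d ∧ (C i).wires ≤ f) ∧
    ∀ a : Fin m → Fin n → Prop, HasCover k a ↔
      θ ≤ ∑ i ∈ range (o + 1), w i * bit (C.val (fun e => a e.1 e.2) i)

end SmallDepth
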