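import Pool.Agent.Lib.MP_8fffab_lc_AC.PlanDefs

/-!
# Further exact covers
-/

open Finset

namespace SmallDepth

open SetCoverMono (col)

private theorem card_colourings {k h : ℕ} (B : Fin k → Finset (Fin (k * h)))
    (I : Finset (Fin k)) :
    open Classical in
    (univ.filter fun c : Fin (k * h) → Fin k => (∀ i, (cls c i).card = h) ∧
      ∀ i, i ∉ I → cls c i = B i).card ≤ k ^ (h * I.card) := by
  classical
  set S := univ.filter fun c : Fin (k * h) → Fin k => (∀ i, (cls c i).card = h) ∧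
      ∀ i, i ∉ I → cls c i = B i with hS
  rcases S.eq_empty_or_nonempty with h0 | ⟨c₀, hc₀⟩
  · rw [h0, card_empty]
    exact Nat.zero_le _
  · have hc₀' := (mem_filter.1 hc₀).2
    set P := univ.filter fun v => c₀ v ∈ I with hP
    have hPc : P.card = h * I.card := by
      have h1 : P = I.biUnion fun i => cls c₀ i := by
        ext v
        simp only [hP, cls, mem_filter, mem_univ, true_and, mem_biUnion]
        constructor
        · intro hv
          exact ⟨_, hv, rfl⟩
        · rintro ⟨i, hi, rfl⟩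
          exact hi
      rw [h1, card_biUnion]
      · rw [sum_congr rfl fun i _ => hc₀'.1 i, sum_const, smul_eq_mul, mul_comm]
      · intro i _ j _ hij
        rw [Function.onFun, disjoint_left]
        intro v hv hv'
        unfold cls at hv hv'
        rw [mem_filter] at hv hv'
        exact hij (hv.2.symm.trans hv'.2)
    have hoff : ∀ c ∈ S, ∀ v, v ∉ P → c v = c₀ v := by
      intro c hc v hv
      have hc' := (mem_filter.1 hc).2
      have h1 : c₀ v ∉ I := by
        intro h2
        exact hv (mem_filter.2 ⟨mem_univ _, h2⟩)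
      have h2 : v ∈ cls c₀ (c₀ v) := mem_filter.2 ⟨mem_univ _, rfl⟩
      rw [hc₀'.2 _ h1, ← hc'.2 _ h1] at h2
      exact (mem_filter.1 h2).2
    have h1 : S.card ≤ (univ : Finset (P → Fin k)).card := by
      refine card_le_card_of_injOn (fun c v => c v.1) (fun c _ => mem_coe.2 (mem_univ _)) ?_
      intro c hc c' hc' hcc
      funext v
      by_cases hv : v ∈ P
      · exact congrFun hcc ⟨v, hv⟩
      · rw [hoff c hc v hv, hoff c' hc' v hv]
    rw [card_univ, Fintype.card_fun, Fintype.card_fin, Fintype.card_coe, hPc] at h1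
    exact h1

/-- Row EXTRA: a random family of sets rarely has further exact covers. Union bound over `τ` and
`c`; for `I = {i | cls c i ≠ blk π (τ i)}` the coordinates `((τ i, cls c i), false)`, `i ∈ I`, are
different (the classes are disjoint and not empty), so `Ex_true` gives probability `≤ pe ^ #I`; and
for given `τ` and `I` at most `k ^ (h * #I)` colourings `c` occur. -/
theorem prob_extra {k h : ℕ} (hh : 0 < h) (π : Equiv.Perm (Fin (k * h)))
    {q p : Cd k h → ℝ} (hq : ∀ S, 0 ≤ q S) (hp : ∀ S, 0 ≤ p S) (hqp : ∀ S, q S + p S ≤ 1)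
    {pe : ℝ} (hpe : ∀ u, p (u, false) ≤ pe) (hpe1 : (k : ℝ) ^ h * pe ≤ 1) :
    Ex q p (fun ρ => ind (Extra (tr ρ) π)) ≤ 2 ^ k * (k : ℝ) ^ k * ((k : ℝ) ^ h * pe) := by
  classical
  rcases Nat.eq_zero_or_pos k with rfl | hk
  · have h1 : ∀ ρ : Restr (Cd 0 h), ind (Extra (tr ρ) π) = 0 := fun ρ => ind_false (by
      rintro ⟨τ, c, -, -, i, -⟩
      exact i.elim0)
    rw [Ex_congr h1, Ex_const]
    simp [hh.ne']
  have hpe0 : 0 ≤ pe := (hp _).trans (hpe (⟨0, hk⟩, ∅))
  set K : ℝ := (k : ℝ) ^ h * pe with hK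
  have hK0 : 0 ≤ K := by positivity
  let S : (Fin k → Fin k) → Finset (Fin k) → Finset (Fin (k * h) → Fin k) := fun τ I =>
    univ.filter fun c : Fin (k * h) → Fin k => (∀ i, (cls c i).card = h) ∧
      ∀ i, i ∉ I → cls c i = blk π (τ i)
  let N : Finset (Finset (Fin k)) := univ.filter fun I => I.Nonempty
  let g : (Fin k → Fin k) → (Fin (k * h) → Fin k) → Fin k → Cd k h :=
    fun τ c i => ((τ i, cls c i), false)
  have hunion : ∀ ρ : Restr (Cd k h), ind (Extra (tr ρ) π) ≤
      ∑ τ : Fin k → Fin k, ∑ I ∈ N, ∑ c ∈ S τ I, ind (∀ s ∈ I.image (g τ c), ρ s = some true) := by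
    intro ρ
    refine (ind_mono (Q := ∃ τ ∈ (univ : Finset (Fin k → Fin k)), ∃ I ∈ N, ∃ c ∈ S τ I,
      ∀ s ∈ I.image (g τ c), ρ s = some true) ?_).trans ?_
    · rintro ⟨τ, c, h1, h2, i, hi⟩
      refine ⟨τ, mem_univ _, univ.filter fun i => cls c i ≠ blk π (τ i), ?_, c, ?_, ?_⟩
      · exact mem_filter.2 ⟨mem_univ _, ⟨i, mem_filter.2 ⟨mem_univ _, hi⟩⟩⟩
      · refine mem_filter.2 ⟨mem_univ _, h1, fun j hj => ?_⟩
        by_contra h3
        exact hj (mem_filter.2 ⟨mem_univ _, h3⟩)
      · intro s hs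
        obtain ⟨j, hj, rfl⟩ := mem_image.1 hs
        have h3 := (h2 j).resolve_left (mem_filter.1 hj).2
        exact of_decide_eq_true h3
    · refine (ind_exists_le _ _).trans (sum_le_sum fun τ _ => ?_)
      refine (ind_exists_le _ _).trans (sum_le_sum fun I _ => ?_)
      exact ind_exists_le _ _
  have hterm : ∀ τ : Fin k → Fin k, ∀ I ∈ N, ∀ c ∈ S τ I,
      Ex q p (fun ρ => ind (∀ s ∈ I.image (g τ c), ρ s = some true)) ≤ pe ^ I.card := by
    intro τ I _ c hc
    have hc' := (mem_filter.1 hc).2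
    rw [Ex_true, prod_image]
    · rw [← prod_const]
      exact prod_le_prod (fun i _ => hp _) fun i _ => hpe _
    · intro i _ j _ hij
      have h1 : cls c i = cls c j := congrArg (fun s : Cd k h => s.1.2) hij
      have h2 : 0 < (cls c i).card := by rw [hc'.1 i]; exact hh
      obtain ⟨v, hv⟩ := card_pos.1 h2
      have h3 := hv
      rw [h1] at h3
      exact (mem_filter.1 hv).2.symm.trans (mem_filter.1 h3).2
  have hI : ∀ τ : Fin k → Fin k, ∀ I ∈ N,
      ∑ c ∈ S τ I, Ex q p (fun ρ => ind (∀ s ∈ I.image (g τ c), ρ s = some true)) ≤ K := by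
    intro τ I hIN
    refine (sum_le_sum fun c hc => hterm τ I hIN c hc).trans ?_
    rw [sum_const, nsmul_eq_mul]
    have h1 : ((S τ I).card : ℝ) ≤ (k : ℝ) ^ (h * I.card) := by
      exact_mod_cast card_colourings (fun i => blk π (τ i)) I
    have h2 : (k : ℝ) ^ (h * I.card) * pe ^ I.card = K ^ I.card := by
      rw [hK, mul_pow, ← pow_mul]
    have h3 : 1 ≤ I.card := card_pos.2 (mem_filter.1 hIN).2
    calc ((S τ I).card : ℝ) * pe ^ I.card ≤ (k : ℝ) ^ (h * I.card) * pe ^ I.card :=
          mul_le_mul_of_nonneg_right h1 (by positivity)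
      _ = K ^ I.card := h2
      _ ≤ K ^ 1 := pow_le_pow_of_le_one hK0 hpe1 h3
      _ = K := pow_one K
  calc Ex q p (fun ρ => ind (Extra (tr ρ) π))
      ≤ Ex q p (fun ρ => ∑ τ : Fin k → Fin k, ∑ I ∈ N, ∑ c ∈ S τ I,
          ind (∀ s ∈ I.image (g τ c), ρ s = some true)) := Ex_mono hq hp hqp hunion
    _ = ∑ τ : Fin k → Fin k, ∑ I ∈ N, ∑ c ∈ S τ I,
          Ex q p (fun ρ => ind (∀ s ∈ I.image (g τ c), ρ s = some true)) := by
        rw [Ex_sum]
        refine sum_congr rfl fun τ _ => ?_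
        rw [Ex_sum]
        refine sum_congr rfl fun I _ => ?_
        rw [Ex_sum]
    _ ≤ ∑ _τ : Fin k → Fin k, ∑ _I ∈ N, K :=
        sum_le_sum fun τ _ => sum_le_sum fun I hIN => hI τ I hIN
    _ = (k : ℝ) ^ k * (N.card * K) := by
        rw [sum_const, sum_const, nsmul_eq_mul, nsmul_eq_mul, card_univ, Fintype.card_fun,
          Fintype.card_fin]
        push_cast
        ring
    _ ≤ (k : ℝ) ^ k * (2 ^ k * K) := by
        have h1 : N.card ≤ 2 ^ k := by
          refine (card_filter_le _ _).trans (le_of_eq ?_)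
          rw [card_univ, Fintype.card_finset, Fintype.card_fin]
        have h2 : (N.card : ℝ) ≤ 2 ^ k := by exact_mod_cast h1
        gcongr
    _ = 2 ^ k * (k : ℝ) ^ k * ((k : ℝ) ^ h * pe) := by
        rw [← hK]
        ring

end SmallDepth
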