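import Pool.Agent.Lib.MP_8fffab_lc_AC.Main

/-!
# The main theorem
-/

open Finset Filter Topology

namespace SmallDepth

theorem two_rpow_le (n : ℕ) : (2 : ℝ) ^ (0.0004 * n : ℝ) ≤ 1.0003 ^ n := by
  rw [Real.rpow_mul (by norm_num), Real.rpow_natCast]
  refine pow_le_pow_left₀ (by positivity) ?_ n
  have h1 : (2 : ℝ) ^ (0.0004 : ℝ) ≤ Real.exp (0.0004 * 0.7) := by
    rw [Real.rpow_def_of_pos (by norm_num)]
    refine Real.exp_le_exp.2 ?_
    have := Real.log_two_lt_d9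
    linarith
  refine h1.trans ?_
  have h2 := Real.exp_bound_div_one_sub_of_interval (x := 0.00028) (by norm_num) (by norm_num)
  norm_num at h2 ⊢
  linarith

/-- Lower bound for circuits of small depth with a threshold gate on top. -/
theorem main (c : ℕ) : ∃ k₀ : ℕ, ∀ k ≥ k₀, ∃ δ : ℝ, 0 < δ ∧ ∃ n₀ : ℕ, ∀ n ≥ n₀, ∀ d f s : ℕ,
    1 ≤ d → (d : ℝ) ^ 2 ≤ δ * n → (f : ℝ) ^ d ≤ 2 ^ (δ * n) →
    HasCircuit (n.choose (n / k)) n k d f s →
      1.36 ^ n * ((n.choose (n / k) : ℝ) * n) ^ c ≤ s := by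
  obtain ⟨k₁, hk₁⟩ := num_choose c (η := 0.0003) (by norm_num)
  refine ⟨max 20 k₁, fun k hk => ?_⟩
  have hk20 : 20 ≤ k := le_trans (le_max_left _ _) hk
  have hk' : (20 : ℝ) ≤ k := by exact_mod_cast hk20
  obtain ⟨δ, hδ, hpar⟩ := params hk20
  obtain ⟨n₁, hn₁⟩ := hk₁ k (le_trans (le_max_right _ _) hk)
  obtain ⟨n₂, hn₂⟩ := num_rows hk20
  obtain ⟨η, hη⟩ : ∃ η : ℝ, η = 1 / (10000 * k) := ⟨_, rfl⟩
  have hη0 : 0 < η := by rw [hη]; positivity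
  have hηk : η * k = 1 / 10000 := by
    rw [hη]
    field_simp
  obtain ⟨n₃, hn₃⟩ := tends k (2 ^ k * (k : ℝ) ^ k * 2)
    (4 ^ k * (3 ^ (k + 1) * 1.362 ^ (3 * k) * 2 ^ (k + 1)))
    (u := (2 : ℝ) ^ (-η)) (ε := (1 / 4 : ℝ) ^ k) (by positivity)
    (Real.rpow_lt_one_of_one_lt_of_neg (by norm_num) (by linarith)) (by positivity)
  refine ⟨δ, hδ, max 1 (max n₁ (max n₂ n₃)), ?_⟩
  intro n hn d f s hd1 hd hf hC
  have hn1 : n₁ ≤ n := (le_max_left _ _).trans ((le_max_right _ _).trans hn)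
  have hn2 : n₂ ≤ n :=
    (le_max_left _ _).trans ((le_max_right _ _).trans ((le_max_right _ _).trans hn))
  have hn3 : n₃ ≤ n :=
    (le_max_right _ _).trans ((le_max_right _ _).trans ((le_max_right _ _).trans hn))
  have hn0 : 1 ≤ n := (le_max_left _ _).trans hn
  by_contra hcon
  push Not at hcon
  obtain ⟨l, rfl⟩ : ∃ l, d = l + 1 := ⟨d - 1, by omega⟩
  obtain ⟨m, y, hm, hy, hym, hyf, hym8, hyz, hA⟩ := hpar n l f hd hf
  obtain ⟨hh, hkn, hrows⟩ := hn₂ n hn2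
  set h := n / k - 2 with hhdef
  have hchoose := hn₁ n hn1
  have hnr : (1 : ℝ) ≤ n := by exact_mod_cast hn0
  have hs1 : (s : ℝ) ≤ 1.36 ^ n * 1.0003 ^ n := by
    refine hcon.le.trans ?_
    refine mul_le_mul_of_nonneg_left ?_ (by positivity)
    calc _ ≤ (1 + 0.0003 : ℝ) ^ n := hchoose
      _ = 1.0003 ^ n := by norm_num
  have hs2 : (s : ℝ) ≤ 2 ^ n := by
    refine hs1.trans ?_
    rw [← mul_pow]
    exact pow_le_pow_left₀ (by norm_num) (by norm_num) n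
  have hkh : k * h ≤ n := by omega
  have hkh3 : n ≤ k * h + 3 * k := by
    have h1 := Nat.div_add_mod n k
    have h2 := Nat.mod_lt n (by omega : k > 0)
    have h3 : k * (n / k) = k * h + 2 * k := by
      have : n / k = h + 2 := by omega
      rw [this]
      ring
    omega
  have hε : ((2 : ℝ) ^ (k * h)) ^ k * (s * (2 * (8 * y) ^ m)) ≤ 1 := by
    have e1 : ((2 : ℝ) ^ (k * h)) ^ k ≤ (2 ^ n) ^ k :=
      pow_le_pow_left₀ (by positivity) (pow_le_pow_right₀ (by norm_num) hkh) k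
    have e2 : (s : ℝ) * (2 * (8 * y) ^ m) ≤ 2 ^ n * (2 * (1 / 2) ^ (n * (k + 3))) := by
      refine mul_le_mul hs2 ?_ (by positivity) (by positivity)
      exact mul_le_mul_of_nonneg_left hym8 (by norm_num)
    calc ((2 : ℝ) ^ (k * h)) ^ k * (s * (2 * (8 * y) ^ m))
        ≤ (2 ^ n) ^ k * (2 ^ n * (2 * (1 / 2) ^ (n * (k + 3)))) :=
          mul_le_mul e1 e2 (by positivity) (by positivity)
      _ = 2 * (1 / 2) ^ (2 * n) * ((2 ^ n) ^ (k + 1) * ((1 / 2) ^ n) ^ (k + 1)) := by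
          ring
      _ = 2 * (1 / 2) ^ (2 * n) := by
          rw [← mul_pow, ← mul_pow]
          norm_num
      _ ≤ 2 * (1 / 2) ^ (2 * 1) := by
          refine mul_le_mul_of_nonneg_left ?_ (by norm_num)
          exact pow_le_pow_of_le_one (by norm_num) (by norm_num) (by omega)
      _ ≤ 1 := by norm_num
  have hmain := ineq hk20 hh hC hkn hrows hy hm hym hyf hε
  rw [hyz, ← hη] at hmain
  -- the first term
  have f1 : (2 : ℝ) ^ (-(η * n)) = ((2 : ℝ) ^ (-η)) ^ n := by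
    rw [← Real.rpow_natCast, ← Real.rpow_mul (by norm_num)]
    congr 1
    ring
  -- the second term
  have f2 : (((2 : ℝ) ^ (-(η * n)))⁻¹) ^ (3 * k) = 2 ^ (0.0003 * n : ℝ) := by
    rw [← Real.rpow_neg (by norm_num), neg_neg, ← Real.rpow_natCast,
      ← Real.rpow_mul (by norm_num)]
    congr 1
    push_cast
    linear_combination 3 * (n : ℝ) * hηk
  have f3 : (3 * (k : ℝ) * h) ^ (k + 1) ≤ 3 ^ (k + 1) * (n : ℝ) ^ (k + 1) := by
    rw [← mul_pow]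
    refine pow_le_pow_left₀ (by positivity) ?_ _
    have : (k : ℝ) * h ≤ n := by exact_mod_cast hkh
    linarith
  have f4 : (1 / 1.362 : ℝ) ^ (k * h) ≤ 1.362 ^ (3 * k) * (1 / 1.362) ^ n := by
    have h1 : (1 / 1.362 : ℝ) ^ (k * h) = 1.362 ^ (3 * k) * (1 / 1.362) ^ (k * h + 3 * k) := by
      have h2 : (1.362 : ℝ) ^ (3 * k) * (1 / 1.362) ^ (3 * k) = 1 := by
        rw [← mul_pow]
        norm_num
      rw [pow_add]
      linear_combination (-(1 / 1.362 : ℝ) ^ (k * h)) * h2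
    rw [h1]
    refine mul_le_mul_of_nonneg_left ?_ (by positivity)
    exact pow_le_pow_of_le_one (by norm_num) (by norm_num) hkh3
  have f5 : (3 * (k : ℝ) * h) ^ (k + 1) * (1 / 1.362) ^ (k * h) * 2 ^ (0.0003 * n : ℝ) *
      ((asize (2 * k) (2 ^ m) f : ℝ) ^ k + 1) ≤
      (3 ^ (k + 1) * (n : ℝ) ^ (k + 1)) * (1.362 ^ (3 * k) * (1 / 1.362) ^ n) *
        2 ^ (0.0003 * n : ℝ) * (2 ^ (k + 1) * (2 : ℝ) ^ (0.0001 * n : ℝ)) := by
    gcongr
  have f6 : (2 : ℝ) ^ (0.0003 * n : ℝ) * (2 : ℝ) ^ (0.0001 * n : ℝ) ≤ 1.0003 ^ n := by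
    rw [← Real.rpow_add (by norm_num)]
    refine le_trans (le_of_eq ?_) (two_rpow_le n)
    congr 1
    ring
  have f7 : (3 ^ (k + 1) * (n : ℝ) ^ (k + 1)) * (1.362 ^ (3 * k) * (1 / 1.362) ^ n) *
        2 ^ (0.0003 * n : ℝ) * (2 ^ (k + 1) * (2 : ℝ) ^ (0.0001 * n : ℝ)) ≤
      (3 ^ (k + 1) * 1.362 ^ (3 * k) * 2 ^ (k + 1)) * ((n : ℝ) ^ (k + 1) * (1 / 1.362) ^ n) *
        1.0003 ^ n := by
    calc _ = (3 ^ (k + 1) * 1.362 ^ (3 * k) * 2 ^ (k + 1)) *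
          ((n : ℝ) ^ (k + 1) * (1 / 1.362) ^ n) *
          ((2 : ℝ) ^ (0.0003 * n : ℝ) * (2 : ℝ) ^ (0.0001 * n : ℝ)) := by ring
      _ ≤ _ := mul_le_mul_of_nonneg_left f6 (by positivity)
  have f8 : (s : ℝ) * (4 ^ k * ((3 ^ (k + 1) * 1.362 ^ (3 * k) * 2 ^ (k + 1)) *
      ((n : ℝ) ^ (k + 1) * (1 / 1.362) ^ n) * 1.0003 ^ n)) ≤
      4 ^ k * (3 ^ (k + 1) * 1.362 ^ (3 * k) * 2 ^ (k + 1)) *
        ((n : ℝ) ^ (k + 1) * 0.9992 ^ n) := by
    calc _ ≤ (1.36 ^ n * 1.0003 ^ n) * (4 ^ k * ((3 ^ (k + 1) * 1.362 ^ (3 * k) * 2 ^ (k + 1)) *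
        ((n : ℝ) ^ (k + 1) * (1 / 1.362) ^ n) * 1.0003 ^ n)) :=
          mul_le_mul_of_nonneg_right hs1 (by positivity)
      _ = 4 ^ k * (3 ^ (k + 1) * 1.362 ^ (3 * k) * 2 ^ (k + 1)) * ((n : ℝ) ^ (k + 1) *
          (1.36 ^ n * 1.0003 ^ n * (1 / 1.362) ^ n * 1.0003 ^ n)) := by ring
      _ ≤ _ := by
          refine mul_le_mul_of_nonneg_left ?_ (by positivity)
          refine mul_le_mul_of_nonneg_left ?_ (by positivity)
          rw [← mul_pow, ← mul_pow, ← mul_pow]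
          exact pow_le_pow_left₀ (by norm_num) (by norm_num) n
  have hfin := hn₃ n hn3
  refine absurd hmain (not_le.2 ?_)
  refine lt_of_le_of_lt ?_ hfin
  refine add_le_add ?_ ?_
  · rw [f1]
    exact le_of_eq (by ring)
  · rw [f2]
    refine le_trans ?_ f8
    refine mul_le_mul_of_nonneg_left ?_ (Nat.cast_nonneg s)
    refine mul_le_mul_of_nonneg_left ?_ (by positivity)
    exact f5.trans f7

end SmallDepth
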