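import Pool.Agent.Lib.MP_8fffab_lc_AC.PlanDefs

/-!
# Row GADGET
-/

open Finset

namespace SmallDepth

open SetCoverMono (col)

private abbrev Rw (k h : ℕ) : Type := Fin k × {A : Finset (Fin (k * h)) // A.card = h} × Bool

private abbrev Cl (k h : ℕ) : Type := Fin (k * h) ⊕ (Fin k × Bool)

private def live {k h : ℕ} (r : Rw k h) : Prop := ¬ (r.1.val = 0 ∧ r.2.2 = true)

private def G0 {k h : ℕ} (x : Cd k h → Bool) (r : Rw k h) : Cl k h → Prop
  | Sum.inl v => v ∈ r.2.1.1 ∧ x ((r.1, r.2.1.1), false) = true
  | Sum.inr (j, c) => (j.val + 1 = r.1.val ∧ c = r.2.2) ∨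
      (j = r.1 ∧ c = !(xor r.2.2 (x ((r.1, r.2.1.1), true)))) ∨ (j.val + 1 = k ∧ c = true)

private theorem dt_of_coord {k h : ℕ} (e : Cd k h) (g : (Cd k h → Bool) → Prop)
    (hg : ∀ x y, x e = y e → (g x ↔ g y)) : DT 1 g := by
  have := DT.of_junta {e} g fun x y hxy => hg x y (hxy e (mem_singleton_self e))
  rwa [card_singleton] at this

private theorem dt_G0 {k h : ℕ} (r : Rw k h) (c : Cl k h) : DT 1 (fun x => G0 x r c) := by
  rcases c with v | ⟨j, c⟩
  · refine dt_of_coord ((r.1, r.2.1.1), false) _ fun x y hxy => ?_
    simp only [G0, hxy]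
  · refine dt_of_coord ((r.1, r.2.1.1), true) _ fun x y hxy => ?_
    simp only [G0, hxy]

/-- The number of ones before `j`. -/
private def pc {k : ℕ} (x : Fin k → Bool) (j : ℕ) : ℕ :=
  (univ.filter fun i : Fin k => i.val < j ∧ x i = true).card

private def sb {k : ℕ} (x : Fin k → Bool) (j : ℕ) : Bool := decide (Odd (pc x j))

private theorem sb_zero {k : ℕ} (x : Fin k → Bool) : sb x 0 = false := by
  simp [sb, pc]

private theorem sb_succ {k : ℕ} (x : Fin k → Bool) (j : Fin k) :
    sb x (j.val + 1) = xor (sb x j.val) (x j) := by
  have h1 : pc x (j.val + 1) = pc x j.val + if x j = true then 1 else 0 := by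
    unfold pc
    split_ifs with hx
    · have h2 : (univ.filter fun i : Fin k => i.val < j.val + 1 ∧ x i = true) =
          insert j (univ.filter fun i : Fin k => i.val < j.val ∧ x i = true) := by
        ext i
        simp only [mem_filter, mem_univ, true_and, mem_insert]
        constructor
        · rintro ⟨h3, h4⟩
          rcases Nat.lt_succ_iff_lt_or_eq.1 h3 with h5 | h5
          · exact Or.inr ⟨h5, h4⟩
          · exact Or.inl (Fin.ext h5)
        · rintro (rfl | ⟨h3, h4⟩)
          · exact ⟨Nat.lt_succ_self _, hx⟩
          · exact ⟨Nat.lt_succ_of_lt h3, h4⟩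
      rw [h2, card_insert_of_notMem (by simp)]
    · refine (congrArg Finset.card ?_).trans (Nat.add_zero _).symm
      ext i
      simp only [mem_filter, mem_univ, true_and]
      constructor
      · rintro ⟨h3, h4⟩
        rcases Nat.lt_succ_iff_lt_or_eq.1 h3 with h5 | h5
        · exact ⟨h5, h4⟩
        · exact absurd (by rw [← Fin.ext h5]; exact h4) hx
      · rintro ⟨h3, h4⟩
        exact ⟨Nat.lt_succ_of_lt h3, h4⟩
  unfold sb
  rw [h1]
  by_cases hx : x j = true
  · rw [if_pos hx, hx]
    by_cases ho : Odd (pc x j.val)
    · have h2 : ¬ Odd (pc x j.val + 1) := by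
        rw [Nat.not_odd_iff_even]
        exact ho.add_one
      simp [ho, h2]
    · have h2 : Odd (pc x j.val + 1) := by
        rw [Nat.not_odd_iff_even] at ho
        exact ho.add_one
      simp [ho, h2]
  · have hx' : x j = false := by simpa using hx
    rw [if_neg hx, hx']
    simp

private theorem pc_top {k : ℕ} (x : Fin k → Bool) :
    pc x k = (univ.filter fun j => x j = true).card := by
  unfold pc
  refine congrArg Finset.card ?_
  ext i
  simp

private theorem fl_ph {k h : ℕ} (G : Cd k h → Bool) (π : Equiv.Perm (Fin (k * h)))
    (x : Fin k → Bool) (j : Fin k) :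
    fl G (Ph π) (Xs π x) ((j, blk π j), false) = true ∧
      fl G (Ph π) (Xs π x) ((j, blk π j), true) = x j := by
  have hmem : ∀ b : Bool, ((j, blk π j), b) ∈ Ph π := by
    intro b
    exact mem_image.2 ⟨(j, b), mem_univ _, rfl⟩
  constructor
  · unfold fl
    rw [if_pos (hmem false)]
    simp only [decide_eq_true_eq]
    unfold Xs
    rw [mem_filter]
    exact ⟨hmem false, fun h => by simp at h⟩
  · unfold fl
    rw [if_pos (hmem true)]
    by_cases hx : x j = true
    · rw [hx]
      simp only [decide_eq_true_eq]
      unfold Xs
      rw [mem_filter]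
      exact ⟨hmem true, fun _ => hx⟩
    · have hx' : x j = false := by simpa using hx
      rw [hx']
      simp only [decide_eq_false_iff_not]
      unfold Xs
      rw [mem_filter]
      rintro ⟨-, h2⟩
      exact hx (h2 rfl)

private theorem card_blk {k h : ℕ} (π : Equiv.Perm (Fin (k * h))) (j : Fin k) :
    (blk π j).card = h := by
  unfold blk cls
  have h1 : (univ.filter fun v => col k h (π v) = j) =
      (univ.filter fun v => col k h v = j).map π.symm.toEmbedding := by
    ext v
    simp [mem_map_equiv]
  rw [h1, card_map, SetCoverMono.card_col]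

private theorem mem_blk {k h : ℕ} {π : Equiv.Perm (Fin (k * h))} {j : Fin k} {v : Fin (k * h)} :
    v ∈ blk π j ↔ col k h (π v) = j := by
  simp [blk, cls]

/-- Row GADGET: Set Cover computes the parity of the states of the planted units, if there are no
further exact covers. Rows `(j, A, a)` with `A.card = h`, `a : Bool` (all others: never an
incidence). Columns: the points `v` of `Fin (k * h)`: incidence `v ∈ A` and `x ((j, A), false)`;
tags `(j', c)` with `j' < k`, `c : Bool`: the row `(j, A, a)` contains `(j - 1, a)` if `0 < j`, and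
`(j, !b)` where `b = xor a (state of (j, A))`; the rows with `j = 0`, `a = true` are empty; the tag
`(k - 1, true)` and all further columns belong to all rows which are not empty by definition. -/
theorem gadget {k h m n : ℕ} (hk : 0 < k) (hh : 0 < h) (hn : k * h + 2 * k ≤ n)
    (hm : 2 * k * (k * h).choose h ≤ m) :
    ∃ Γ : (Cd k h → Bool) → Fin m × Fin n → Prop, IsLit Γ ∧
      ∀ (G : Cd k h → Bool) (π : Equiv.Perm (Fin (k * h))) (x : Fin k → Bool),
        (Odd (univ.filter fun j => x j = true).card →
          HasCover k fun i v => Γ (fl G (Ph π) (Xs π x)) (i, v)) ∧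
        (¬ Extra G π → (HasCover k fun i v => Γ (fl G (Ph π) (Xs π x)) (i, v)) →
          Odd (univ.filter fun j => x j = true).card) := by
  classical
  have hcR : Fintype.card (Rw k h) ≤ Fintype.card (Fin m) := by
    have h1 : Fintype.card {A : Finset (Fin (k * h)) // A.card = h} = (k * h).choose h := by
      rw [Fintype.card_finset_len, Fintype.card_fin]
    rw [Fintype.card_prod, Fintype.card_prod, h1, Fintype.card_fin, Fintype.card_bool,
      Fintype.card_fin]
    refine le_trans (le_of_eq ?_) hm
    ring
  have hcC : Fintype.card (Cl k h) ≤ Fintype.card (Fin n) := by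
    rw [Fintype.card_sum, Fintype.card_prod, Fintype.card_fin, Fintype.card_fin, Fintype.card_bool,
      Fintype.card_fin]
    omega
  obtain ⟨ι⟩ := Function.Embedding.nonempty_of_card_le hcR
  obtain ⟨κ⟩ := Function.Embedding.nonempty_of_card_le hcC
  refine ⟨fun x e => ∃ r : Rw k h, ι r = e.1 ∧ live r ∧
    ((∃ c, κ c = e.2 ∧ G0 x r c) ∨ ∀ c, κ c ≠ e.2), ?_, ?_⟩
  · -- literals
    rintro ⟨i, v⟩
    by_cases hi : ∃ r, ι r = i ∧ live r
    · obtain ⟨r, rfl, hr⟩ := hi
      by_cases hv : ∃ c, κ c = v
      · obtain ⟨c, rfl⟩ := hv
        have h1 : (fun x : Cd k h → Bool => ∃ r' : Rw k h, ι r' = ι r ∧ live r' ∧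
            ((∃ c', κ c' = κ c ∧ G0 x r' c') ∨ ∀ c', κ c' ≠ κ c)) = fun x => G0 x r c := by
          funext x
          apply propext
          constructor
          · rintro ⟨r', h2, -, ⟨c', h3, h4⟩ | h3⟩
            · rw [← ι.injective h2, ← κ.injective h3]
              exact h4
            · exact absurd rfl (h3 c)
          · intro h2
            exact ⟨r, rfl, hr, Or.inl ⟨c, rfl, h2⟩⟩
        change DT 1 (fun x : Cd k h → Bool => ∃ r' : Rw k h, ι r' = ι r ∧ live r' ∧
            ((∃ c', κ c' = κ c ∧ G0 x r' c') ∨ ∀ c', κ c' ≠ κ c))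
        rw [h1]
        exact dt_G0 r c
      · push Not at hv
        exact DT.const _ _ fun x y => iff_of_true ⟨r, rfl, hr, Or.inr hv⟩ ⟨r, rfl, hr, Or.inr hv⟩
    · push Not at hi
      refine DT.const _ _ fun x y => iff_of_false ?_ ?_
      · rintro ⟨r, h1, h2, -⟩
        exact hi r h1 h2
      · rintro ⟨r, h1, h2, -⟩
        exact hi r h1 h2
  · intro G π x
    obtain ⟨z, hz⟩ : ∃ z, z = fl G (Ph π) (Xs π x) := ⟨_, rfl⟩
    have hz0 : ∀ j, z ((j, blk π j), false) = true := fun j => by rw [hz]; exact (fl_ph G π x j).1
    have hz1 : ∀ j, z ((j, blk π j), true) = x j := fun j => by rw [hz]; exact (fl_ph G π x j).2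
    rw [← hz]
    constructor
    · intro hodd
      obtain ⟨r, hr⟩ : ∃ r : Fin k → Rw k h,
          r = fun j => (j, ⟨blk π j, card_blk π j⟩, sb x j.val) := ⟨_, rfl⟩
      have hlive : ∀ j, live (r j) := by
        intro j
        rw [hr]
        unfold live
        rintro ⟨h1, h2⟩
        simp only at h1 h2
        rw [h1, sb_zero] at h2
        exact absurd h2 (by simp)
      refine ⟨univ.image fun j => ι (r j), ?_, ?_⟩
      · refine card_image_le.trans ?_
        rw [card_univ, Fintype.card_fin]
      · intro v
        by_cases hv : ∃ c, κ c = v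
        · obtain ⟨c, rfl⟩ := hv
          have hcov : ∃ j, G0 z (r j) c := by
            rcases c with v | ⟨j, c⟩
            · refine ⟨col k h (π v), ?_⟩
              rw [hr]
              exact ⟨mem_blk.2 rfl, hz0 _⟩
            · by_cases hc : c = !(sb x (j.val + 1))
              · refine ⟨j, ?_⟩
                rw [hr]
                refine Or.inr (Or.inl ⟨rfl, ?_⟩)
                simp only
                rw [hz1, hc, sb_succ]
              · have hc' : c = sb x (j.val + 1) := by
                  revert hc
                  generalize sb x (j.val + 1) = s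
                  revert c s
                  decide
                by_cases hj : j.val + 1 < k
                · refine ⟨⟨j.val + 1, hj⟩, ?_⟩
                  rw [hr]
                  exact Or.inl ⟨rfl, hc'⟩
                · have hj' : j.val + 1 = k := by
                    have := j.isLt
                    omega
                  refine ⟨j, ?_⟩
                  refine Or.inr (Or.inr ⟨hj', ?_⟩)
                  rw [hc', hj']
                  unfold sb
                  rw [pc_top]
                  simpa using hodd
          obtain ⟨j, hj⟩ := hcov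
          exact ⟨_, mem_image_of_mem _ (mem_univ j), r j, rfl, hlive j, Or.inl ⟨c, rfl, hj⟩⟩
        · push Not at hv
          exact ⟨_, mem_image_of_mem _ (mem_univ ⟨0, hk⟩), r ⟨0, hk⟩, rfl, hlive _, Or.inr hv⟩
    · intro hex hcov
      obtain ⟨I, hIk, hI⟩ := hcov
      -- the rows of the cover
      obtain ⟨J, hJ⟩ : ∃ J : Finset (Rw k h), J = univ.filter fun r => ι r ∈ I ∧ live r ∧
          z ((r.1, r.2.1.1), false) = true := ⟨_, rfl⟩
      have hJm : ∀ r ∈ J, ι r ∈ I ∧ live r ∧ z ((r.1, r.2.1.1), false) = true := by
        intro r hr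
        rw [hJ] at hr
        exact (mem_filter.1 hr).2
      have hJI : J.image ι ⊆ I := by
        intro i hi
        obtain ⟨r, h1, rfl⟩ := mem_image.1 hi
        rw [hJ] at h1
        exact (mem_filter.1 h1).2.1
      have hJc : J.card ≤ I.card := by
        rw [← card_image_of_injective J ι.injective]
        exact card_le_card hJI
      have hbase : ∀ v : Fin (k * h), ∃ r ∈ J, v ∈ r.2.1.1 := by
        intro v
        obtain ⟨i, hi, r, h1, h2, ⟨c, h3, h4⟩ | h3⟩ := hI (κ (Sum.inl v))
        · have h5 : c = Sum.inl v := κ.injective h3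
          subst h5
          refine ⟨r, ?_, h4.1⟩
          rw [hJ]
          exact mem_filter.2 ⟨mem_univ _, by rw [h1]; exact hi, h2, h4.2⟩
        · exact absurd rfl (h3 _)
      have h1 : ∑ v : Fin (k * h), (J.filter fun r => v ∈ r.2.1.1).card = J.card * h := by
        have h2 : ∑ v : Fin (k * h), (J.filter fun r => v ∈ r.2.1.1).card =
            ∑ r ∈ J, r.2.1.1.card := by
          simp only [card_filter]
          rw [sum_comm]
          refine sum_congr rfl fun r _ => ?_
          rw [sum_ite_mem, univ_inter, card_eq_sum_ones]
        rw [h2, sum_congr rfl fun r _ => r.2.1.2, sum_const, smul_eq_mul]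
      have h3 : ∀ v ∈ (univ : Finset (Fin (k * h))), 1 ≤ (J.filter fun r => v ∈ r.2.1.1).card := by
        intro v _
        obtain ⟨r, hr, hv⟩ := hbase v
        exact card_pos.2 ⟨r, mem_filter.2 ⟨hr, hv⟩⟩
      have h4 : ∑ _v : Fin (k * h), 1 = k * h := by simp
      have h5 := sum_le_sum h3
      rw [h4, h1] at h5
      have h6 : J.card = k := le_antisymm (hJc.trans hIk) (Nat.le_of_mul_le_mul_right h5 hh)
      have h7 : ∑ _v : Fin (k * h), 1 = ∑ v : Fin (k * h), (J.filter fun r => v ∈ r.2.1.1).card := by
        rw [h4, h1, h6]
      have h8 := (sum_eq_sum_iff_of_le h3).1 h7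
      have huniq : ∀ (v : Fin (k * h)) (r r' : Rw k h), r ∈ J → r' ∈ J → v ∈ r.2.1.1 →
          v ∈ r'.2.1.1 → r = r' := by
        intro v r r' hr hr' hv hv'
        obtain ⟨r₀, hr₀⟩ := card_eq_one.1 (h8 v (mem_univ v)).symm
        have h9 : r ∈ J.filter fun r => v ∈ r.2.1.1 := mem_filter.2 ⟨hr, hv⟩
        have h10 : r' ∈ J.filter fun r => v ∈ r.2.1.1 := mem_filter.2 ⟨hr', hv'⟩
        rw [hr₀, mem_singleton] at h9 h10
        rw [h9, h10]
      have hJI' : J.image ι = I := by
        refine eq_of_subset_of_card_le hJI ?_
        rw [card_image_of_injective J ι.injective, h6]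
        exact hIk
      have h9 : Fintype.card J = Fintype.card (Fin k) := by
        rw [Fintype.card_coe, h6, Fintype.card_fin]
      have e : J ≃ Fin k := Fintype.equivOfCardEq h9
      choose rv hrJ hrv using hbase
      have hcls : ∀ i : Fin k, cls (fun v => e ⟨rv v, hrJ v⟩) i = (e.symm i).1.2.1.1 := by
        intro i
        ext v
        unfold cls
        simp only [mem_filter, mem_univ, true_and]
        constructor
        · intro h11
          rw [← h11, Equiv.symm_apply_apply]
          exact hrv v
        · intro h11
          have h12 := huniq v (rv v) (e.symm i).1 (hrJ v) (e.symm i).2 (hrv v) h11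
          rw [← e.apply_symm_apply i]
          congr 1
          exact Subtype.ext h12
      have hpl : ∀ i : Fin k, (e.symm i).1.2.1.1 = blk π (e.symm i).1.1 := by
        by_contra hne
        push Not at hne
        obtain ⟨i₀, hi₀⟩ := hne
        apply hex
        refine ⟨fun i => (e.symm i).1.1, fun v => e ⟨rv v, hrJ v⟩, fun i => ?_, fun i => ?_,
          i₀, ?_⟩
        · rw [hcls]
          exact (e.symm i).1.2.1.2
        · rw [hcls]
          by_cases hi : (e.symm i).1.2.1.1 = blk π (e.symm i).1.1
          · exact Or.inl hi
          · right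
            have h12 := (hJm _ (e.symm i).2).2.2
            have h13 : (((e.symm i).1.1, (e.symm i).1.2.1.1), false) ∉ Ph π := by
              intro h14
              obtain ⟨⟨j, b⟩, -, h15⟩ := mem_image.1 h14
              have h16 := (Prod.mk.inj h15).1
              have h17 := Prod.mk.inj h16
              exact hi (by rw [← h17.2, h17.1])
            rw [hz] at h12
            unfold fl at h12
            rw [if_neg h13] at h12
            exact h12
        · rw [hcls]
          exact hi₀
      -- each type occurs once
      have hτ : Function.Injective fun i => (e.symm i).1.1 := by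
        intro i i' hii
        simp only at hii
        have h11 : (e.symm i).1.2.1.1 = (e.symm i').1.2.1.1 := by
          rw [hpl i, hpl i', hii]
        have h12 : (e.symm i).1.2.1.1.Nonempty := by
          rw [← card_pos, (e.symm i).1.2.1.2]
          exact hh
        obtain ⟨v, hv⟩ := h12
        have h13 := huniq v _ _ (e.symm i).2 (e.symm i').2 hv (by rw [← h11]; exact hv)
        exact e.symm.injective (Subtype.ext h13)
      have hτs : Function.Surjective fun i => (e.symm i).1.1 := Finite.injective_iff_surjective.1 hτ
      -- the inputs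
      choose u hu using hτs
      obtain ⟨a, ha⟩ : ∃ a : Fin k → Bool, a = fun j => (e.symm (u j)).1.2.2 := ⟨_, rfl⟩
      have hrow : ∀ r ∈ J, r = (r.1, ⟨blk π r.1, card_blk π r.1⟩, a r.1) := by
        intro r hr
        have h11 : e.symm (u r.1) = ⟨r, hr⟩ := by
          have h12 : (fun i => (e.symm i).1.1) (u r.1) = (fun i => (e.symm i).1.1) (e ⟨r, hr⟩) := by
            rw [hu]
            simp
          have h13 := hτ h12
          rw [h13, Equiv.symm_apply_apply]
        have h12 : a r.1 = r.2.2 := by
          rw [ha]
          simp only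
          rw [h11]
        have h13 := hpl (u r.1)
        rw [h11] at h13
        simp only at h13
        refine Prod.ext rfl (Prod.ext (Subtype.ext h13) h12.symm)
      have hlive : ∀ j : Fin k, j.val = 0 → a j = false := by
        intro j hj
        have h12 := (hJm _ (e.symm (u j)).2).2.1
        unfold live at h12
        have h13 : (e.symm (u j)).1.1 = j := hu j
        rw [h13] at h12
        have h14 : ¬ a j = true := by
          intro h15
          apply h12
          refine ⟨hj, ?_⟩
          rw [ha] at h15
          exact h15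
        simpa using h14
      have htag : ∀ (j : Fin k) (c : Bool), ∃ r ∈ J, G0 z r (Sum.inr (j, c)) := by
        intro j c
        obtain ⟨i, hi, r, h11, h12, ⟨c', h13, h14⟩ | h13⟩ := hI (κ (Sum.inr (j, c)))
        · have h15 : c' = Sum.inr (j, c) := κ.injective h13
          subst h15
          refine ⟨r, ?_, h14⟩
          have h11' : ι r = i := h11
          rw [← hJI', ← h11'] at hi
          obtain ⟨r', hr', h16⟩ := mem_image.1 hi
          rw [← ι.injective h16]
          exact hr'
        · exact absurd rfl (h13 _)
      have hstep : ∀ j : Fin k, ∀ (hj : j.val + 1 < k), a ⟨j.val + 1, hj⟩ = xor (a j) (x j) := by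
        intro j hj
        obtain ⟨r, hr, h11⟩ := htag j (!(a ⟨j.val + 1, hj⟩))
        have h12 := hrow r hr
        rcases h11 with ⟨h13, h14⟩ | ⟨h13, h14⟩ | ⟨h13, -⟩
        · exfalso
          have h15 : r.1 = ⟨j.val + 1, hj⟩ := Fin.ext h13.symm
          have h16 : r.2.2 = a r.1 := by
            have := congrArg (fun r : Rw k h => r.2.2) h12
            exact this
          rw [h16, h15] at h14
          revert h14
          generalize a ⟨j.val + 1, hj⟩ = s
          revert s
          decide
        · have h16 : r.2.2 = a r.1 := congrArg (fun r : Rw k h => r.2.2) h12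
          have h17 : r.2.1.1 = blk π r.1 := congrArg (fun r : Rw k h => r.2.1.1) h12
          rw [h16, h17, ← h13, hz1] at h14
          exact Bool.not_inj h14
        · omega
      have hind : ∀ (i : ℕ) (hi : i < k), a ⟨i, hi⟩ = sb x i := by
        intro i
        induction i with
        | zero => intro hi; rw [hlive _ rfl, sb_zero]
        | succ i ih =>
          intro hi
          have h11 := hstep ⟨i, by omega⟩ hi
          have h12 := sb_succ x ⟨i, by omega⟩
          simp only at h11 h12
          rw [h11, h12, ih (by omega)]
      -- the last tag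
      obtain ⟨l, hl⟩ : ∃ l : Fin k, l.val + 1 = k := ⟨⟨k - 1, by omega⟩, by simp; omega⟩
      obtain ⟨r, hr, h11⟩ := htag l false
      have h12 := hrow r hr
      rcases h11 with ⟨h13, -⟩ | ⟨h13, h14⟩ | ⟨-, h14⟩
      · exfalso
        have := r.1.isLt
        omega
      · have h16 : r.2.2 = a r.1 := congrArg (fun r : Rw k h => r.2.2) h12
        have h17 : r.2.1.1 = blk π r.1 := congrArg (fun r : Rw k h => r.2.1.1) h12
        rw [h16, h17, ← h13, hz1] at h14
        have h18 : a l = sb x l.val := hind l.val l.isLt
        rw [h18, ← sb_succ, hl] at h14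
        have h19 : sb x k = true := by
          revert h14
          generalize sb x k = s
          revert s
          decide
        unfold sb at h19
        rw [pc_top] at h19
        simpa using h19
      · exact absurd h14 (by simp)

end SmallDepth
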