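import Mathlib

/-!
# Numerical estimates, row NUMB
-/

open Finset

namespace SmallDepth

private theorem fact_upper : ∀ n : ℕ, 1 ≤ n →
    ((n.factorial : ℕ) : ℝ) * Real.exp 1 ^ n ≤ Real.exp 1 * n * (n : ℝ) ^ n := by
  intro n hn
  induction n, hn using Nat.le_induction with
  | base => simp
  | succ n hn ih =>
    have hn' : (0 : ℝ) < n := by exact_mod_cast hn
    have h1 : ((n : ℝ) / (n + 1)) ^ (n + 1) ≤ Real.exp (-1) := by
      have h2 : (n : ℝ) / (n + 1) ≤ Real.exp (-(1 / ((n : ℝ) + 1))) := by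
        have h3 := Real.add_one_le_exp (-(1 / ((n : ℝ) + 1)))
        refine le_trans (le_of_eq ?_) h3
        field_simp
        ring
      calc ((n : ℝ) / (n + 1)) ^ (n + 1) ≤ Real.exp (-(1 / ((n : ℝ) + 1))) ^ (n + 1) :=
            pow_le_pow_left₀ (by positivity) h2 _
        _ = Real.exp (-1) := by
            rw [← Real.exp_nat_mul]
            congr 1
            push_cast
            field_simp
    have h4 : Real.exp 1 * (n : ℝ) ^ (n + 1) ≤ ((n : ℝ) + 1) ^ (n + 1) := by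
      rw [div_pow, div_le_iff₀ (by positivity)] at h1
      calc Real.exp 1 * (n : ℝ) ^ (n + 1) ≤
            Real.exp 1 * (Real.exp (-1) * ((n : ℝ) + 1) ^ (n + 1)) :=
            mul_le_mul_of_nonneg_left h1 (Real.exp_pos _).le
        _ = ((n : ℝ) + 1) ^ (n + 1) := by
            rw [← mul_assoc, ← Real.exp_add]
            simp
    rw [Nat.factorial_succ]
    push_cast
    calc ((n : ℝ) + 1) * (n.factorial : ℝ) * Real.exp 1 ^ (n + 1)
        = ((n : ℝ) + 1) * Real.exp 1 * ((n.factorial : ℝ) * Real.exp 1 ^ n) := by ring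
      _ ≤ ((n : ℝ) + 1) * Real.exp 1 * (Real.exp 1 * n * (n : ℝ) ^ n) :=
          mul_le_mul_of_nonneg_left ih (by positivity)
      _ = Real.exp 1 * ((n : ℝ) + 1) * (Real.exp 1 * (n : ℝ) ^ (n + 1)) := by ring
      _ ≤ Real.exp 1 * ((n : ℝ) + 1) * ((n : ℝ) + 1) ^ (n + 1) :=
          mul_le_mul_of_nonneg_left h4 (by positivity)

private theorem fact_lower (n : ℕ) :
    (n : ℝ) ^ n ≤ ((n.factorial : ℕ) : ℝ) * Real.exp 1 ^ n := by
  have h1 := Real.pow_div_factorial_le_exp (n : ℝ) (Nat.cast_nonneg n) n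
  have h2 : (0 : ℝ) < n.factorial := by exact_mod_cast n.factorial_pos
  rw [div_le_iff₀ h2] at h1
  refine h1.trans (le_of_eq ?_)
  rw [mul_comm, ← Real.exp_nat_mul, mul_one]

/-- Row NUMB. From `(n / e) ^ n ≤ n!` and `n! ≤ e * n * (n / e) ^ n` (`n ≥ 1`), `e ≤ 3`. -/
theorem num_fact {k h j : ℕ} (hh : 1 ≤ h) (hj : 1 ≤ j) (hjk : j ≤ k) :
    ((h.factorial ^ j * (k * h - j * h).factorial : ℕ) : ℝ) * (k : ℝ) ^ (h * j) ≤
      (k * h).factorial * (3 * k * h) ^ (k + 1) *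
        ((((k - j : ℕ) : ℝ) / k) ^ (k - j)) ^ h := by
  obtain ⟨m, rfl⟩ : ∃ m, k = j + m := Nat.exists_eq_add_of_le hjk
  have e0 : (j + m) * h - j * h = m * h := by rw [add_mul, Nat.add_sub_cancel_left]
  have e1 : j + m - j = m := by omega
  rw [e0, e1]
  obtain ⟨K, hK⟩ : ∃ K : ℝ, K = ((j + m : ℕ) : ℝ) := ⟨_, rfl⟩
  obtain ⟨a, ha⟩ : ∃ a : ℝ, a = (h : ℝ) := ⟨_, rfl⟩
  obtain ⟨M, hM⟩ : ∃ M : ℝ, M = (m : ℝ) := ⟨_, rfl⟩
  obtain ⟨e, he⟩ : ∃ e : ℝ, e = Real.exp 1 := ⟨_, rfl⟩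
  have he0 : 0 < e := by rw [he]; exact Real.exp_pos 1
  have he3 : e ≤ 3 := by
    rw [he]
    exact (Real.exp_one_lt_d9.le).trans (by norm_num)
  have hK1 : 1 ≤ K := by rw [hK]; exact_mod_cast (by omega : 1 ≤ j + m)
  have ha1 : 1 ≤ a := by rw [ha]; exact_mod_cast hh
  have hM0 : 0 ≤ M := by rw [hM]; exact Nat.cast_nonneg m
  have hMK : M ≤ K := by
    rw [hM, hK]
    exact_mod_cast (by omega : m ≤ j + m)
  have hK0 : 0 < K := by linarith
  have ha0 : 0 < a := by linarith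
  have hKa : 1 ≤ 3 * K * a := by nlinarith
  have F1 : ((h.factorial : ℕ) : ℝ) * e ^ h ≤ e * a * a ^ h := by
    have := fact_upper h hh
    rwa [← ha, ← he] at this
  have F2 : (((m * h).factorial : ℕ) : ℝ) * e ^ (m * h) ≤ 3 * K * a * (M * a) ^ (m * h) := by
    rcases Nat.eq_zero_or_pos m with h0 | h0
    · rw [h0]
      simp only [zero_mul, Nat.factorial_zero, Nat.cast_one, pow_zero, mul_one]
      exact hKa
    · have h2 := fact_upper (m * h) (Nat.mul_pos h0 hh)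
      rw [← he] at h2
      push_cast at h2
      rw [← hM, ← ha] at h2
      refine h2.trans (mul_le_mul_of_nonneg_right ?_ (by positivity))
      calc e * (M * a) ≤ 3 * (K * a) := by gcongr
        _ = 3 * K * a := by ring
  have F3 : (K * a) ^ ((j + m) * h) ≤ ((((j + m) * h).factorial : ℕ) : ℝ) * e ^ ((j + m) * h) := by
    have := fact_lower ((j + m) * h)
    rw [← he] at this
    rw [Nat.cast_mul, ← hK, ← ha] at this
    exact this
  have hfac0 : (0 : ℝ) ≤ ((h.factorial : ℕ) : ℝ) := Nat.cast_nonneg _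
  have L1 : ((h.factorial : ℝ) ^ j * ((m * h).factorial : ℝ)) * K ^ (h * j) * e ^ ((j + m) * h) ≤
      (e * a * a ^ h) ^ j * (3 * K * a * (M * a) ^ (m * h)) * K ^ (h * j) := by
    have h1 : ((h.factorial : ℝ) ^ j * ((m * h).factorial : ℝ)) * K ^ (h * j) *
        e ^ ((j + m) * h) = ((h.factorial : ℝ) * e ^ h) ^ j *
          (((m * h).factorial : ℝ) * e ^ (m * h)) * K ^ (h * j) := by
      rw [add_mul, pow_add, mul_pow, ← pow_mul, mul_comm j h]
      ring
    rw [h1]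
    gcongr
  have L2 : (e * a * a ^ h) ^ j * (3 * K * a * (M * a) ^ (m * h)) * K ^ (h * j) ≤
      (K * a) ^ ((j + m) * h) * (3 * K * a) ^ (j + m + 1) * ((M / K) ^ m) ^ h := by
    have h1 : (K * a) ^ ((j + m) * h) * ((M / K) ^ m) ^ h =
        K ^ (h * j) * a ^ (h * j) * (M * a) ^ (m * h) := by
      rw [← pow_mul, div_pow, add_mul, pow_add, mul_pow K a (j * h), mul_pow K a (m * h),
        mul_pow M a (m * h), mul_comm j h]
      have : K ^ (m * h) ≠ 0 := pow_ne_zero _ hK0.ne'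
      field_simp
    have h2 : (e * a) ^ j ≤ (3 * K * a) ^ (j + m) := by
      calc (e * a) ^ j ≤ (3 * K * a) ^ j := by
            refine pow_le_pow_left₀ (by positivity) ?_ _
            nlinarith
        _ ≤ (3 * K * a) ^ (j + m) := pow_le_pow_right₀ hKa (Nat.le_add_right _ _)
    calc (e * a * a ^ h) ^ j * (3 * K * a * (M * a) ^ (m * h)) * K ^ (h * j)
        = (e * a) ^ j * (3 * K * a) * (K ^ (h * j) * a ^ (h * j) * (M * a) ^ (m * h)) := by
          rw [mul_pow (e * a) (a ^ h) j, ← pow_mul]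
          ring
      _ ≤ (3 * K * a) ^ (j + m) * (3 * K * a) *
          (K ^ (h * j) * a ^ (h * j) * (M * a) ^ (m * h)) := by gcongr
      _ = (K * a) ^ ((j + m) * h) * (3 * K * a) ^ (j + m + 1) * ((M / K) ^ m) ^ h := by
          rw [← h1]
          ring
  have L3 : (K * a) ^ ((j + m) * h) * (3 * K * a) ^ (j + m + 1) * ((M / K) ^ m) ^ h ≤
      ((((j + m) * h).factorial : ℝ) * (3 * K * a) ^ (j + m + 1) * ((M / K) ^ m) ^ h) *
        e ^ ((j + m) * h) := by
    calc (K * a) ^ ((j + m) * h) * (3 * K * a) ^ (j + m + 1) * ((M / K) ^ m) ^ h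
        ≤ ((((j + m) * h).factorial : ℝ) * e ^ ((j + m) * h)) * (3 * K * a) ^ (j + m + 1) *
          ((M / K) ^ m) ^ h := by gcongr
      _ = _ := by ring
  have L4 := (L1.trans L2).trans L3
  have L5 := le_of_mul_le_mul_right L4 (by positivity : (0 : ℝ) < e ^ ((j + m) * h))
  rw [Nat.cast_mul, Nat.cast_pow, ← hK, ← ha, ← hM]
  exact L5

end SmallDepth
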