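import Mathlib
import Pool.Agent.Lib.MP_8fffab_lc_MC.Num
open Finset
namespace SmallDepth
open Filter SetCoverMono in
/-- Row NUMC. See `log_choose_le`, `tendsto_aux`, `tendsto_aux2` in `MP_8fffab_lc_MC/Num.lean`. -/
theorem num_choose (c : ℕ) {η : ℝ} (hη : 0 < η) : ∃ k₀ : ℕ, ∀ k ≥ k₀, ∃ n₀ : ℕ, ∀ n ≥ n₀,
    ((n.choose (n / k) : ℝ) * n) ^ c ≤ (1 + η) ^ n := by
  have hδ : 0 < Real.log (1 + η) := Real.log_pos (by linarith)
  obtain ⟨k₁, hk₁⟩ := eventually_atTop.1
    ((tendsto_order.1 (tendsto_aux c)).2 (Real.log (1 + η) / 2) (by positivity))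
  refine ⟨max k₁ 1, fun k hk => ?_⟩
  have hk1 := hk₁ k ((le_max_left _ _).trans hk)
  have hk2 : 1 ≤ k := (le_max_right _ _).trans hk
  obtain ⟨n₁, hn₁⟩ := eventually_atTop.1
    ((tendsto_order.1 (tendsto_aux2 c)).2 (Real.log (1 + η) / 2) (by positivity))
  refine ⟨max n₁ 1, fun n hn => ?_⟩
  have hn1 := hn₁ n ((le_max_left _ _).trans hn)
  have hn3 : 1 ≤ n := (le_max_right _ _).trans hn
  have hnR : (0 : ℝ) < n := by exact_mod_cast hn3
  have hC : (0 : ℝ) < (n.choose (n / k) : ℝ) := by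
    exact_mod_cast Nat.choose_pos (Nat.div_le_self n k)
  rw [← Real.log_le_log_iff (by positivity) (by positivity), Real.log_pow, Real.log_pow,
    Real.log_mul hC.ne' hnR.ne', mul_add]
  have e1 : (c : ℝ) * Real.log (n.choose (n / k)) ≤ n * (Real.log (1 + η) / 2) := by
    have h1 := mul_le_mul_of_nonneg_left (log_choose_le n k (by omega))
      (Nat.cast_nonneg (α := ℝ) c)
    refine h1.trans ?_
    have h2 : (c : ℝ) * (n * ((1 + Real.log k) / k)) = n * (c * ((1 + Real.log k) / k)) := by ring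
    rw [h2]
    exact mul_le_mul_of_nonneg_left hk1.le hnR.le
  have e2 : (c : ℝ) * Real.log n ≤ n * (Real.log (1 + η) / 2) := by
    have h2 : (c : ℝ) * Real.log n = n * (c * (Real.log n / n)) := by
      field_simp
    rw [h2]
    exact mul_le_mul_of_nonneg_left hn1.le hnR.le
  linarith

end SmallDepth
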