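import Mathlib
open Finset
namespace SmallDepth

/-- Row NUMD. With `h = n / k - 2` and `N = k h`: `C(N + 1, h + 1) ≥ C(N, h) (1 + (k - 1) h / (h + 1))`
and once more; `k ≥ 20`. -/
theorem num_rows {k : ℕ} (hk : 20 ≤ k) : ∃ n₀ : ℕ, ∀ n ≥ n₀, 1 ≤ n / k - 2 ∧
    k * (n / k - 2) + 2 * k ≤ n ∧
    2 * k * (k * (n / k - 2)).choose (n / k - 2) ≤ n.choose (n / k) := by
  refine ⟨3 * k, fun n hn => ?_⟩
  have h3 : 3 ≤ n / k := (Nat.le_div_iff_mul_le (by omega)).2 hn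
  obtain ⟨h, hh⟩ : ∃ h, n / k = h + 2 := ⟨n / k - 2, by omega⟩
  have hk2 : k * (h + 2) ≤ n := by
    rw [← hh]
    exact Nat.mul_div_le n k
  rw [hh, Nat.add_sub_cancel]
  have hh1 : 1 ≤ h := by omega
  have hkn : k * h + 2 * k ≤ n := by
    rw [mul_add, mul_comm k 2] at hk2
    exact hk2
  refine ⟨hh1, hkn, ?_⟩
  have e1 := Nat.add_one_mul_choose_eq (k * h) h
  have e2 := Nat.add_one_mul_choose_eq (k * h + 1) (h + 1)
  have e3 : 2 * k * ((h + 1) * (h + 2)) ≤ (k * h + 1) * (k * h + 2) := by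
    obtain ⟨c, rfl⟩ : ∃ c, h = c + 1 := ⟨h - 1, by omega⟩
    obtain ⟨d, rfl⟩ : ∃ d, k = d + 20 := ⟨k - 20, by omega⟩
    ring_nf
    nlinarith [Nat.zero_le (c * d), Nat.zero_le (c ^ 2 * d), Nat.zero_le (c ^ 2 * d ^ 2),
      Nat.zero_le (c * d ^ 2), Nat.zero_le (c ^ 2), Nat.zero_le (d ^ 2)]
  have e4 : 2 * k * (k * h).choose h * ((h + 1) * (h + 2)) ≤
      (k * h + 2).choose (h + 2) * ((h + 1) * (h + 2)) := by
    calc 2 * k * (k * h).choose h * ((h + 1) * (h + 2))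
        = (k * h).choose h * (2 * k * ((h + 1) * (h + 2))) := by ring
      _ ≤ (k * h).choose h * ((k * h + 1) * (k * h + 2)) := Nat.mul_le_mul_left _ e3
      _ = (k * h + 1 + 1) * ((k * h + 1) * (k * h).choose h) := by ring
      _ = (k * h + 1 + 1) * ((k * h + 1).choose (h + 1) * (h + 1)) := by rw [e1]
      _ = ((k * h + 1 + 1) * (k * h + 1).choose (h + 1)) * (h + 1) := by ring
      _ = (k * h + 1 + 1).choose (h + 1 + 1) * (h + 1 + 1) * (h + 1) := by rw [e2]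
      _ = (k * h + 2).choose (h + 2) * ((h + 1) * (h + 2)) := by ring
  have e5 := Nat.le_of_mul_le_mul_right e4 (by positivity)
  exact e5.trans (Nat.choose_le_choose _ (by omega))

end SmallDepth
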