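import Pool.Agent.Lib.MP_8fffab_lc_AC.NumA
import Pool.Agent.Lib.MP_8fffab_lc_AC.NumB
import Pool.Agent.Lib.MP_8fffab_lc_AC.NumC
import Pool.Agent.Lib.MP_8fffab_lc_AC.NumD

/-!
# Numerical estimates
-/
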