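import Pool.Agent.Lib.MP_8fffab_lc_AC.Param
import Pool.Agent.Lib.MP_8fffab_lc_AC.Num

/-!
# The main inequality
-/

open Finset

namespace SmallDepth

theorem errJ_le {k h j A : ℕ} {Q z ε₁ : ℝ} (hk : 0 < k) (hh : 1 ≤ h) (hA : 1 ≤ A) (hz : 0 < z)
    (hz1 : z ≤ 1) (hQ : (1 / k : ℝ) ^ h * z ^ 3 ≤ Q) (hε0 : 0 ≤ ε₁)
    (hε : ((2 : ℝ) ^ (k * h)) ^ k * ε₁ ≤ 1) (h1 : 13 * k / 32 < j) (h2 : j ≤ 2 * (13 * k / 32))
    (h3 : j ≤ k) :
    errJ k h Q A ε₁ j ≤ (k * h).factorial * ((3 * k * h) ^ (k + 1) * (1 / 1.362) ^ (k * h) *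
      (z⁻¹) ^ (3 * k) * ((A : ℝ) ^ k + 1)) := by
  have hk' : (0 : ℝ) < k := by exact_mod_cast hk
  have hp : 0 < (1 / k : ℝ) ^ h * z ^ 3 := by positivity
  have hQ0 : 0 < Q := hp.trans_le hQ
  have e1 : (Q ^ j)⁻¹ ≤ (k : ℝ) ^ (h * j) * (z⁻¹) ^ (3 * k) := by
    have h4 : ((1 / k : ℝ) ^ h * z ^ 3) ^ j ≤ Q ^ j := pow_le_pow_left₀ hp.le hQ j
    have h5 : (Q ^ j)⁻¹ ≤ (((1 / k : ℝ) ^ h * z ^ 3) ^ j)⁻¹ :=
      inv_anti₀ (pow_pos hp j) h4
    refine h5.trans ?_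
    have h6 : (((1 / k : ℝ) ^ h * z ^ 3) ^ j)⁻¹ = (k : ℝ) ^ (h * j) * (z⁻¹) ^ (3 * j) := by
      rw [mul_pow, mul_inv, ← pow_mul, ← pow_mul, one_div, inv_pow, inv_inv, inv_pow]
    rw [h6]
    refine mul_le_mul_of_nonneg_left ?_ (by positivity)
    exact pow_le_pow_right₀ ((one_le_inv₀ hz).2 hz1) (by omega)
  have e2 : (A : ℝ) ^ j + (2 ^ (k * h)) ^ j * ε₁ ≤ (A : ℝ) ^ k + 1 := by
    have hA' : (1 : ℝ) ≤ A := by exact_mod_cast hA
    have h4 : (A : ℝ) ^ j ≤ (A : ℝ) ^ k := pow_le_pow_right₀ hA' h3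
    have h5 : ((2 : ℝ) ^ (k * h)) ^ j ≤ (2 ^ (k * h)) ^ k :=
      pow_le_pow_right₀ (one_le_pow₀ (by norm_num)) h3
    have h6 := mul_le_mul_of_nonneg_right h5 hε0
    linarith
  have e3 := num_kappa h1 h2 h3
  have e4 := num_fact hh (by omega) h3
  unfold errJ
  calc ((h.factorial ^ j * (k * h - j * h).factorial : ℕ) : ℝ) * ((Q ^ j)⁻¹ *
        ((A : ℝ) ^ j + (2 ^ (k * h)) ^ j * ε₁))
      ≤ ((h.factorial ^ j * (k * h - j * h).factorial : ℕ) : ℝ) *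
        (((k : ℝ) ^ (h * j) * (z⁻¹) ^ (3 * k)) * ((A : ℝ) ^ k + 1)) := by
        refine mul_le_mul_of_nonneg_left ?_ (Nat.cast_nonneg _)
        refine mul_le_mul e1 e2 ?_ (by positivity)
        have : (0 : ℝ) ≤ (2 ^ (k * h)) ^ j * ε₁ := by positivity
        positivity
    _ = (((h.factorial ^ j * (k * h - j * h).factorial : ℕ) : ℝ) * (k : ℝ) ^ (h * j)) *
        ((z⁻¹) ^ (3 * k) * ((A : ℝ) ^ k + 1)) := by ring
    _ ≤ ((k * h).factorial * (3 * k * h) ^ (k + 1) *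
        ((((k - j : ℕ) : ℝ) / k) ^ (k - j)) ^ h) * ((z⁻¹) ^ (3 * k) * ((A : ℝ) ^ k + 1)) := by
        refine mul_le_mul_of_nonneg_right e4 ?_
        have : 0 < z⁻¹ := inv_pos.2 hz
        positivity
    _ ≤ ((k * h).factorial * (3 * k * h) ^ (k + 1) *
        ((1 / 1.362) ^ k) ^ h) * ((z⁻¹) ^ (3 * k) * ((A : ℝ) ^ k + 1)) := by
        refine mul_le_mul_of_nonneg_right ?_ ?_
        · refine mul_le_mul_of_nonneg_left ?_ (by positivity)
          exact pow_le_pow_left₀ (by positivity) e3 h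
        · have : 0 < z⁻¹ := inv_pos.2 hz
          positivity
    _ = _ := by rw [← pow_mul]; ring

theorem one_le_asize {K m f : ℕ} : 1 ≤ asize K (2 ^ m) f := by
  unfold asize
  have : 1 ≤ (2 ^ m + 1) ^ ((K + 1) ^ K) := Nat.one_le_pow _ _ (Nat.succ_pos _)
  omega

theorem ineq {n M f s m k h l : ℕ} (hk : 20 ≤ k) (hh : 1 ≤ h)
    (hC : HasCircuit M n k (l + 1) f s) (hn : k * h + 2 * k ≤ n)
    (hM : 2 * k * (k * h).choose h ≤ M) {y : ℝ} (hy : 0 < y) (hm : 2 ≤ m)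
    (hym : y ≤ (1 / 4) ^ m) (hyf : y * (f * m) ≤ 2)
    (hε : ((2 : ℝ) ^ (k * h)) ^ k * (s * (2 * (8 * y) ^ m)) ≤ 1) :
    (1 / 4 : ℝ) ^ k ≤ 2 ^ k * (k : ℝ) ^ k * (2 * (y ^ 2) ^ (l + 1)) +
      s * (4 ^ k * ((3 * k * h) ^ (k + 1) * (1 / 1.362) ^ (k * h) *
      (((y ^ 2) ^ (l + 1))⁻¹) ^ (3 * k) * ((asize (2 * k) (2 ^ m) f : ℝ) ^ k + 1))) := by
  obtain ⟨C, o, w, θ', hs, hCd, hcov⟩ := hC
  have hk0 : 0 < k := by omega
  have hk' : (20 : ℝ) ≤ k := by exact_mod_cast hk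
  have hm0 : (1 / 4 : ℝ) ^ m ≤ (1 / 4) ^ 2 :=
    pow_le_pow_of_le_one (by norm_num) (by norm_num) hm
  have hy4 : y ≤ 1 / 16 := hym.trans (hm0.trans (by norm_num))
  have hy20 : 0 < y ^ 2 := by positivity
  have hy2 : y ^ 2 ≤ y / 16 := by nlinarith
  set z := (y ^ 2) ^ (l + 1) with hz
  have hz0 : 0 < z := by positivity
  have hzy : z ≤ y ^ 2 := by
    calc z ≤ (y ^ 2) ^ 1 := pow_le_pow_of_le_one hy20.le (by linarith) (by omega)
      _ = y ^ 2 := pow_one _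
  have hkh : (1 / k : ℝ) ^ h ≤ 1 / 2 := by
    calc (1 / k : ℝ) ^ h ≤ (1 / k : ℝ) ^ 1 := by
          refine pow_le_pow_of_le_one (by positivity) ?_ hh
          rw [div_le_one (by linarith)]
          linarith
      _ ≤ 1 / 2 := by
          rw [pow_one]
          exact one_div_le_one_div_of_le (by norm_num) (by linarith)
  have hkh0 : 0 < (1 / k : ℝ) ^ h := by positivity
  set p := (1 / k : ℝ) ^ h * z with hp
  have hp0 : 0 < p := by positivity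
  have hp1 : p ≤ z / 2 := by
    rw [hp]
    nlinarith
  have hpy : p ≤ y / 2 := by linarith
  have hp4 : p ≤ 1 / 4 := by linarith
  have hkp : (k : ℝ) ^ h * p = z := by
    rw [hp, ← mul_assoc, ← mul_pow, mul_one_div_cancel (by linarith), one_pow, one_mul]
  have hpf := pb_false (l := l) hy hy4 hp0 hp4
  have hpt := pb_true (l := l) hy hy4 hp0 hp4
  have hkpf : (k : ℝ) ^ h * pb y p l false ≤ 2 * z := by
    calc (k : ℝ) ^ h * pb y p l false ≤ (k : ℝ) ^ h * (2 * p) :=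
          mul_le_mul_of_nonneg_left hpf (by positivity)
      _ = 2 * z := by rw [← hkp]; ring
  set E : ℝ := (k * h).factorial * ((3 * k * h) ^ (k + 1) * (1 / 1.362) ^ (k * h) *
      (z⁻¹) ^ (3 * k) * ((asize (2 * k) (2 ^ m) f : ℝ) ^ k + 1)) with hE
  have hzi : 0 < z⁻¹ := inv_pos.2 hz0
  have hE0 : 0 ≤ E := by positivity
  have hε0 : 0 ≤ (s : ℝ) * (2 * (8 * y) ^ m) := by positivity
  have h1 := core (n := n) (M := M) (f := f) (s := s) (o := o) (d := l + 1) (m := m)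
    (W := 13 * k / 32) hk0 (by omega) (C := C) (w := w) (θ' := θ') hs hCd hcov hn hM (by omega)
    (by omega) (qb := qb y p l) (pb := pb y p l) (fun b => qb_pos hy hp0 b)
    (fun b => (qb_le hy hy4 hp0 hp4 b).1) (fun b => pb_nonneg hy hy4 hp0 hp4 b)
    (fun b => (qb_le hy hy4 hp0 hp4 b).2) (by linarith) (ε₁ := s * (2 * (8 * y) ^ m))
    (fun a ha => (good_bound ha hm (fun i hi => (hCd i hi).2) hy hym hyf hp0 hpy l).trans (by
      refine mul_le_mul_of_nonneg_right ?_ (by positivity)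
      exact_mod_cast hs)) (E := E) hE0 (by
      intro j hj1 hj2 hj3
      refine errJ_le hk0 hh one_le_asize hz0 (by linarith) ?_ hε0 hε hj1 hj2 hj3
      refine le_trans ?_ (qb_mul (l := l) hy hy4 hp0)
      rw [hp, ← hz]
      have : 0 ≤ (1 / k : ℝ) ^ h * z ^ 3 := by positivity
      nlinarith)
  have hfac : (0 : ℝ) < (k * h).factorial := by exact_mod_cast Nat.factorial_pos _
  have h2 : (1 / 4 : ℝ) ^ k ≤ (1 - pb y p l false) ^ k * (1 - pb y p l true) ^ k := by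
    have h3 : (1 / 2 : ℝ) ^ k ≤ (1 - pb y p l false) ^ k :=
      pow_le_pow_left₀ (by norm_num) (by linarith) k
    have h4 : (1 / 2 : ℝ) ^ k ≤ (1 - pb y p l true) ^ k :=
      pow_le_pow_left₀ (by norm_num) (by linarith) k
    calc (1 / 4 : ℝ) ^ k = (1 / 2) ^ k * (1 / 2) ^ k := by rw [← mul_pow]; norm_num
      _ ≤ _ := mul_le_mul h3 h4 (by positivity) ((by positivity : (0 : ℝ) ≤ (1 / 2) ^ k).trans h3)
  have h5 : (k * h).factorial * ((1 / 4 : ℝ) ^ k) ≤ (k * h).factorial * (2 ^ k * (k : ℝ) ^ k *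
      (2 * z) + s * (4 ^ k * ((3 * k * h) ^ (k + 1) * (1 / 1.362) ^ (k * h) *
      (z⁻¹) ^ (3 * k) * ((asize (2 * k) (2 ^ m) f : ℝ) ^ k + 1)))) := by
    calc (k * h).factorial * ((1 / 4 : ℝ) ^ k)
        ≤ (k * h).factorial * ((1 - pb y p l false) ^ k * (1 - pb y p l true) ^ k) :=
          mul_le_mul_of_nonneg_left h2 hfac.le
      _ ≤ _ := h1
      _ ≤ (k * h).factorial * (2 ^ k * (k : ℝ) ^ k * (2 * z)) + s * (4 ^ k * E) := by
          refine add_le_add_left ?_ _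
          refine mul_le_mul_of_nonneg_left ?_ hfac.le
          exact mul_le_mul_of_nonneg_left hkpf (by positivity)
      _ = _ := by rw [hE]; ring
  exact le_of_mul_le_mul_left h5 hfac

end SmallDepth
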