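import Pool.Agent.Lib.MP_8fffab_lc_AC.DT

/-!
# A switching lemma

A disjunction of terms with at most `c` literals, hit by a random restriction with very few free
coordinates, has a shallow decision tree.
-/

open Finset

namespace SmallDepth

variable {Ω : Type} [DecidableEq Ω] [Fintype Ω]

/-- The expectation of `Λ ^ depth` of the restricted function. -/
noncomputable def Psi (q p : Ω → ℝ) (Λ : ℝ) (g : (Ω → Bool) → Prop) : ℝ :=
  Ex q p (fun ρ => Λ ^ dt (res ρ g))

/-- The parameters of a random restriction. -/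
structure Par (q p : Ω → ℝ) (Λ : ℝ) : Prop where
  q0 : ∀ S, 0 ≤ q S
  p0 : ∀ S, 0 ≤ p S
  qp : ∀ S, q S + p S ≤ 1
  L1 : 1 ≤ Λ

variable {q p : Ω → ℝ} {Λ : ℝ}

omit [DecidableEq Ω] in
theorem Psi_congr {g g' : (Ω → Bool) → Prop} [DecidableEq Ω] (h : ∀ x, g x ↔ g' x) :
    Psi q p Λ g = Psi q p Λ g' := by
  rw [show g = g' from funext fun x => propext (h x)]

theorem Psi_not (g : (Ω → Bool) → Prop) : Psi q p Λ (fun x => ¬ g x) = Psi q p Λ g := by
  unfold Psi
  refine Ex_congr fun ρ => ?_
  have : res ρ (fun x => ¬ g x) = fun x => ¬ res ρ g x := rfl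
  rw [this, dt_not]

theorem Psi_const {g : (Ω → Bool) → Prop} (h : ∀ x y, g x ↔ g y) : Psi q p Λ g = 1 := by
  unfold Psi
  rw [← Ex_one (Ω := Ω) (q := q) (p := p)]
  refine Ex_congr fun ρ => ?_
  have h1 : DT 0 (res ρ g) := DT.const 0 _ fun x y => h _ _
  have h2 := dt_le h1
  rw [Nat.le_zero.1 h2, pow_zero]

/-- Conditioning on one coordinate. -/
theorem Psi_step (P : Par q p Λ) (g : (Ω → Bool) → Prop) (S : Ω) :
    Psi q p Λ g ≤
      p S * Psi q p Λ (fun x => g (Function.update x S true)) +
      (1 - q S - p S) * Psi q p Λ (fun x => g (Function.update x S false)) +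
      q S * Λ * (Psi q p Λ (fun x => g (Function.update x S true)) +
        Psi q p Λ (fun x => g (Function.update x S false))) := by
  have hL : 0 ≤ Λ := zero_le_one.trans P.L1
  have h1 : ∀ b : Bool, Ex q p (fun ρ => Λ ^ dt (res (Function.update ρ S (some b)) g)) =
      Psi q p Λ (fun x => g (Function.update x S b)) := by
    intro b
    unfold Psi
    refine Ex_congr fun ρ => ?_
    congr 2
    funext x
    unfold res
    rw [ap_update]
  have h2 : Ex q p (fun ρ => Λ ^ dt (res (Function.update ρ S none) g)) ≤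
      Λ * (Psi q p Λ (fun x => g (Function.update x S true)) +
        Psi q p Λ (fun x => g (Function.update x S false))) := by
    unfold Psi
    rw [← Ex_add, ← Ex_mul]
    refine Ex_mono P.q0 P.p0 P.qp fun ρ => ?_
    set g₁ := res ρ (fun x => g (Function.update x S true)) with hg₁
    set g₀ := res ρ (fun x => g (Function.update x S false)) with hg₀
    have h3 : DT (max (dt g₁) (dt g₀) + 1) (res (Function.update ρ S none) g) := by
      refine DT.node _ _ S fun b => ?_
      have h4 : (fun x => res (Function.update ρ S none) g (Function.update x S b)) =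
          res ρ (fun x => g (Function.update x S b)) := by
        funext x
        unfold res
        rw [ap_update']
      rw [h4]
      cases b
      · exact (dt_spec g₀).mono (le_max_right _ _)
      · exact (dt_spec g₁).mono (le_max_left _ _)
    have h5 := dt_le h3
    calc Λ ^ dt (res (Function.update ρ S none) g) ≤ Λ ^ (max (dt g₁) (dt g₀) + 1) :=
          pow_le_pow_right₀ P.L1 h5
      _ = Λ * Λ ^ max (dt g₁) (dt g₀) := by ring
      _ ≤ Λ * (Λ ^ dt g₁ + Λ ^ dt g₀) := by
          refine mul_le_mul_of_nonneg_left ?_ hL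
          rcases le_total (dt g₁) (dt g₀) with h | h
          · rw [max_eq_right h]
            linarith [pow_nonneg hL (dt g₁)]
          · rw [max_eq_left h]
            linarith [pow_nonneg hL (dt g₀)]
  unfold Psi at h1 h2 ⊢
  rw [Ex_update' S, h1, h1]
  nlinarith [mul_le_mul_of_nonneg_left h2 (P.q0 S)]

/-- Functions with a decision tree. -/
theorem Psi_DT (P : Par q p Λ) {B : ℝ} (hB0 : 0 ≤ B) (hB : ∀ S, q S * Λ ≤ B) {D : ℕ}
    {g : (Ω → Bool) → Prop} (h : DT D g) : Psi q p Λ g ≤ (1 + 2 * B) ^ D := by
  induction h with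
  | const D g h =>
    rw [Psi_const h]
    exact one_le_pow₀ (by linarith)
  | node D g S h ih =>
    refine (Psi_step P g S).trans ?_
    have h1 := ih true
    have h0 := ih false
    have hBD : 0 ≤ (1 + 2 * B) ^ D := by positivity
    have hp := P.p0 S
    have hq := P.q0 S
    have hqp := P.qp S
    have hqL : 0 ≤ q S * Λ := mul_nonneg hq (zero_le_one.trans P.L1)
    have hBS := hB S
    calc _ ≤ p S * (1 + 2 * B) ^ D + (1 - q S - p S) * (1 + 2 * B) ^ D +
        q S * Λ * ((1 + 2 * B) ^ D + (1 + 2 * B) ^ D) := by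
          gcongr
          linarith
      _ = (1 - q S + 2 * (q S * Λ)) * (1 + 2 * B) ^ D := by ring
      _ ≤ (1 + 2 * B) * (1 + 2 * B) ^ D := by
          refine mul_le_mul_of_nonneg_right (by linarith) hBD
      _ = _ := by ring

/-- A term: a set of coordinates and the values which are required there. -/
abbrev Term (Ω : Type) := Finset Ω × (Ω → Bool)

/-- The disjunction of the terms in the list. -/
def ev (L : List (Term Ω)) (x : Ω → Bool) : Prop := ∃ C ∈ L, ∀ S ∈ C.1, x S = C.2 S

/-- The terms after fixing the coordinate `S`. -/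
def restr (S : Ω) (b : Bool) (L : List (Term Ω)) : List (Term Ω) :=
  (L.filter fun C => decide (S ∈ C.1 → C.2 S = b)).map fun C => (C.1.erase S, C.2)

omit [Fintype Ω] in
theorem length_restr (S : Ω) (b : Bool) (L : List (Term Ω)) :
    (restr S b L).length ≤ L.length := by
  unfold restr
  rw [List.length_map]
  exact List.length_filter_le _ _

omit [Fintype Ω] in
theorem card_restr {S : Ω} {b : Bool} {L : List (Term Ω)} {c : ℕ} (h : ∀ C ∈ L, C.1.card ≤ c) :
    ∀ C ∈ restr S b L, C.1.card ≤ c := by
  intro C hC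
  unfold restr at hC
  rw [List.mem_map] at hC
  obtain ⟨C', hC', rfl⟩ := hC
  exact (card_le_card (erase_subset _ _)).trans (h _ (List.mem_filter.1 hC').1)

omit [Fintype Ω] in
theorem ev_restr (S : Ω) (b : Bool) (L : List (Term Ω)) (x : Ω → Bool) :
    ev (restr S b L) x ↔ ev L (Function.update x S b) := by
  unfold ev restr
  constructor
  · rintro ⟨C, hC, hx⟩
    rw [List.mem_map] at hC
    obtain ⟨C', hC', rfl⟩ := hC
    rw [List.mem_filter] at hC'
    refine ⟨C', hC'.1, fun T hT => ?_⟩
    by_cases hTS : T = S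
    · subst hTS
      rw [Function.update_self]
      exact ((of_decide_eq_true hC'.2) hT).symm
    · rw [Function.update_of_ne hTS]
      exact hx T (mem_erase.2 ⟨hTS, hT⟩)
  · rintro ⟨C, hC, hx⟩
    refine ⟨(C.1.erase S, C.2), ?_, ?_⟩
    · rw [List.mem_map]
      refine ⟨C, ?_, rfl⟩
      rw [List.mem_filter]
      refine ⟨hC, decide_eq_true fun hS => ?_⟩
      have := hx S hS
      rw [Function.update_self] at this
      exact this.symm
    · intro T hT
      have h1 := hx T (mem_of_mem_erase hT)
      rwa [Function.update_of_ne (ne_of_mem_erase hT)] at h1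

/-- The numbers `u` control the switching lemma for terms with at most `c` literals. -/
def Ctl (q p : Ω → ℝ) (Λ : ℝ) (c : ℕ) (u : ℕ → ℝ) : Prop :=
  u 0 ≤ 1 / 2 ∧ (∀ t ≤ c, 0 ≤ u t) ∧ ∀ t < c, ∀ S, u (t + 1) + 2 * (q S * Λ) ≤ p S * u t ∧
    u (t + 1) + 2 * (q S * Λ) ≤ (1 - q S - p S) * u t

/-- The switching lemma. -/
theorem Psi_ev (P : Par q p Λ) {c : ℕ} {u : ℕ → ℝ} (hu : Ctl q p Λ c u) (L : List (Term Ω))
    (hL : ∀ C ∈ L, C.1.card ≤ c) : Psi q p Λ (ev L) ≤ 2 := by
  obtain ⟨hu0, hun, hus⟩ := hu
  induction hN : L.length using Nat.strong_induction_on generalizing L with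
  | _ N ihN =>
  rcases L with _ | ⟨⟨T, a⟩, L'⟩
  · rw [Psi_const]
    · norm_num
    · intro x y; simp [ev]
  · simp only [List.length_cons] at hN
    have hL' : ∀ C ∈ L', C.1.card ≤ c := fun C hC => hL C (List.mem_cons_of_mem _ hC)
    have hTc : T.card ≤ c := hL (T, a) List.mem_cons_self
    -- inner induction on the first term
    have inner : ∀ t : ℕ, ∀ (T : Finset Ω) (L' : List (Term Ω)), T.card = t → t ≤ c →
        (∀ C ∈ L', C.1.card ≤ c) → L'.length < N →
        Psi q p Λ (ev ((T, a) :: L')) ≤ 2 * (1 - u t) := by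
      intro t
      induction t with
      | zero =>
        intro T L' hT _ _ _
        rw [card_eq_zero] at hT
        subst hT
        rw [Psi_const]
        · linarith
        · intro x y
          have h1 : ∀ z : Ω → Bool, ev ((∅, a) :: L') z := fun z =>
            ⟨(∅, a), List.mem_cons_self, by simp⟩
          simp [h1]
      | succ t iht =>
        intro T L' hT htc hL' hlen
        obtain ⟨S, hS⟩ : T.Nonempty := card_pos.1 (by omega)
        have hsat : Psi q p Λ (fun x => ev ((T, a) :: L') (Function.update x S (a S))) ≤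
            2 * (1 - u t) := by
          have h1 : ∀ x, ev ((T, a) :: L') (Function.update x S (a S)) ↔
              ev ((T.erase S, a) :: restr S (a S) L') x := by
            intro x
            rw [← ev_restr]
            have : restr S (a S) ((T, a) :: L') = (T.erase S, a) :: restr S (a S) L' := by
              unfold restr
              rw [List.filter_cons_of_pos (by simp), List.map_cons]
            rw [this]
          rw [Psi_congr h1]
          refine iht _ _ ?_ (by omega) (card_restr hL') ((length_restr _ _ _).trans_lt hlen)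
          rw [card_erase_of_mem hS, hT]
          rfl
        have hfal : Psi q p Λ (fun x => ev ((T, a) :: L') (Function.update x S (!(a S)))) ≤ 2 := by
          have h1 : ∀ x, ev ((T, a) :: L') (Function.update x S (!(a S))) ↔
              ev (restr S (!(a S)) L') x := by
            intro x
            rw [← ev_restr]
            have : restr S (!(a S)) ((T, a) :: L') = restr S (!(a S)) L' := by
              unfold restr
              rw [List.filter_cons_of_neg (by simp [hS])]
            rw [this]
          rw [Psi_congr h1]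
          exact ihN _ ((length_restr _ _ _).trans_lt hlen) _ (card_restr hL') rfl
        have hut := hun t (by omega)
        have hut' := hun (t + 1) htc
        have hst := hus t (by omega) S
        have hstep := Psi_step P (ev ((T, a) :: L')) S
        have hq0 := P.q0 S
        have hqL : 0 ≤ q S * Λ := mul_nonneg hq0 (zero_le_one.trans P.L1)
        have fin : ∀ s f A B : ℝ, u (t + 1) + 2 * (q S * Λ) ≤ s * u t → 0 ≤ s → 0 ≤ f →
            s + f = 1 - q S → A ≤ 2 * (1 - u t) → B ≤ 2 →
            s * A + f * B + q S * Λ * (A + B) ≤ 2 * (1 - u (t + 1)) := by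
          intro s f A B hs hs0 hf hsf hA hB
          have e1 : s * A ≤ s * (2 * (1 - u t)) := mul_le_mul_of_nonneg_left hA hs0
          have e2 : f * B ≤ f * 2 := mul_le_mul_of_nonneg_left hB hf
          have e3 : q S * Λ * (A + B) ≤ q S * Λ * 4 := by
            refine mul_le_mul_of_nonneg_left ?_ hqL
            linarith
          nlinarith
        have hf0 : 0 ≤ 1 - q S - p S := by linarith [P.qp S]
        rcases hb : a S with _ | _
        · rw [hb] at hsat hfal
          have := fin (1 - q S - p S) (p S) _ _ hst.2 hf0 (P.p0 S) (by ring) hsat hfal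
          refine hstep.trans ?_
          simp only [Bool.not_false] at this
          linarith
        · rw [hb] at hsat hfal
          have := fin (p S) (1 - q S - p S) _ _ hst.1 (P.p0 S) hf0 (by ring) hsat hfal
          refine hstep.trans ?_
          simp only [Bool.not_true] at this
          linarith
    have h1 := inner T.card T L' rfl hTc hL' (by omega)
    have h2 := hun T.card hTc
    linarith

/-- The switching lemma for functions with certificates of size `c` for the value true. -/
theorem Psi_cert (P : Par q p Λ) {c : ℕ} {u : ℕ → ℝ} (hu : Ctl q p Λ c u)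
    {g : (Ω → Bool) → Prop}
    (hg : ∀ x, g x → ∃ T : Finset Ω, T.card ≤ c ∧ ∀ y, (∀ S ∈ T, y S = x S) → g y) :
    Psi q p Λ g ≤ 2 := by
  classical
  let L : List (Term Ω) := (univ.filter fun C : Term Ω => C.1.card ≤ c ∧
    ∀ y, (∀ S ∈ C.1, y S = C.2 S) → g y).toList
  have hL : ∀ C, C ∈ L ↔ C.1.card ≤ c ∧ ∀ y, (∀ S ∈ C.1, y S = C.2 S) → g y := by
    intro C
    simp [L]
  have h1 : ∀ x, g x ↔ ev L x := by
    intro x
    constructor
    · intro hx
      obtain ⟨T, hT, hT'⟩ := hg x hx
      exact ⟨(T, x), (hL _).2 ⟨hT, hT'⟩, fun _ _ => rfl⟩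
    · rintro ⟨C, hC, hx⟩
      exact ((hL C).1 hC).2 x hx
  rw [Psi_congr h1]
  exact Psi_ev P hu L fun C hC => ((hL C).1 hC).1

/-- The same for functions such that `g` or its negation is a disjunction of functions with
shallow decision trees. -/
theorem Psi_or (P : Par q p Λ) {c : ℕ} {u : ℕ → ℝ} (hu : Ctl q p Λ c u) {α : Type*} {A : Set α}
    {v : α → (Ω → Bool) → Prop} (hv : ∀ l ∈ A, DT c (v l)) {g : (Ω → Bool) → Prop}
    (hg : (∀ x, g x ↔ ∃ l ∈ A, v l x) ∨ (∀ x, g x ↔ ∀ l ∈ A, v l x)) :
    Psi q p Λ g ≤ 2 := by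
  rcases hg with hg | hg
  · refine Psi_cert P hu fun x hx => ?_
    obtain ⟨l, hl, hlx⟩ := (hg x).1 hx
    obtain ⟨T, hT, hT'⟩ := (hv l hl).cert x
    exact ⟨T, hT, fun y hy => (hg y).2 ⟨l, hl, (hT' y hy).2 hlx⟩⟩
  · rw [← Psi_not]
    refine Psi_cert P hu fun x hx => ?_
    rw [hg] at hx
    push Not at hx
    obtain ⟨l, hl, hlx⟩ := hx
    obtain ⟨T, hT, hT'⟩ := (hv l hl).cert x
    refine ⟨T, hT, fun y hy hy' => ?_⟩
    exact hlx ((hT' y hy).1 ((hg y).1 hy' l hl))

/-- Markov's inequality. -/
theorem prob_deep (P : Par q p Λ) {g : (Ω → Bool) → Prop} {B : ℝ} (hB : Psi q p Λ g ≤ B)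
    (m : ℕ) : Ex q p (fun ρ => ind (¬ DT m (res ρ g))) ≤ B / Λ ^ m := by
  have hL : 0 < Λ := zero_lt_one.trans_le P.L1
  rw [le_div_iff₀ (pow_pos hL m), mul_comm, ← Ex_mul]
  refine le_trans (Ex_mono P.q0 P.p0 P.qp fun ρ => ?_) hB
  by_cases h : DT m (res ρ g)
  · rw [ind_false (not_not.2 h), mul_zero]
    positivity
  · rw [ind_true h, mul_one]
    refine pow_le_pow_right₀ P.L1 ?_
    by_contra hlt
    push Not at hlt
    exact h ((dt_spec _).mono hlt.le)

end SmallDepth
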