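import Pool.Agent.Lib.MP_8fffab_lc_AC.Defs
import Pool.Agent.Lib.MP_8fffab_lc_AC.Switch

/-!
# Circuits of small depth under random restrictions
-/

open Finset

namespace SmallDepth

variable {ι : Type}

/-- Gate number `i` and its predecessors. -/
theorem val_eq (C : Circuit ι) (x : ι → Prop) (i : ℕ) : C.val x i = match C i with
    | .input v => x v
    | .not a => ¬ C.val x a
    | .and S => ∀ a : Fin i, a ∈ S → C.val x a
    | .or S => ∃ a : Fin i, a ∈ S ∧ C.val x a
    | .other _ w g => g fun l => C.val x (w l) := by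
  rw [Circuit.val]
  cases C i <;> rfl

theorem depth_eq (C : Circuit ι) (i : ℕ) : C.depth i = match C i with
    | .input _ => 0
    | .not a => C.depth a
    | .and S => (S.sup fun a => C.depth a) + 1
    | .or S => (S.sup fun a => C.depth a) + 1
    | .other _ w _ => (univ.sup fun l => C.depth (w l)) + 1 := by
  rw [Circuit.depth]
  cases C i <;> rfl

variable {Ω : Type}

/-- Every input is constant or depends on one coordinate. -/
def IsLit [DecidableEq Ω] (a : (Ω → Bool) → ι → Prop) : Prop := ∀ e, DT 1 (fun x => a x e)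

/-- The value of gate number `i` as a function of the coordinates. -/
def gv (C : Circuit ι) (a : (Ω → Bool) → ι → Prop) (i : ℕ) : (Ω → Bool) → Prop :=
  fun x => C.val (a x) i

variable [DecidableEq Ω]

/-- All gates of depth at most `l` have shallow decision trees after the restriction `ρ`. -/
def Good (C : Circuit ι) (a : (Ω → Bool) → ι → Prop) (o m l : ℕ) (ρ : Restr Ω) : Prop :=
  ∀ i ≤ o, C.depth i ≤ l → DT m (res ρ (gv C a i))

/-- Number of gates which count of depth at most `l`. -/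
def sizeL (C : Circuit ι) (o l : ℕ) : ℕ :=
  ((range (o + 1)).filter fun i => (C i).counts = true ∧ C.depth i ≤ l).card

/-- The gates which count have depth exactly `l + 1`. -/
def layer (C : Circuit ι) (o l : ℕ) : Finset ℕ :=
  (range (o + 1)).filter fun i => (C i).counts = true ∧ C.depth i = l + 1

theorem sizeL_succ (C : Circuit ι) (o l : ℕ) :
    sizeL C o l + (layer C o l).card = sizeL C o (l + 1) := by
  unfold sizeL layer
  rw [← card_union_of_disjoint]
  · congr 1
    ext i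
    simp only [mem_union, mem_filter]
    constructor
    · rintro (⟨h1, h2, h3⟩ | ⟨h1, h2, h3⟩)
      · exact ⟨h1, h2, by omega⟩
      · exact ⟨h1, h2, by omega⟩
    · rintro ⟨h1, h2, h3⟩
      rcases Nat.lt_or_ge l (C.depth i) with h | h
      · exact Or.inr ⟨h1, h2, by omega⟩
      · exact Or.inl ⟨h1, h2, h⟩
  · rw [disjoint_filter]
    rintro i _ ⟨_, h⟩ ⟨_, h'⟩
    omega

/-- One level: if all gates of depth at most `l` have shallow decision trees, and the gates which
count of depth `l + 1` too, then all gates of depth at most `l + 1` have them. -/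
theorem good_succ {C : Circuit ι} {a : (Ω → Bool) → ι → Prop} {o m l : ℕ} {ρ : Restr Ω}
    (h : Good C a o m l ρ) (h' : ∀ i ∈ layer C o l, DT m (res ρ (gv C a i))) :
    Good C a o m (l + 1) ρ := by
  intro i
  induction i using Nat.strong_induction_on with
  | _ i ih =>
  intro hi hd
  rcases Nat.lt_or_ge l (C.depth i) with hl | hl
  · have hd' : C.depth i = l + 1 := by omega
    cases hc : (C i).counts with
    | true =>
      refine h' i ?_
      unfold layer
      rw [mem_filter, mem_range]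
      exact ⟨by omega, hc, hd'⟩
    | false =>
      rcases hg : C i with v | b | S | S | ⟨r, w, g⟩
      · rw [depth_eq, hg] at hd'
        simp at hd'
      · rw [depth_eq, hg] at hd'
        simp only at hd'
        have h1 := ih b b.isLt (by omega) (by omega)
        have h2 : res ρ (gv C a i) = fun x => ¬ res ρ (gv C a b) x := by
          funext x
          unfold res gv
          rw [val_eq, hg]
        rw [h2]
        exact h1.not
      · rw [hg] at hc; simp [Gate.counts] at hc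
      · rw [hg] at hc; simp [Gate.counts] at hc
      · rw [hg] at hc; simp [Gate.counts] at hc
  · exact h i hi hl

theorem good_zero {C : Circuit ι} {a : (Ω → Bool) → ι → Prop} (ha : IsLit a) {o m : ℕ}
    (hm : 1 ≤ m) (ρ : Restr Ω) : Good C a o m 0 ρ := by
  intro i
  induction i using Nat.strong_induction_on with
  | _ i ih =>
  intro hi hd
  rcases hg : C i with v | b | S | S | ⟨r, w, g⟩
  · have h2 : gv C a i = fun x => a x v := by
      funext x
      unfold gv
      rw [val_eq, hg]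
    rw [h2]
    exact ((ha v).res ρ).mono hm
  · rw [depth_eq, hg] at hd
    simp only at hd
    have h1 := ih b b.isLt (by omega) hd
    have h2 : res ρ (gv C a i) = fun x => ¬ res ρ (gv C a b) x := by
      funext x
      unfold res gv
      rw [val_eq, hg]
    rw [h2]
    exact h1.not
  all_goals
    rw [depth_eq, hg] at hd
    simp at hd

/-- The value of a gate after a further restriction. -/
theorem res_gate_cases {C : Circuit ι} {a : (Ω → Bool) → ι → Prop} {o l c : ℕ}
    {ρ : Restr Ω} (hρ : ∀ i ≤ o, C.depth i ≤ l → DT c (res ρ (gv C a i))) {i f : ℕ}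
    (hi : i ∈ layer C o l) (hf : (C i).wires ≤ f) :
    (∃ (A : Set ℕ), (∀ j ∈ A, DT c (res ρ (gv C a j))) ∧
      ((∀ x, res ρ (gv C a i) x ↔ ∃ j ∈ A, res ρ (gv C a j) x) ∨
        (∀ x, res ρ (gv C a i) x ↔ ∀ j ∈ A, res ρ (gv C a j) x))) ∨
      DT (f * c) (res ρ (gv C a i)) := by
  unfold layer at hi
  rw [mem_filter, mem_range] at hi
  obtain ⟨hio, hcnt, hd⟩ := hi
  rcases hg : C i with v | b | S | S | ⟨r, w, g⟩
  · rw [hg] at hcnt; simp [Gate.counts] at hcnt
  · rw [hg] at hcnt; simp [Gate.counts] at hcnt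
  · left
    rw [depth_eq, hg] at hd
    simp only [Nat.add_right_cancel_iff] at hd
    refine ⟨{j | ∃ b : Fin i, b ∈ S ∧ (b : ℕ) = j}, ?_, Or.inr ?_⟩
    · rintro j ⟨b, hb, rfl⟩
      refine hρ b (by have := b.isLt; omega) ?_
      rw [← hd]
      exact le_sup (f := fun a : Fin i => C.depth a) hb
    · intro x
      unfold res gv
      rw [val_eq, hg]
      constructor
      · rintro h j ⟨b, hb, rfl⟩
        exact h b hb
      · intro h b hb
        exact h b ⟨b, hb, rfl⟩
  · left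
    rw [depth_eq, hg] at hd
    simp only [Nat.add_right_cancel_iff] at hd
    refine ⟨{j | ∃ b : Fin i, b ∈ S ∧ (b : ℕ) = j}, ?_, Or.inl ?_⟩
    · rintro j ⟨b, hb, rfl⟩
      refine hρ b (by have := b.isLt; omega) ?_
      rw [← hd]
      exact le_sup (f := fun a : Fin i => C.depth a) hb
    · intro x
      unfold res gv
      rw [val_eq, hg]
      constructor
      · rintro ⟨b, hb, h⟩
        exact ⟨b, ⟨b, hb, rfl⟩, h⟩
      · rintro ⟨j, ⟨b, hb, rfl⟩, h⟩
        exact ⟨b, hb, h⟩
  · right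
    rw [hg] at hf
    change r ≤ f at hf
    rw [depth_eq, hg] at hd
    simp only [Nat.add_right_cancel_iff] at hd
    have h1 : ∀ t, DT c (res ρ (gv C a (w t))) := by
      intro t
      refine hρ (w t) (by have := (w t).isLt; omega) ?_
      rw [← hd]
      exact le_sup (f := fun t : Fin r => C.depth (w t)) (mem_univ t)
    have h2 : res ρ (gv C a i) = fun x => g fun t => res ρ (gv C a (w t)) x := by
      funext x
      unfold res gv
      rw [val_eq, hg]
    rw [h2]
    exact (DT.of_fun h1 g).mono (Nat.mul_le_mul_right c hf)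

variable [Fintype Ω]

/-- Parameters of one level: functions of depth `c` become functions of depth `m`. -/
structure LPar (q p : Ω → ℝ) (Λ : ℝ) (c f : ℕ) : Prop extends Par q p Λ where
  (ctl : ∃ u : ℕ → ℝ, Ctl q p Λ c u)
  (fan : ∃ B : ℝ, 0 ≤ B ∧ (∀ S, q S * Λ ≤ B) ∧ (1 + 2 * B) ^ (f * c) ≤ 2)

theorem psi_gate {q p : Ω → ℝ} {Λ : ℝ} {C : Circuit ι} {a : (Ω → Bool) → ι → Prop}
    {o l c f : ℕ} (P : LPar q p Λ c f) {ρ : Restr Ω}
    (hρ : ∀ i ≤ o, C.depth i ≤ l → DT c (res ρ (gv C a i))) {i : ℕ}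
    (hi : i ∈ layer C o l) (hf : (C i).wires ≤ f) : Psi q p Λ (res ρ (gv C a i)) ≤ 2 := by
  obtain ⟨u, hu⟩ := P.ctl
  obtain ⟨B, hB0, hB, hB2⟩ := P.fan
  rcases res_gate_cases hρ hi hf with ⟨A, hA, hor⟩ | hD
  · exact Psi_or P.toPar hu hA hor
  · exact (Psi_DT P.toPar hB0 hB hD).trans hB2

/-- The parameters after `l` further levels. -/
noncomputable def qs (q₀ : Ω → ℝ) (θ : ℝ) (l : ℕ) : Ω → ℝ := fun S => q₀ S * θ ^ l

noncomputable def ps (p₀ q₀ : Ω → ℝ) (θ : ℝ) : ℕ → Ω → ℝ
  | 0 => p₀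
  | l + 1 => fun S => ps p₀ q₀ θ l S + qs q₀ θ l S * ((1 - θ) / 2)

omit [DecidableEq Ω] [Fintype Ω] in
theorem par_qs {p₀ q₀ : Ω → ℝ} {θ : ℝ} (hq : ∀ S, 0 ≤ q₀ S) (hp : ∀ S, 0 ≤ p₀ S)
    (hqp : ∀ S, q₀ S + p₀ S ≤ 1) (hθ : 0 ≤ θ) (hθ1 : θ ≤ 1) (l : ℕ) (S : Ω) :
    0 ≤ qs q₀ θ l S ∧ 0 ≤ ps p₀ q₀ θ l S ∧ qs q₀ θ l S + ps p₀ q₀ θ l S ≤ 1 := by
  induction l with
  | zero => exact ⟨by simpa [qs] using hq S, hp S, by simpa [qs, ps] using hqp S⟩
  | succ l ih =>
    obtain ⟨h1, h2, h3⟩ := ih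
    have h4 : 0 ≤ qs q₀ θ l S * ((1 - θ) / 2) := mul_nonneg h1 (by linarith)
    have h5 : qs q₀ θ (l + 1) S = qs q₀ θ l S * θ := by
      simp only [qs]
      ring
    refine ⟨h5 ▸ mul_nonneg h1 hθ, add_nonneg h2 h4, ?_⟩
    rw [h5]
    change _ + (ps p₀ q₀ θ l S + qs q₀ θ l S * ((1 - θ) / 2)) ≤ 1
    nlinarith

omit [Fintype Ω] in
theorem good_mono {C : Circuit ι} {a : (Ω → Bool) → ι → Prop} {o m l : ℕ} {ρ₁ : Restr Ω}
    (h : Good C a o m l ρ₁) (ρ₂ : Restr Ω) : Good C a o m l (comp ρ₁ ρ₂) := by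
  intro i hi hd
  rw [res_comp]
  exact (h i hi hd).res ρ₂

/-- The probability that some gate does not have a shallow decision tree. -/
theorem prob_good {C : Circuit ι} {a : (Ω → Bool) → ι → Prop} (ha : IsLit a) {o m f : ℕ}
    (hm : 1 ≤ m) (hf : ∀ i ≤ o, (C i).wires ≤ f) {p₀ q₀ : Ω → ℝ} {θ Λ : ℝ}
    (P₀ : LPar q₀ p₀ Λ 1 f) (hθ1 : θ ≤ 1)
    (P₁ : LPar (fun _ : Ω => θ) (fun _ => (1 - θ) / 2) Λ m f) (hθ0 : 0 ≤ θ) (l : ℕ) :
    Ex (qs q₀ θ l) (ps p₀ q₀ θ l) (fun ρ => ind (¬ Good C a o m (l + 1) ρ)) ≤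
      sizeL C o (l + 1) * (2 / Λ ^ m) := by
  have hL : 0 < Λ := zero_lt_one.trans_le P₀.L1
  have he : 0 ≤ 2 / Λ ^ m := by positivity
  induction l with
  | zero =>
    have hqs0 : qs q₀ θ 0 = q₀ := by funext S; simp [qs]
    rw [hqs0]
    change Ex q₀ p₀ _ ≤ _
    have h1 : ∀ ρ, ind (¬ Good C a o m (0 + 1) ρ) ≤
        ∑ i ∈ layer C o 0, ind (¬ DT m (res ρ (gv C a i))) := by
      intro ρ
      refine le_trans (ind_mono ?_) (ind_exists_le _ _)
      intro h
      by_contra hcon
      push Not at hcon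
      exact h (good_succ (good_zero ha hm ρ) hcon)
    have h2 : ∀ i ∈ layer C o 0, Ex q₀ p₀ (fun ρ => ind (¬ DT m (res ρ (gv C a i)))) ≤
        2 / Λ ^ m := by
      intro i hi
      have hio : i ≤ o := by
        unfold layer at hi
        rw [mem_filter, mem_range] at hi
        omega
      have h3 : ∀ j ≤ o, C.depth j ≤ 0 → DT 1 (res (fun _ => none) (gv C a j)) :=
        fun j hj hd => good_zero ha le_rfl _ j hj hd
      have h4 := psi_gate P₀ h3 hi (hf i hio)
      have h5 : res (fun _ => none) (gv C a i) = gv C a i := by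
        funext x
        rfl
      rw [h5] at h4
      exact prob_deep P₀.toPar h4 m
    calc _ ≤ Ex q₀ p₀ (fun ρ => ∑ i ∈ layer C o 0, ind (¬ DT m (res ρ (gv C a i)))) :=
          Ex_mono P₀.q0 P₀.p0 P₀.qp h1
      _ = ∑ i ∈ layer C o 0, Ex q₀ p₀ (fun ρ => ind (¬ DT m (res ρ (gv C a i)))) := Ex_sum _ _
      _ ≤ ∑ _i ∈ layer C o 0, 2 / Λ ^ m := sum_le_sum h2
      _ = (layer C o 0).card * (2 / Λ ^ m) := by rw [sum_const, nsmul_eq_mul]
      _ ≤ _ := by
          refine mul_le_mul_of_nonneg_right ?_ he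
          exact_mod_cast (by have := sizeL_succ C o 0; omega :
            (layer C o 0).card ≤ sizeL C o (0 + 1))
  | succ l ih =>
    have hps : ps p₀ q₀ θ (l + 1) = fun S => ps p₀ q₀ θ l S + qs q₀ θ l S * ((1 - θ) / 2) := rfl
    have hqs : qs q₀ θ (l + 1) = fun S => qs q₀ θ l S * θ := by
      funext S
      simp only [qs]
      ring
    rw [hps, hqs]
    rw [← Ex_comp (q₁ := qs q₀ θ l) (p₁ := ps p₀ q₀ θ l) (q₂ := fun _ => θ)
      (p₂ := fun _ => (1 - θ) / 2)]
    have hpar := par_qs P₀.q0 P₀.p0 P₀.qp hθ0 hθ1 l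
    have h1 : ∀ ρ₁, Ex (fun _ => θ) (fun _ => (1 - θ) / 2)
        (fun ρ₂ => ind (¬ Good C a o m (l + 1 + 1) (comp ρ₁ ρ₂))) ≤
        ind (¬ Good C a o m (l + 1) ρ₁) + (layer C o (l + 1)).card * (2 / Λ ^ m) := by
      intro ρ₁
      by_cases hG : Good C a o m (l + 1) ρ₁
      · rw [ind_false (not_not.2 hG), zero_add]
        have h2 : ∀ ρ₂, ind (¬ Good C a o m (l + 1 + 1) (comp ρ₁ ρ₂)) ≤
            ∑ i ∈ layer C o (l + 1), ind (¬ DT m (res ρ₂ (res ρ₁ (gv C a i)))) := by
          intro ρ₂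
          refine le_trans (ind_mono ?_) (ind_exists_le _ _)
          intro h
          by_contra hcon
          push Not at hcon
          refine h (good_succ (good_mono hG ρ₂) fun i hi => ?_)
          rw [res_comp]
          exact hcon i hi
        calc _ ≤ Ex (fun _ => θ) (fun _ => (1 - θ) / 2) (fun ρ₂ => ∑ i ∈ layer C o (l + 1),
                ind (¬ DT m (res ρ₂ (res ρ₁ (gv C a i))))) := Ex_mono P₁.q0 P₁.p0 P₁.qp h2
          _ = ∑ i ∈ layer C o (l + 1), Ex (fun _ => θ) (fun _ => (1 - θ) / 2) (fun ρ₂ =>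
                ind (¬ DT m (res ρ₂ (res ρ₁ (gv C a i))))) := Ex_sum _ _
          _ ≤ ∑ _i ∈ layer C o (l + 1), 2 / Λ ^ m := by
              refine sum_le_sum fun i hi => ?_
              have hio : i ≤ o := by
                unfold layer at hi
                rw [mem_filter, mem_range] at hi
                omega
              exact prob_deep P₁.toPar (psi_gate P₁ hG hi (hf i hio)) m
          _ = _ := by rw [sum_const, nsmul_eq_mul]
      · rw [ind_true hG]
        have h2 : Ex (fun _ => θ) (fun _ => (1 - θ) / 2)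
            (fun ρ₂ => ind (¬ Good C a o m (l + 1 + 1) (comp ρ₁ ρ₂))) ≤ 1 :=
          Ex_le_one P₁.q0 P₁.p0 P₁.qp fun _ => ind_le_one _
        have : 0 ≤ ((layer C o (l + 1)).card : ℝ) * (2 / Λ ^ m) := by positivity
        linarith
    calc _ ≤ Ex (qs q₀ θ l) (ps p₀ q₀ θ l) (fun ρ₁ => ind (¬ Good C a o m (l + 1) ρ₁) +
            (layer C o (l + 1)).card * (2 / Λ ^ m)) :=
          Ex_mono (fun S => (hpar S).1) (fun S => (hpar S).2.1) (fun S => (hpar S).2.2) h1
      _ = Ex (qs q₀ θ l) (ps p₀ q₀ θ l) (fun ρ₁ => ind (¬ Good C a o m (l + 1) ρ₁)) +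
            (layer C o (l + 1)).card * (2 / Λ ^ m) := by rw [Ex_add, Ex_const]
      _ ≤ sizeL C o (l + 1) * (2 / Λ ^ m) + (layer C o (l + 1)).card * (2 / Λ ^ m) := by
          linarith
      _ = _ := by
          have := sizeL_succ C o (l + 1)
          rw [← this]
          push_cast
          ring

theorem sizeL_le (C : Circuit ι) (o l : ℕ) : sizeL C o l ≤ C.size o := by
  unfold sizeL Circuit.size
  refine card_le_card fun i hi => ?_
  rw [mem_filter] at hi ⊢
  exact ⟨hi.1, hi.2.1⟩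

end SmallDepth
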