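import Pool.Agent.Lib.MP_8fffab_lc_AC.Ineq

/-!
# The main theorem
-/

open Finset Filter Topology

namespace SmallDepth

theorem tends (k : ℕ) (K₂ K₃ : ℝ) {u ε : ℝ} (hu : 0 < u) (hu1 : u < 1) (hε : 0 < ε) :
    ∃ n₀ : ℕ, ∀ n ≥ n₀, K₂ * u ^ n + K₃ * ((n : ℝ) ^ (k + 1) * 0.9992 ^ n) < ε := by
  have h1 : Tendsto (fun n : ℕ => u ^ n) atTop (𝓝 0) :=
    tendsto_pow_atTop_nhds_zero_of_lt_one hu.le hu1
  have h2 : Tendsto (fun n : ℕ => (n : ℝ) ^ (k + 1) * (0.9992 : ℝ) ^ n) atTop (𝓝 0) :=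
    tendsto_pow_const_mul_const_pow_of_abs_lt_one (k + 1) (by norm_num [abs_of_pos])
  have h3 := (h1.const_mul K₂).add (h2.const_mul K₃)
  rw [mul_zero, mul_zero, add_zero] at h3
  exact eventually_atTop.1 (h3.eventually_lt_const hε)

/-- The parameters are chosen. -/
theorem params {k : ℕ} (hk : 20 ≤ k) : ∃ δ : ℝ, 0 < δ ∧ ∀ (n l f : ℕ),
    ((l + 1 : ℕ) : ℝ) ^ 2 ≤ δ * n → (f : ℝ) ^ (l + 1) ≤ 2 ^ (δ * n) →
    ∃ (m : ℕ) (y : ℝ), 2 ≤ m ∧ 0 < y ∧ y ≤ (1 / 4) ^ m ∧ y * (f * m) ≤ 2 ∧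
      (8 * y) ^ m ≤ (1 / 2) ^ (n * (k + 3)) ∧
      (y ^ 2) ^ (l + 1) = (2 : ℝ) ^ (-((1 / (10000 * k) : ℝ) * n)) ∧
      (asize (2 * k) (2 ^ m) f : ℝ) ^ k + 1 ≤ 2 ^ (k + 1) * (2 : ℝ) ^ (0.0001 * n : ℝ) := by
  have hk' : (20 : ℝ) ≤ k := by exact_mod_cast hk
  obtain ⟨η, hη⟩ : ∃ η : ℝ, η = 1 / (10000 * k) := ⟨_, rfl⟩
  have hη0 : 0 < η := by rw [hη]; positivity
  have hηk : η * k = 1 / 10000 := by
    rw [hη]
    field_simp
  have hη1 : η ≤ 1 / 200000 := by nlinarith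
  obtain ⟨K, hK⟩ : ∃ K : ℝ, K = 4 * (k + 3) / η + 1 := ⟨_, rfl⟩
  have hK1 : 1 ≤ K := by
    rw [hK]
    have : 0 ≤ 4 * ((k : ℝ) + 3) / η := by positivity
    linarith
  obtain ⟨P, hP⟩ : ∃ P : ℕ, P = (2 * k + 1) ^ (2 * k) := ⟨_, rfl⟩
  have hP1 : 1 ≤ P := by
    rw [hP]
    exact Nat.one_le_pow _ _ (Nat.succ_pos _)
  have hP1' : (1 : ℝ) ≤ P := by exact_mod_cast hP1
  obtain ⟨D, hD⟩ : ∃ D : ℝ, D = 16 * K * (P * k) := ⟨_, rfl⟩
  have hPk : 20 ≤ (P : ℝ) * k := by nlinarith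
  have hD0 : 16 * K ≤ D := by rw [hD]; nlinarith
  have hD1 : 0 < D := by linarith
  refine ⟨η / D, by positivity, ?_⟩
  intro n l f hd hf
  obtain ⟨d, hdd⟩ : ∃ d : ℝ, d = ((l + 1 : ℕ) : ℝ) := ⟨_, rfl⟩
  rw [← hdd] at hd
  have hd1 : 1 ≤ d := by
    rw [hdd]
    push_cast
    have : (0 : ℝ) ≤ l := Nat.cast_nonneg l
    linarith
  have hn0 : (0 : ℝ) ≤ n := Nat.cast_nonneg n
  have hdn : d ^ 2 * D ≤ η * n := by
    have h1 := mul_le_mul_of_nonneg_right hd hD1.le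
    have h2 : η / D * n * D = η * n := by field_simp
    linarith
  have hdn1 : d ^ 2 * (16 * K) ≤ η * n := by
    have : d ^ 2 * (16 * K) ≤ d ^ 2 * D := mul_le_mul_of_nonneg_left hD0 (sq_nonneg d)
    linarith
  obtain ⟨x, hx⟩ : ∃ x : ℝ, x = η * n / (4 * d) := ⟨_, rfl⟩
  have hxd : x * d = η * n / 4 := by
    rw [hx]
    field_simp
  obtain ⟨m, hm⟩ : ∃ m : ℕ, m = ⌈4 * d * (k + 3) / η⌉₊ := ⟨_, rfl⟩
  have hm1 : 4 * d * (k + 3) / η ≤ m := by
    rw [hm]
    exact Nat.le_ceil _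
  have hm2 : (m : ℝ) ≤ d * K := by
    have h1 : (m : ℝ) < 4 * d * (k + 3) / η + 1 := by
      rw [hm]
      exact Nat.ceil_lt_add_one (by positivity)
    have h2 : d * K = 4 * d * (k + 3) / η + d := by
      rw [hK]
      ring
    linarith
  have hm3 : (4 : ℝ) ≤ m := by
    refine le_trans ?_ hm1
    rw [le_div_iff₀ hη0]
    nlinarith
  have hm4 : 2 ≤ m := by
    have : (2 : ℝ) ≤ m := by linarith
    exact_mod_cast this
  have hmx : (m : ℝ) ≤ x := by
    rw [hx, le_div_iff₀ (by positivity)]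
    have h1 : (m : ℝ) * (4 * d) ≤ d * K * (4 * d) := mul_le_mul_of_nonneg_right hm2 (by positivity)
    have h2 : 0 ≤ d ^ 2 * K := by positivity
    nlinarith
  have hx0 : 0 ≤ x := by linarith
  -- the fan-in
  have hfx : (f : ℝ) ≤ 2 ^ x := by
    have h1 : (f : ℝ) ^ (l + 1) ≤ ((2 : ℝ) ^ x) ^ (l + 1) := by
      refine hf.trans ?_
      rw [← Real.rpow_natCast, ← Real.rpow_mul (by norm_num), ← hdd]
      refine Real.rpow_le_rpow_of_exponent_le (by norm_num) ?_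
      rw [hxd]
      have h2 : η / D * n ≤ η / 16 * n := by
        refine mul_le_mul_of_nonneg_right ?_ hn0
        refine div_le_div_of_nonneg_left hη0.le (by norm_num) ?_
        linarith
      have : 0 ≤ η * n := by positivity
      linarith
    exact le_of_pow_le_pow_left₀ (Nat.succ_ne_zero l) (by positivity) h1
  have hm2x : (m : ℝ) ≤ 2 ^ x := by
    have h1 : (m : ℝ) ≤ 2 ^ m := by exact_mod_cast (Nat.lt_two_pow_self (n := m)).le
    refine h1.trans ?_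
    rw [← Real.rpow_natCast]
    exact Real.rpow_le_rpow_of_exponent_le (by norm_num) hmx
  refine ⟨m, 2 ^ (-(2 * x)), hm4, by positivity, ?_, ?_, ?_, ?_, ?_⟩
  · have h1 : (1 / 4 : ℝ) ^ m = 2 ^ (-(2 * m) : ℝ) := by
      rw [Real.rpow_neg (by norm_num), ← Real.rpow_natCast, one_div, Real.inv_rpow (by norm_num)]
      congr 1
      rw [Real.rpow_mul (by norm_num)]
      norm_num
    rw [h1]
    exact Real.rpow_le_rpow_of_exponent_le (by norm_num) (by linarith)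
  · have h1 : (f : ℝ) * m ≤ 2 ^ x * 2 ^ x := by
      refine mul_le_mul hfx hm2x (Nat.cast_nonneg m) (by positivity)
    have h2 : (2 : ℝ) ^ x * 2 ^ x = 2 ^ (2 * x) := by
      rw [← Real.rpow_add (by norm_num)]
      congr 1
      ring
    calc (2 : ℝ) ^ (-(2 * x)) * (f * m) ≤ 2 ^ (-(2 * x)) * 2 ^ (2 * x) := by
          rw [h2] at h1
          exact mul_le_mul_of_nonneg_left h1 (by positivity)
      _ = 1 := by
          rw [← Real.rpow_add (by norm_num)]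
          norm_num
      _ ≤ 2 := by norm_num
  · have h1 : (8 : ℝ) * 2 ^ (-(2 * x)) ≤ 2 ^ (-x) := by
      have h2 : (8 : ℝ) = 2 ^ (3 : ℝ) := by norm_num
      rw [h2, ← Real.rpow_add (by norm_num)]
      exact Real.rpow_le_rpow_of_exponent_le (by norm_num) (by linarith)
    have h3 : ((8 : ℝ) * 2 ^ (-(2 * x))) ^ m ≤ ((2 : ℝ) ^ (-x)) ^ m :=
      pow_le_pow_left₀ (by positivity) h1 m
    refine h3.trans ?_
    have h4 : (1 / 2 : ℝ) ^ (n * (k + 3)) = 2 ^ (-((n : ℝ) * (k + 3))) := by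
      rw [Real.rpow_neg (by norm_num), one_div, inv_pow, ← Real.rpow_natCast]
      push_cast
      rfl
    rw [h4, ← Real.rpow_natCast, ← Real.rpow_mul (by norm_num)]
    refine Real.rpow_le_rpow_of_exponent_le (by norm_num) ?_
    have h5 : n * ((k : ℝ) + 3) ≤ x * m := by
      have h6 : x * (4 * d * (k + 3) / η) = n * (k + 3) := by
        rw [hx]
        field_simp
      rw [← h6]
      exact mul_le_mul_of_nonneg_left hm1 hx0
    linarith
  · rw [← hη, ← pow_mul, ← Real.rpow_natCast, ← Real.rpow_mul (by norm_num)]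
    congr 1
    push_cast
    have h1 : x * ((l : ℝ) + 1) = η * n / 4 := by
      rw [← hxd, hdd]
      push_cast
      ring
    linear_combination (-4) * h1
  · -- the number of alive sets
    have h1 : (asize (2 * k) (2 ^ m) f : ℝ) ≤ 2 * (2 ^ ((m + 1) * P) * 2 ^ (2 * x)) := by
      unfold asize
      rw [← hP]
      push_cast
      have h2 : ((2 : ℝ) ^ m + 1) ^ P ≤ 2 ^ ((m + 1) * P) := by
        rw [pow_mul]
        refine pow_le_pow_left₀ (by positivity) ?_ P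
        have : (1 : ℝ) ≤ 2 ^ m := one_le_pow₀ (by norm_num)
        rw [pow_succ]
        linarith
      have h3 : (f : ℝ) * 2 ^ m ≤ 2 ^ (2 * x) := by
        have h4 : (2 : ℝ) ^ m ≤ 2 ^ x := by
          rw [← Real.rpow_natCast]
          exact Real.rpow_le_rpow_of_exponent_le (by norm_num) hmx
        calc (f : ℝ) * 2 ^ m ≤ 2 ^ x * 2 ^ x := mul_le_mul hfx h4 (by positivity) (by positivity)
          _ = 2 ^ (2 * x) := by
            rw [← Real.rpow_add (by norm_num)]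
            congr 1
            ring
      have h5 : (1 : ℝ) ≤ 2 ^ ((m + 1) * P) := one_le_pow₀ (by norm_num)
      have h6 : (1 : ℝ) ≤ 2 ^ (2 * x) := Real.one_le_rpow (by norm_num) (by linarith)
      nlinarith
    have h2 : (1 : ℝ) ≤ 2 ^ ((m + 1) * P) := one_le_pow₀ (by norm_num)
    have h3 : (1 : ℝ) ≤ 2 ^ (2 * x) := Real.one_le_rpow (by norm_num) (by linarith)
    have h4 : (asize (2 * k) (2 ^ m) f : ℝ) ^ k ≤ (2 * (2 ^ ((m + 1) * P) * 2 ^ (2 * x))) ^ k :=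
      pow_le_pow_left₀ (Nat.cast_nonneg _) h1 k
    have h5 : (1 : ℝ) ≤ (2 * (2 ^ ((m + 1) * P) * 2 ^ (2 * x))) ^ k := by
      refine one_le_pow₀ ?_
      nlinarith
    have h6 : (2 * ((2 : ℝ) ^ ((m + 1) * P) * 2 ^ (2 * x))) ^ k =
        2 ^ k * 2 ^ (((m : ℝ) + 1) * P * k + 2 * x * k) := by
      rw [mul_pow, mul_pow, Real.rpow_add (by norm_num), ← pow_mul]
      congr 2
      · rw [← Real.rpow_natCast]
        congr 1
        push_cast
        ring
      · rw [← Real.rpow_natCast, ← Real.rpow_mul (by norm_num)]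
    have h7 : ((m : ℝ) + 1) * P * k + 2 * x * k ≤ 0.0001 * n := by
      have h8 : ((m : ℝ) + 1) * (P * k) ≤ d * K * 2 * (P * k) := by
        refine mul_le_mul_of_nonneg_right ?_ (by positivity)
        nlinarith
      have h9 : d * K * 2 * (P * k) ≤ η * n / 8 := by
        have h10 : d ^ 2 * D = d ^ 2 * (K * 2 * (P * k)) * 8 := by rw [hD]; ring
        have h11 : d * (K * 2 * (P * k)) ≤ d ^ 2 * (K * 2 * (P * k)) := by
          refine mul_le_mul_of_nonneg_right ?_ (by positivity)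
          nlinarith
        nlinarith
      have h12 : 2 * x * k ≤ η * n / 2 * k := by
        refine mul_le_mul_of_nonneg_right ?_ (by positivity)
        have : x ≤ x * d := le_mul_of_one_le_right hx0 hd1
        linarith
      have h13 : η * n / 2 * k = 0.00005 * n := by
        have : η * n / 2 * k = η * k * n / 2 := by ring
        rw [this, hηk]
        ring
      have h14 : η * n / 8 ≤ 0.00005 * n := by
        have := mul_le_mul_of_nonneg_right hη1 hn0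
        linarith
      calc ((m : ℝ) + 1) * P * k + 2 * x * k = ((m : ℝ) + 1) * (P * k) + 2 * x * k := by ring
        _ ≤ 0.0001 * n := by linarith
    have h8 : (2 : ℝ) ^ (((m : ℝ) + 1) * P * k + 2 * x * k) ≤ 2 ^ (0.0001 * n : ℝ) :=
      Real.rpow_le_rpow_of_exponent_le (by norm_num) h7
    have h9 : (2 : ℝ) ^ k * 2 ^ (((m : ℝ) + 1) * P * k + 2 * x * k) ≤
        2 ^ k * 2 ^ (0.0001 * n : ℝ) := mul_le_mul_of_nonneg_left h8 (by positivity)
    rw [h6] at h4 h5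
    have h10 : (2 : ℝ) ^ (k + 1) = 2 * 2 ^ k := by ring
    rw [h10]
    linarith

end SmallDepth
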