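import Mathlib

/-!
# Numerical estimates, row NUMA
-/

open Finset

namespace SmallDepth

/-- Row NUMA. `((k - j) / k) ^ (k - j) = exp (- k * negMulLog y)`, `y = (k - j) / k` lies in
`[3/16, 19/32]`, and `negMulLog` is concave (`Real.concaveOn_negMulLog`), so it is at least the
minimum at the end points; `(32/19)^19 ≥ 1.362^32` and `(16/3)^3 ≥ 1.362^16` by `norm_num`. -/
theorem num_kappa {k j : ℕ} (h1 : 13 * k / 32 < j) (h2 : j ≤ 2 * (13 * k / 32)) (h3 : j ≤ k) :
    (((k - j : ℕ) : ℝ) / k) ^ (k - j) ≤ (1 / 1.362 : ℝ) ^ k := by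
  have hk : 0 < k := by omega
  have hk' : (0 : ℝ) < k := by exact_mod_cast hk
  obtain ⟨y, hy⟩ : ∃ y : ℝ, y = ((k - j : ℕ) : ℝ) / k := ⟨_, rfl⟩
  have hy1 : 3 / 16 ≤ y := by
    have h4 : 3 * k ≤ 16 * (k - j) := by omega
    have h5 : (3 : ℝ) * k ≤ 16 * ((k - j : ℕ) : ℝ) := by exact_mod_cast h4
    rw [hy, le_div_iff₀ hk']
    linarith
  have hy2 : y ≤ 19 / 32 := by
    have h4 : 32 * (k - j) ≤ 19 * k := by omega
    have h5 : (32 : ℝ) * ((k - j : ℕ) : ℝ) ≤ 19 * k := by exact_mod_cast h4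
    rw [hy, div_le_iff₀ hk']
    linarith
  have hy0 : 0 < y := by linarith
  have e1 : Real.log 1.362 ≤ Real.negMulLog (3 / 16) := by
    have h4 : Real.log ((1.362 : ℝ) ^ 16) ≤ Real.log ((16 / 3 : ℝ) ^ 3) :=
      Real.log_le_log (by norm_num) (by norm_num)
    rw [Real.log_pow, Real.log_pow] at h4
    have h5 : Real.log (16 / 3 : ℝ) = - Real.log (3 / 16) := by
      rw [← Real.log_inv]
      congr 1
      norm_num
    rw [h5] at h4
    unfold Real.negMulLog
    push_cast at h4
    linarith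
  have e2 : Real.log 1.362 ≤ Real.negMulLog (19 / 32) := by
    have h4 : Real.log ((1.362 : ℝ) ^ 32) ≤ Real.log ((32 / 19 : ℝ) ^ 19) :=
      Real.log_le_log (by norm_num) (by norm_num)
    rw [Real.log_pow, Real.log_pow] at h4
    have h5 : Real.log (32 / 19 : ℝ) = - Real.log (19 / 32) := by
      rw [← Real.log_inv]
      congr 1
      norm_num
    rw [h5] at h4
    unfold Real.negMulLog
    push_cast at h4
    linarith
  have key : Real.log 1.362 ≤ Real.negMulLog y := by
    refine le_trans (le_min e1 e2) ?_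
    exact Real.concaveOn_negMulLog.min_le_of_mem_Icc (Set.mem_Ici.2 (by norm_num))
      (Set.mem_Ici.2 (by norm_num)) ⟨hy1, hy2⟩
  have h6 : ((k - j : ℕ) : ℝ) = k * y := by
    rw [hy]
    field_simp
  rw [← hy]
  calc y ^ (k - j) = Real.exp (((k - j : ℕ) : ℝ) * Real.log y) := by
        rw [Real.exp_nat_mul, Real.exp_log hy0]
    _ = Real.exp (-(k * Real.negMulLog y)) := by
        rw [h6]
        unfold Real.negMulLog
        congr 1
        ring
    _ ≤ Real.exp (-(k * Real.log 1.362)) := by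
        refine Real.exp_le_exp.2 ?_
        have := mul_le_mul_of_nonneg_left key hk'.le
        linarith
    _ = (1 / 1.362 : ℝ) ^ k := by
        rw [← mul_neg, Real.exp_nat_mul, Real.exp_neg, Real.exp_log (by norm_num), one_div]

end SmallDepth
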