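import Pool.Agent.Lib.MP_8fffab_lc_AC.Core

/-!
# The parameters of the random restriction
-/

open Finset

namespace SmallDepth

variable {ι : Type} {k h : ℕ}

/-- A coordinate `(u, b)` is free with probability `qb` and true with probability `pb`. -/
noncomputable def qb (y p : ℝ) (l : ℕ) (b : Bool) : ℝ :=
  (if b then y ^ 2 else 2 * y * p) * (y ^ 2) ^ l

noncomputable def pb (y p : ℝ) (l : ℕ) (b : Bool) : ℝ :=
  (if b then (1 - y ^ 2) / 2 else p) +
    (if b then y ^ 2 else 2 * y * p) * ((1 - (y ^ 2) ^ l) / 2)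

theorem ps_eq {Ω : Type} (p₀ q₀ : Ω → ℝ) (θ : ℝ) (l : ℕ) (S : Ω) :
    ps p₀ q₀ θ l S = p₀ S + q₀ S * ((1 - θ ^ l) / 2) := by
  induction l with
  | zero => simp [ps]
  | succ l ih =>
    simp only [ps, qs, ih]
    ring

theorem pow_le_two {x : ℝ} (hx : 0 ≤ x) {N : ℕ} (h : x * N ≤ 1 / 2) : (1 + x) ^ N ≤ 2 := by
  have h1 : (1 + x) ^ N ≤ Real.exp (x * N) := by
    rw [mul_comm, Real.exp_nat_mul]
    refine pow_le_pow_left₀ (by linarith) ?_ N
    linarith [Real.add_one_le_exp x]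
  refine h1.trans ?_
  rw [← Real.le_log_iff_exp_le (by norm_num)]
  linarith [Real.log_two_gt_d9]

theorem good_bound {C : Circuit ι} {a : (Cd k h → Bool) → ι → Prop} (ha : IsLit a) {o m f : ℕ}
    (hm : 2 ≤ m) (hf : ∀ i ≤ o, (C i).wires ≤ f) {y p : ℝ} (hy : 0 < y)
    (hym : y ≤ (1 / 4) ^ m) (hyf : y * (f * m) ≤ 2) (hp : 0 < p) (hpy : p ≤ y / 2) (l : ℕ) :
    Ex (fun S : Cd k h => qb y p l S.2) (fun S => pb y p l S.2)
      (fun ρ => ind (¬ Good C a o m (l + 1) ρ)) ≤ C.size o * (2 * (8 * y) ^ m) := by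
  have hm0 : (1 / 4 : ℝ) ^ m ≤ (1 / 4) ^ 2 :=
    pow_le_pow_of_le_one (by norm_num) (by norm_num) hm
  have hy4 : y ≤ 1 / 16 := hym.trans (hm0.trans (by norm_num))
  have hy2 : y ^ 2 ≤ y / 16 := by nlinarith
  have hy20 : 0 < y ^ 2 := by positivity
  have hmr : (2 : ℝ) ≤ m := by exact_mod_cast hm
  have hf0 : (0 : ℝ) ≤ f := Nat.cast_nonneg f
  set q₀ : Cd k h → ℝ := fun S => if S.2 then y ^ 2 else 2 * y * p with hq₀
  set p₀ : Cd k h → ℝ := fun S => if S.2 then (1 - y ^ 2) / 2 else p with hp₀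
  have hLL : y ^ 2 * (1 / (8 * y)) = y / 8 := by field_simp
  have hLL2 : 2 * y * p * (1 / (8 * y)) = p / 4 := by field_simp; norm_num
  have h2yp : 2 * y * p ≤ p / 8 := by nlinarith
  have h2yp0 : 0 < 2 * y * p := by positivity
  have P₀ : LPar q₀ p₀ (1 / (8 * y)) 1 f := by
    refine ⟨⟨?_, ?_, ?_, ?_⟩, ?_, ?_⟩
    · rintro ⟨u, b⟩
      cases b
      · simpa [hq₀] using h2yp0.le
      · simpa [hq₀] using hy20.le
    · rintro ⟨u, b⟩
      cases b
      · simpa [hp₀] using hp.le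
      · simp only [hp₀, if_true]
        linarith
    · rintro ⟨u, b⟩
      cases b
      · simp only [hp₀, hq₀, Bool.false_eq_true, if_false]
        linarith
      · simp only [hp₀, hq₀, if_true]
        linarith
    · rw [le_div_iff₀ (by positivity)]
      linarith
    · refine ⟨fun t => if t = 0 then 1 / 2 else 0, by simp, ?_, ?_⟩
      · intro t _
        simp only
        split_ifs <;> norm_num
      · intro t ht S
        obtain rfl : t = 0 := by omega
        obtain ⟨u, b⟩ := S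
        cases b
        · simp only [hp₀, hq₀, Bool.false_eq_true, if_false, if_true, zero_add, one_ne_zero, hLL2]
          constructor <;> linarith
        · simp only [hp₀, hq₀, if_false, if_true, zero_add, one_ne_zero, hLL]
          constructor <;> linarith
    · refine ⟨y / 8, by positivity, ?_, ?_⟩
      · rintro ⟨u, b⟩
        cases b
        · simp only [hq₀, Bool.false_eq_true, if_false, hLL2]
          linarith
        · simp only [hq₀, if_true, hLL]
          exact le_rfl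
      · refine pow_le_two (by positivity) ?_
        have : y * f ≤ y * (f * m) := by
          refine mul_le_mul_of_nonneg_left ?_ hy.le
          nlinarith
        push_cast
        nlinarith
  have P₁ : LPar (fun _ : Cd k h => y ^ 2) (fun _ => (1 - y ^ 2) / 2) (1 / (8 * y)) m f := by
    refine ⟨⟨fun _ => hy20.le, fun _ => by linarith, fun _ => by linarith, ?_⟩, ?_, ?_⟩
    · rw [le_div_iff₀ (by positivity)]
      linarith
    · refine ⟨fun t => (1 / 4) ^ t / 2 - y / 2, ?_, ?_, ?_⟩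
      · simp only [pow_zero]
        linarith
      · intro t ht
        have : (1 / 4 : ℝ) ^ m ≤ (1 / 4) ^ t :=
          pow_le_pow_of_le_one (by norm_num) (by norm_num) ht
        simp only
        linarith
      · intro t ht _
        have h1 : (1 / 4 : ℝ) ^ m ≤ (1 / 4) ^ t :=
          pow_le_pow_of_le_one (by norm_num) (by norm_num) ht.le
        have h2 : 0 ≤ (1 / 4 : ℝ) ^ t / 2 - y / 2 := by linarith
        have h3 : (1 / 4 : ℝ) * ((1 / 4 : ℝ) ^ t / 2 - y / 2) ≤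
            (1 - y ^ 2) / 2 * ((1 / 4 : ℝ) ^ t / 2 - y / 2) :=
          mul_le_mul_of_nonneg_right (by linarith) h2
        have h4 : (1 / 4 : ℝ) ^ (t + 1) = (1 / 4) ^ t * (1 / 4) := pow_succ _ _
        have h5 : 1 - y ^ 2 - (1 - y ^ 2) / 2 = (1 - y ^ 2) / 2 := by ring
        simp only [hLL, h5, h4]
        constructor <;> linarith
    · refine ⟨y / 8, by positivity, fun _ => hLL.le, pow_le_two (by positivity) ?_⟩
      push_cast
      nlinarith
  have h1 := prob_good ha (o := o) (m := m) (f := f) (by omega) hf P₀ (θ := y ^ 2) (by linarith)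
    P₁ hy20.le l
  have e1 : (fun S : Cd k h => qb y p l S.2) = qs q₀ (y ^ 2) l := by
    funext S
    simp only [qb, qs, hq₀]
  have e2 : (fun S : Cd k h => pb y p l S.2) = ps p₀ q₀ (y ^ 2) l := by
    funext S
    rw [ps_eq]
    simp only [pb, hq₀, hp₀]
  rw [e1, e2]
  refine h1.trans ?_
  have h2 : 2 / (1 / (8 * y)) ^ m = 2 * (8 * y) ^ m := by
    rw [one_div, inv_pow, div_inv_eq_mul]
  rw [h2]
  refine mul_le_mul_of_nonneg_right ?_ (by positivity)
  exact_mod_cast sizeL_le C o (l + 1)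

section

variable {y p : ℝ} {l : ℕ}

theorem qb_pos (hy : 0 < y) (hp : 0 < p) (b : Bool) : 0 < qb y p l b := by
  unfold qb
  cases b
  · simp only [Bool.false_eq_true, if_false]
    positivity
  · simp only [if_true]
    positivity

theorem bounds (hy : 0 < y) (hy4 : y ≤ 1 / 16) (hp : 0 < p) (hp1 : p ≤ 1 / 4) :
    0 ≤ (y ^ 2) ^ l ∧ (y ^ 2) ^ l ≤ 1 ∧ y ^ 2 ≤ 1 / 16 ∧ 0 < 2 * y * p ∧ 2 * y * p ≤ p / 8 := by
  have h1 : y ^ 2 ≤ 1 / 16 := by nlinarith
  exact ⟨by positivity, pow_le_one₀ (by positivity) (by linarith), h1, by positivity,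
    by nlinarith⟩

theorem pb_nonneg (hy : 0 < y) (hy4 : y ≤ 1 / 16) (hp : 0 < p) (hp1 : p ≤ 1 / 4) (b : Bool) :
    0 ≤ pb y p l b := by
  obtain ⟨h1, h2, h3, h4, h5⟩ := bounds (l := l) hy hy4 hp hp1
  have h6 : 0 ≤ (1 - (y ^ 2) ^ l) / 2 := by linarith
  unfold pb
  cases b
  · simp only [Bool.false_eq_true, if_false]
    have := mul_nonneg h4.le h6
    linarith
  · simp only [if_true]
    have := mul_nonneg (sq_nonneg y) h6
    linarith

theorem qb_le (hy : 0 < y) (hy4 : y ≤ 1 / 16) (hp : 0 < p) (hp1 : p ≤ 1 / 4) (b : Bool) :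
    qb y p l b ≤ 1 ∧ qb y p l b + pb y p l b ≤ 1 := by
  obtain ⟨h1, h2, h3, h4, h5⟩ := bounds (l := l) hy hy4 hp hp1
  unfold qb pb
  cases b
  · simp only [Bool.false_eq_true, if_false]
    constructor
    · nlinarith
    · nlinarith
  · simp only [if_true]
    constructor
    · nlinarith [sq_nonneg y]
    · nlinarith [sq_nonneg y]

theorem pb_true (hy : 0 < y) (hy4 : y ≤ 1 / 16) (hp : 0 < p) (hp1 : p ≤ 1 / 4) :
    pb y p l true ≤ 1 / 2 := by
  obtain ⟨h1, h2, h3, h4, h5⟩ := bounds (l := l) hy hy4 hp hp1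
  unfold pb
  simp only [if_true]
  nlinarith [sq_nonneg y]

theorem pb_false (hy : 0 < y) (hy4 : y ≤ 1 / 16) (hp : 0 < p) (hp1 : p ≤ 1 / 4) :
    pb y p l false ≤ 2 * p := by
  obtain ⟨h1, h2, h3, h4, h5⟩ := bounds (l := l) hy hy4 hp hp1
  unfold pb
  simp only [Bool.false_eq_true, if_false]
  nlinarith

theorem qb_mul (hy : 0 < y) (hy4 : y ≤ 1 / 16) (hp : 0 < p) :
    2 * p * ((y ^ 2) ^ (l + 1)) ^ 2 ≤ qb y p l false * qb y p l true := by
  have h1 : (0 : ℝ) < y ^ 2 := by positivity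
  unfold qb
  simp only [Bool.false_eq_true, if_false, if_true]
  have h3 : ((y ^ 2) ^ (l + 1)) ^ 2 = (y ^ 2) ^ l * (y ^ 2) ^ l * (y ^ 2 * y ^ 2) := by ring
  have h4 : y ^ 2 * y ^ 2 ≤ y * y ^ 2 := by nlinarith
  have h5 : (0 : ℝ) ≤ (y ^ 2) ^ l * (y ^ 2) ^ l := by positivity
  calc 2 * p * ((y ^ 2) ^ (l + 1)) ^ 2
      = 2 * p * (((y ^ 2) ^ l * (y ^ 2) ^ l) * (y ^ 2 * y ^ 2)) := by rw [h3]
    _ ≤ 2 * p * (((y ^ 2) ^ l * (y ^ 2) ^ l) * (y * y ^ 2)) := by
        refine mul_le_mul_of_nonneg_left ?_ (by positivity)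
        exact mul_le_mul_of_nonneg_left h4 h5
    _ = _ := by ring

end

end SmallDepth
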