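import Pool.Agent.Lib.MP_8fffab_lc_AC.PlanDefs

/-!
# Row PLANT: the average over all permutations of a function of some planted sets
-/

open Finset

namespace SmallDepth

open SetCoverMono (col)

lemma card_col_fiber (k h : ℕ) (π : Equiv.Perm (Fin (k * h))) (j : Fin k) :
    (univ.filter fun v => col k h (π v) = j).card = h := by
  exact SetCoverMono.card_col_perm k h π j

/-- the colouring which forgets the colours outside `J` -/
def gJ {k : ℕ} (h : ℕ) (J : Finset (Fin k)) (v : Fin (k * h)) : Option (Fin k) :=
  if col k h v ∈ J then some (col k h v) else none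

lemma gJ_some {k h : ℕ} (J : Finset (Fin k)) (v : Fin (k * h)) (j : Fin k) :
    gJ h J v = some j ↔ j ∈ J ∧ col k h v = j := by
  unfold gJ
  split_ifs with hc
  · constructor
    · intro h
      have h1 := Option.some.inj h
      exact ⟨h1 ▸ hc, h1⟩
    · rintro ⟨_, h1⟩
      rw [h1]
  · constructor
    · intro h
      cases h
    · rintro ⟨h1, h2⟩
      exact absurd (h2 ▸ h1) hc

lemma prod_fact {k h : ℕ} (J : Finset (Fin k)) (π : Equiv.Perm (Fin (k * h))) :
    ∏ i : Option (Fin k), (Fintype.card {v // gJ h J (π v) = i}).factorial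
      = h.factorial ^ J.card * (k * h - J.card * h).factorial := by
  classical
  rw [Fintype.prod_option, mul_comm]
  have hs : ∀ j : Fin k, Fintype.card {v // gJ h J (π v) = some j} = if j ∈ J then h else 0 := by
    intro j
    rw [Fintype.card_subtype]
    by_cases hj : j ∈ J
    · rw [if_pos hj]
      refine Eq.trans ?_ (card_col_fiber k h π j)
      refine congrArg Finset.card (Finset.filter_congr fun v _ => ?_)
      rw [gJ_some]
      exact ⟨fun h => h.2, fun h => ⟨hj, h⟩⟩
    · rw [if_neg hj, card_eq_zero, filter_eq_empty_iff]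
      intro v _ hv
      exact hj ((gJ_some J _ j).1 hv).1
  have h1 : ∏ j : Fin k, (Fintype.card {v // gJ h J (π v) = some j}).factorial
      = h.factorial ^ J.card := by
    rw [← Finset.prod_subset (subset_univ J)]
    · rw [prod_congr rfl (fun j hj => by rw [hs j, if_pos hj]), prod_const]
    · intro j _ hj
      rw [hs j, if_neg hj, Nat.factorial_zero]
  have h2 : Fintype.card {v // gJ h J (π v) = none} = k * h - J.card * h := by
    have htot : ∑ i : Option (Fin k), Fintype.card {v // gJ h J (π v) = i} = k * h := by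
      have h3 := Finset.card_eq_sum_card_fiberwise (f := fun v => gJ h J (π v))
        (s := (univ : Finset (Fin (k * h)))) (t := (univ : Finset (Option (Fin k))))
        (fun _ _ => mem_coe.2 (mem_univ _))
      rw [card_univ, Fintype.card_fin] at h3
      refine Eq.trans ?_ h3.symm
      refine sum_congr rfl fun i _ => ?_
      rw [Fintype.card_subtype]
    rw [Fintype.sum_option] at htot
    have h4 : ∑ j : Fin k, Fintype.card {v // gJ h J (π v) = some j} = J.card * h := by
      rw [sum_congr rfl (fun j _ => hs j), sum_ite_mem, univ_inter, sum_const, smul_eq_mul]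
    rw [h4] at htot
    omega
  rw [h1, h2]

lemma card_fix {k h : ℕ} (J : Finset (Fin k)) (T : Fin k → Finset (Fin (k * h))) :
    (univ.filter fun π : Equiv.Perm (Fin (k * h)) =>
      (fun j => if j ∈ J then blk π j else ∅) = T).card
      ≤ h.factorial ^ J.card * (k * h - J.card * h).factorial := by
  classical
  by_cases hne : ∃ π₀ : Equiv.Perm (Fin (k * h)), (fun j => if j ∈ J then blk π₀ j else ∅) = T
  · obtain ⟨π₀, h0⟩ := hne
    rw [← prod_fact J π₀]
    refine le_trans (card_le_card ?_)
      (SetCoverMono.ModP.card_carry (fun v => gJ h J (π₀ v)) (gJ h J))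
    intro π hπ
    rw [mem_filter] at hπ ⊢
    refine ⟨mem_univ _, fun v => ?_⟩
    have h1 : ∀ j ∈ J, ∀ v, (col k h (π v) = j ↔ col k h (π₀ v) = j) := by
      intro j hj v
      have h2 := congrFun (hπ.2.trans h0.symm) j
      simp only [if_pos hj] at h2
      have h3 : v ∈ blk π j ↔ v ∈ blk π₀ j := by rw [h2]
      simpa [blk, cls] using h3
    simp only [gJ]
    by_cases hc : col k h (π v) ∈ J
    · have h2 := (h1 _ hc v).1 rfl
      rw [h2]
    · have hc0 : col k h (π₀ v) ∉ J := by
        intro hc'
        exact hc ((h1 _ hc' v).2 rfl ▸ hc')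
      rw [if_neg hc, if_neg hc0]
  · have : (univ.filter fun π : Equiv.Perm (Fin (k * h)) =>
        (fun j => if j ∈ J then blk π j else ∅) = T) = ∅ := by
      rw [filter_eq_empty_iff]
      intro π _ h
      exact hne ⟨π, h⟩
    rw [this, card_empty]
    exact Nat.zero_le _

/-- Row PLANT: the average over all permutations of a function of some planted sets. -/
theorem plant {k h : ℕ} (J : Finset (Fin k)) (Φ : (Fin k → Finset (Fin (k * h))) → ℝ)
    (hΦ : ∀ T, 0 ≤ Φ T) :
    ∑ π : Equiv.Perm (Fin (k * h)), Φ (fun j => if j ∈ J then blk π j else ∅) ≤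
      ((h.factorial ^ J.card * (k * h - J.card * h).factorial : ℕ) : ℝ) *
        ∑ T ∈ Fintype.piFinset fun j : Fin k => if j ∈ J then univ else {∅}, Φ T := by
  classical
  rw [← sum_fiberwise_of_maps_to (s := (univ : Finset (Equiv.Perm (Fin (k * h)))))
    (t := Fintype.piFinset fun j : Fin k => if j ∈ J then univ else {∅})
    (g := fun π j => if j ∈ J then blk π j else ∅) ?_, mul_sum]
  · refine sum_le_sum fun T _ => ?_
    have h1 : ∑ π ∈ univ.filter (fun π : Equiv.Perm (Fin (k * h)) =>
        (fun j => if j ∈ J then blk π j else ∅) = T),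
        Φ (fun j => if j ∈ J then blk π j else ∅)
        = ((univ.filter fun π : Equiv.Perm (Fin (k * h)) =>
          (fun j => if j ∈ J then blk π j else ∅) = T).card : ℝ) * Φ T := by
      rw [sum_congr rfl (fun π hπ => by rw [(mem_filter.1 hπ).2]), sum_const, nsmul_eq_mul]
    rw [h1]
    exact mul_le_mul_of_nonneg_right (Nat.cast_le.2 (card_fix J T)) (hΦ T)
  · intro π _
    rw [Fintype.mem_piFinset]
    intro j
    by_cases hj : j ∈ J
    · simp [hj]
    · simp [hj]

end SmallDepth
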