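import Pool.Agent.Lib.MP_8fffab_lc_AC.Rest

/-!
# Dependence sets and reachable sets

`fl G Q X` is the assignment `G`, changed on `Q` to the indicator function of `X`. The set
`dep v G Q` consists of the coordinates in `Q` on which `v` depends, for the assignments which agree
with `G` outside `Q`.
-/

open Finset

namespace SmallDepth

variable {Ω : Type} [DecidableEq Ω]

/-- The assignment `G`, changed on `Q` to the indicator function of `X`. -/
def fl (G : Ω → Bool) (Q X : Finset Ω) : Ω → Bool := fun S => if S ∈ Q then decide (S ∈ X) else G S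

/-- The coordinates in `Q` on which `v` depends. -/
noncomputable def dep (v : (Ω → Bool) → Prop) (G : Ω → Bool) (Q : Finset Ω) : Finset Ω := by
  classical exact Q.filter fun S => ∃ X ⊆ Q, ¬ (v (fl G Q X) ↔ v (fl G Q (insert S X)))

theorem mem_dep {v : (Ω → Bool) → Prop} {G : Ω → Bool} {Q : Finset Ω} {S : Ω} :
    S ∈ dep v G Q ↔ S ∈ Q ∧ ∃ X ⊆ Q, ¬ (v (fl G Q X) ↔ v (fl G Q (insert S X))) := by
  unfold dep
  classical exact mem_filter

theorem iff_of_not {p q b : Prop} (h1 : ¬ (p ↔ b)) (h2 : ¬ (p ↔ q)) : (q ↔ b) := by tauto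

theorem dep_subset (v : (Ω → Bool) → Prop) (G : Ω → Bool) (Q : Finset Ω) : dep v G Q ⊆ Q :=
  fun _ h => (mem_dep.1 h).1

theorem fl_inter (G : Ω → Bool) (Q X : Finset Ω) : fl G Q (X ∩ Q) = fl G Q X := by
  funext S
  unfold fl
  by_cases hS : S ∈ Q
  · simp [hS]
  · simp [hS]

/-- The value depends only on the intersection with the dependence set. -/
theorem dep_inter (v : (Ω → Bool) → Prop) (G : Ω → Bool) (Q : Finset Ω) (X D : Finset Ω)
    (hD : dep v G Q ⊆ D) : v (fl G Q X) ↔ v (fl G Q (X ∩ D)) := by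
  have key : ∀ n : ℕ, ∀ X : Finset Ω, X ⊆ Q → (X \ D).card = n →
      (v (fl G Q X) ↔ v (fl G Q (X ∩ D))) := by
    intro n
    induction n with
    | zero =>
      intro X _ h
      rw [card_eq_zero, sdiff_eq_empty_iff_subset] at h
      rw [inter_eq_left.2 h]
    | succ n ih =>
      intro X hX h
      obtain ⟨S, hS⟩ : (X \ D).Nonempty := card_pos.1 (by omega)
      have hSX := (mem_sdiff.1 hS).1
      have hSD := (mem_sdiff.1 hS).2
      have h1 : v (fl G Q (X.erase S)) ↔ v (fl G Q X) := by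
        by_contra hcon
        refine hSD (hD (mem_dep.2 ⟨hX hSX, X.erase S, (erase_subset _ _).trans hX, ?_⟩))
        rwa [insert_erase hSX]
      rw [← h1, ih (X.erase S) ((erase_subset _ _).trans hX)]
      · have : X.erase S ∩ D = X ∩ D := by
          ext T
          simp only [mem_inter, mem_erase]
          constructor
          · rintro ⟨⟨_, h2⟩, h3⟩; exact ⟨h2, h3⟩
          · rintro ⟨h2, h3⟩
            exact ⟨⟨fun e => hSD (e ▸ h3), h2⟩, h3⟩
        rw [this]
      · have : X.erase S \ D = (X \ D).erase S := by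
          ext T
          simp only [mem_sdiff, mem_erase]
          tauto
        rw [this, card_erase_of_mem hS, h]
        rfl
  have h1 := key _ (X ∩ Q) inter_subset_right rfl
  rw [fl_inter] at h1
  rw [h1]
  have : X ∩ Q ∩ D = (X ∩ D) ∩ Q := by
    ext T
    simp only [mem_inter]
    tauto
  rw [this, fl_inter]

section

variable {G : Ω → Bool} {P Q : Finset Ω}

theorem fl_eq (hG : ∀ S ∈ P, G S = false) (hQ : Q ⊆ P) {X : Finset Ω} (hX : X ⊆ Q) :
    fl G Q X = fl G P X := by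
  funext S
  unfold fl
  by_cases hS : S ∈ Q
  · simp [hS, hQ hS]
  · by_cases hSP : S ∈ P
    · have : S ∉ X := fun h => hS (hX h)
      simp [hS, hSP, this, hG S hSP]
    · simp [hS, hSP]

theorem dep_mono (hG : ∀ S ∈ P, G S = false) (hQ : Q ⊆ P) (v : (Ω → Bool) → Prop) :
    dep v G Q ⊆ dep v G P := by
  intro S hS
  obtain ⟨hSQ, X, hX, h⟩ := mem_dep.1 hS
  refine mem_dep.2 ⟨hQ hSQ, X, hX.trans hQ, ?_⟩
  rwa [← fl_eq hG hQ hX, ← fl_eq hG hQ (insert_subset hSQ hX)]

theorem dep_eq (hG : ∀ S ∈ P, G S = false) (hQ : Q ⊆ P) {v : (Ω → Bool) → Prop}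
    (hd : dep v G P ⊆ Q) : dep v G Q = dep v G P := by
  refine Subset.antisymm (dep_mono hG hQ v) fun S hS => ?_
  obtain ⟨hSP, X, hX, h⟩ := mem_dep.1 hS
  have hSQ := hd hS
  rw [dep_inter v G P X _ Subset.rfl, dep_inter v G P (insert S X) _ Subset.rfl] at h
  have h1 : insert S X ∩ dep v G P = insert S (X ∩ dep v G P) := by
    rw [insert_inter_of_mem hS]
  rw [h1] at h
  have h2 : X ∩ dep v G P ⊆ Q := inter_subset_right.trans hd
  refine mem_dep.2 ⟨hSQ, X ∩ dep v G P, h2, ?_⟩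
  rwa [fl_eq hG hQ h2, fl_eq hG hQ (insert_subset hSQ h2)]

end

/-- The first element `j` of `A` such that `v j x` has the value `b`. -/
noncomputable def fst (v : ℕ → (Ω → Bool) → Prop) (A : Finset ℕ) (b : Prop) (x : Ω → Bool) : ℕ :=
  sInf {j | j ∈ A ∧ (v j x ↔ b)}

omit [DecidableEq Ω] in
theorem fst_spec {v : ℕ → (Ω → Bool) → Prop} {A : Finset ℕ} {b : Prop} {x : Ω → Bool}
    (h : ∃ j ∈ A, (v j x ↔ b)) : fst v A b x ∈ A ∧ (v (fst v A b x) x ↔ b) :=
  Nat.sInf_mem (s := {j | j ∈ A ∧ (v j x ↔ b)}) h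

/-- Reachable sets. -/
inductive Reach (v : ℕ → (Ω → Bool) → Prop) (g : (Ω → Bool) → Prop) (A : Finset ℕ) (b : Prop)
    (G : Ω → Bool) (Q : Finset Ω) : ℕ → Finset Ω → Prop
  | zero : Reach v g A b G Q 0 ∅
  | step (n : ℕ) (U Z : Finset Ω) (h : Reach v g A b G Q n U) (hZ : Z ⊆ U ∪ dep g G Q)
      (hl : fst v A b (fl G Q Z) ∈ A) :
      Reach v g A b G Q (n + 1) (U ∪ dep (v (fst v A b (fl G Q Z))) G Q)

/-- A gate which depends on many coordinates, but whose predecessors depend on few coordinates,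
reaches a set of medium size. -/
theorem crossing {v : ℕ → (Ω → Bool) → Prop} {g : (Ω → Bool) → Prop} {A : Finset ℕ} {b : Prop}
    (hg : ∀ x, (g x ↔ b) ↔ ∃ j ∈ A, (v j x ↔ b)) {G : Ω → Bool} {P : Finset Ω}
    (hG : ∀ S ∈ P, G S = false) {t : Finset Ω → ℕ} (ht : ∀ U V, U ⊆ V → t U ≤ t V)
    (ht' : ∀ U V, t (U ∪ V) ≤ t U + t V) (ht0 : t ∅ = 0) {w : ℕ}
    (hA : ∀ j ∈ A, t (dep (v j) G P) ≤ w) (hw : w < t (dep g G P)) :
    ∃ Q ⊆ P, w < t Q ∧ t Q ≤ 2 * w ∧ ∃ n ≤ P.card, Reach v g A b G Q n Q := by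
  classical
  -- one step
  have step : ∀ (n : ℕ) (U : Finset Ω), U ⊆ P → n ≤ U.card → t U ≤ w →
      (∀ Q, U ⊆ Q → Q ⊆ P → Reach v g A b G Q n U) →
      ∃ U', U ⊂ U' ∧ U' ⊆ P ∧ t U' ≤ t U + w ∧
        ∀ Q, U' ⊆ Q → Q ⊆ P → Reach v g A b G Q (n + 1) U' := by
    intro n U hUP _ htU hR
    have hnot : ¬ dep g G P ⊆ U := fun h => by have := ht _ _ h; omega
    obtain ⟨e, he, heU⟩ := not_subset.1 hnot
    obtain ⟨X, hXP, hX⟩ : ∃ X ⊆ P, ¬ (g (fl G P (X ∩ U)) ↔ g (fl G P X)) := by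
      by_contra hcon
      push Not at hcon
      obtain ⟨heP, X, hX, h⟩ := mem_dep.1 he
      apply h
      rw [← hcon X hX, ← hcon (insert e X) (insert_subset heP hX), insert_inter_of_notMem heU]
    set Y := X ∩ U with hY
    -- a minimal `W`
    have hex : ∃ m : ℕ, ∃ W : Finset Ω, W ⊆ P ∧ Disjoint W U ∧ W.card = m ∧
        ¬ (g (fl G P Y) ↔ g (fl G P (Y ∪ W))) := by
      refine ⟨_, X \ U, sdiff_subset.trans hXP, sdiff_disjoint, rfl, ?_⟩
      have : Y ∪ X \ U = X := by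
        rw [hY, union_comm]
        exact sdiff_union_inter X U
      rwa [this]
    obtain ⟨W, hWP, hWU, hWc, hW⟩ := Nat.find_spec hex
    have hmin : ∀ W', W' ⊂ W → (g (fl G P Y) ↔ g (fl G P (Y ∪ W'))) := by
      intro W' hW'
      by_contra hcon
      have h1 := card_lt_card hW'
      rw [hWc] at h1
      exact Nat.find_min hex h1 ⟨W', hW'.1.trans hWP, disjoint_of_subset_left hW'.1 hWU, rfl, hcon⟩
    have hYU : Y ⊆ U := inter_subset_right
    have hYP : Y ⊆ P := hYU.trans hUP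
    -- the conclusion from a good child
    have fin : ∀ Z : Finset Ω, Z ⊆ P → fst v A b (fl G P Z) ∈ A →
        (∃ e' ∈ dep (v (fst v A b (fl G P Z))) G P, e' ∉ U) →
        (∀ Q, U ∪ dep (v (fst v A b (fl G P Z))) G P ⊆ Q → Q ⊆ P → Z ⊆ U ∪ dep g G Q) →
        ∃ U', U ⊂ U' ∧ U' ⊆ P ∧ t U' ≤ t U + w ∧
          ∀ Q, U' ⊆ Q → Q ⊆ P → Reach v g A b G Q (n + 1) U' := by
      rintro Z hZP hl ⟨e', he', heU'⟩ hZ
      refine ⟨U ∪ dep (v (fst v A b (fl G P Z))) G P, ?_, ?_, ?_, ?_⟩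
      · refine ⟨subset_union_left, fun h => heU' (h (mem_union_right _ he'))⟩
      · exact union_subset hUP (dep_subset _ _ _)
      · exact (ht' _ _).trans (Nat.add_le_add_left (hA _ hl) _)
      · intro Q hQ hQP
        have hZQ := hZ Q hQ hQP
        have hZQ' : Z ⊆ Q := hZQ.trans
          (union_subset (subset_union_left.trans hQ) (dep_subset _ _ _))
        have h1 : fl G Q Z = fl G P Z := fl_eq hG hQP hZQ'
        have h2 := Reach.step (v := v) (g := g) (A := A) (b := b) (G := G) (Q := Q) n U Z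
          (hR Q (subset_union_left.trans hQ) hQP) hZQ (by rw [h1]; exact hl)
        rw [h1] at h2
        rwa [dep_eq hG hQP (subset_union_right.trans hQ)] at h2
    by_cases hb : g (fl G P Y) ↔ b
    · -- the base point has the value `b`
      have h1 := (hg _).1 hb
      obtain ⟨hlA, hlb⟩ := fst_spec h1
      have h2 : ¬ (g (fl G P (Y ∪ W)) ↔ b) := fun h => hW (hb.trans h.symm)
      have h3 : ¬ (v (fst v A b (fl G P Y)) (fl G P (Y ∪ W)) ↔ b) := fun h =>
        h2 ((hg _).2 ⟨_, hlA, h⟩)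
      refine fin Y hYP hlA ?_ fun Q _ _ => hYU.trans subset_union_left
      by_contra hcon
      push Not at hcon
      have h4 := dep_inter (v (fst v A b (fl G P Y))) G P (Y ∪ W) U hcon
      have h5 : (Y ∪ W) ∩ U = Y := by
        rw [union_inter_distrib_right, inter_eq_left.2 hYU, disjoint_iff_inter_eq_empty.1 hWU,
          union_empty]
      rw [h5] at h4
      exact h3 (h4.trans hlb)
    · -- the base point does not have the value `b`
      have h1 : g (fl G P (Y ∪ W)) ↔ b := iff_of_not hb hW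
      obtain ⟨hlA, hlb⟩ := fst_spec ((hg _).1 h1)
      have h2 : ∀ e' ∈ W, Y ∪ W.erase e' ⊆ P ∧ insert e' (Y ∪ W.erase e') = Y ∪ W ∧
          ¬ (g (fl G P (Y ∪ W.erase e')) ↔ b) := by
        intro e' he'
        refine ⟨union_subset hYP ((erase_subset _ _).trans hWP), ?_, ?_⟩
        · rw [← union_insert, insert_erase he']
        · intro h
          exact hb ((hmin _ (erase_ssubset he')).trans h)
      have h3 : ∀ e' ∈ W, e' ∈ dep (v (fst v A b (fl G P (Y ∪ W)))) G P := by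
        intro e' he'
        obtain ⟨h4, h5, h6⟩ := h2 e' he'
        refine mem_dep.2 ⟨hWP he', Y ∪ W.erase e', h4, ?_⟩
        rw [h5]
        intro h
        exact h6 ((hg _).2 ⟨_, hlA, h.trans hlb⟩)
      have hWne : W.Nonempty := by
        rw [nonempty_iff_ne_empty]
        rintro rfl
        rw [union_empty] at hW
        exact hW Iff.rfl
      obtain ⟨e₀, he₀⟩ := hWne
      refine fin (Y ∪ W) (union_subset hYP hWP) hlA
        ⟨e₀, h3 e₀ he₀, fun h => (disjoint_left.1 hWU) he₀ h⟩ ?_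
      intro Q hQ hQP
      refine union_subset (hYU.trans subset_union_left) fun e' he' => mem_union_right _ ?_
      obtain ⟨h4, h5, h6⟩ := h2 e' he'
      have hWQ : W ⊆ Q := fun x hx => hQ (mem_union_right _ (h3 x hx))
      have hYQ : Y ⊆ Q := (hYU.trans subset_union_left).trans hQ
      have h7 : Y ∪ W.erase e' ⊆ Q := union_subset hYQ ((erase_subset _ _).trans hWQ)
      refine mem_dep.2 ⟨hWQ he', Y ∪ W.erase e', h7, ?_⟩
      rw [h5, fl_eq hG hQP h7, fl_eq hG hQP (union_subset hYQ hWQ)]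
      intro h
      exact h6 (h.trans h1)
  -- iterate
  have iter : ∀ N : ℕ, ∀ (n : ℕ) (U : Finset Ω), P.card - U.card = N → U ⊆ P → n ≤ U.card →
      t U ≤ w → (∀ Q, U ⊆ Q → Q ⊆ P → Reach v g A b G Q n U) →
      ∃ Q ⊆ P, w < t Q ∧ t Q ≤ 2 * w ∧ ∃ n ≤ P.card, Reach v g A b G Q n Q := by
    intro N
    induction N using Nat.strong_induction_on with
    | _ N ih =>
    intro n U hN hUP hn htU hR
    obtain ⟨U', hUU', hU'P, htU', hR'⟩ := step n U hUP hn htU hR
    have hc := card_lt_card hUU'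
    have hc' := card_le_card hU'P
    rcases Nat.lt_or_ge w (t U') with h | h
    · exact ⟨U', hU'P, h, by omega, n + 1, by omega, hR' U' Subset.rfl hU'P⟩
    · exact ih (P.card - U'.card) (by omega) (n + 1) U' rfl hU'P (by omega) h hR'
  exact iter _ 0 ∅ rfl (empty_subset _) (Nat.zero_le _) (by omega) fun Q _ _ => Reach.zero

/-- The same for a gate which is an arbitrary function of few gates. -/
theorem crossing_fun {v : ℕ → (Ω → Bool) → Prop} {g : (Ω → Bool) → Prop} {A : Finset ℕ}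
    (hg : ∀ x y, (∀ j ∈ A, (v j x ↔ v j y)) → (g x ↔ g y)) {G : Ω → Bool} {P : Finset Ω}
    (hG : ∀ S ∈ P, G S = false) {t : Finset Ω → ℕ} (ht : ∀ U V, U ⊆ V → t U ≤ t V)
    (ht' : ∀ U V, t (U ∪ V) ≤ t U + t V) (ht0 : t ∅ = 0) {w : ℕ}
    (hA : ∀ j ∈ A, t (dep (v j) G P) ≤ w) (hw : w < t (dep g G P)) :
    ∃ Q ⊆ P, w < t Q ∧ t Q ≤ 2 * w ∧ Q ⊆ A.biUnion fun j => dep (v j) G Q := by
  classical
  have h1 : dep g G P ⊆ A.biUnion fun j => dep (v j) G P := by
    intro S hS
    obtain ⟨hSP, X, hX, h⟩ := mem_dep.1 hS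
    by_contra hcon
    rw [mem_biUnion] at hcon
    push Not at hcon
    refine h (hg _ _ fun j hj => ?_)
    by_contra h2
    exact hcon j hj (mem_dep.2 ⟨hSP, X, hX, h2⟩)
  have hex : ∃ m : ℕ, ∃ A' ⊆ A, A'.card = m ∧ w < t (A'.biUnion fun j => dep (v j) G P) :=
    ⟨_, A, Subset.rfl, rfl, hw.trans_le (ht _ _ h1)⟩
  obtain ⟨A', hA', hc, hw'⟩ := Nat.find_spec hex
  have hne : A'.Nonempty := by
    rw [nonempty_iff_ne_empty]
    rintro rfl
    rw [biUnion_empty, ht0] at hw'
    omega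
  obtain ⟨j, hj⟩ := hne
  have h2 : t ((A'.erase j).biUnion fun j => dep (v j) G P) ≤ w := by
    by_contra hcon
    push Not at hcon
    have h3 : (A'.erase j).card < Nat.find hex := by
      rw [← hc]
      exact card_lt_card (erase_ssubset hj)
    exact Nat.find_min hex h3 ⟨_, (erase_subset _ _).trans hA', rfl, hcon⟩
  have h3 : (A'.biUnion fun j => dep (v j) G P) =
      (A'.erase j).biUnion (fun j => dep (v j) G P) ∪ dep (v j) G P := by
    conv_lhs => rw [← insert_erase hj]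
    rw [biUnion_insert, union_comm]
  set Q := A'.biUnion fun j => dep (v j) G P with hQ
  have hQP : Q ⊆ P := by
    rw [hQ, biUnion_subset]
    exact fun j _ => dep_subset _ _ _
  refine ⟨Q, hQP, hw', ?_, ?_⟩
  · rw [h3]
    have := ht' ((A'.erase j).biUnion fun j => dep (v j) G P) (dep (v j) G P)
    have := hA j (hA' hj)
    omega
  · intro S hS
    rw [hQ, mem_biUnion] at hS
    obtain ⟨l, hl, hSl⟩ := hS
    rw [mem_biUnion]
    refine ⟨l, hA' hl, ?_⟩
    rw [dep_eq hG hQP]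
    · exact hSl
    · exact subset_biUnion_of_mem (fun j => dep (v j) G P) hl

end SmallDepth
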