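import Pool.Agent.Lib.MP_8fffab_lc_AC.Level
import Pool.Agent.Lib.MP_8fffab_lc_AC.Reach
import Pool.Agent.Lib.MP_8fffab_lc_MC.End

/-!
# The planted instances

A unit `(j, A)` consists of a type `j` and a set `A` of points of `Fin (k * h)`. It has two
coordinates: `((j, A), false)` says whether it is present, and `((j, A), true)` is its state.
The planted units are `(j, blk π j)`.
-/

open Finset

namespace SmallDepth

open SetCoverMono (col)

/-- Units. -/
abbrev Un (k h : ℕ) := Fin k × Finset (Fin (k * h))

/-- Coordinates. -/
abbrev Cd (k h : ℕ) := Un k h × Bool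

/-- The class `i` of the colouring `c`. -/
def cls {k h : ℕ} (c : Fin (k * h) → Fin k) (i : Fin k) : Finset (Fin (k * h)) :=
  univ.filter fun v => c v = i

/-- The planted set of type `j`. -/
def blk {k h : ℕ} (π : Equiv.Perm (Fin (k * h))) (j : Fin k) : Finset (Fin (k * h)) :=
  cls (fun v => col k h (π v)) j

/-- The coordinates of the planted units. -/
def Ph {k h : ℕ} (π : Equiv.Perm (Fin (k * h))) : Finset (Cd k h) :=
  univ.image fun e : Fin k × Bool => ((e.1, blk π e.1), e.2)

/-- The planted units are present and have the states `x`. -/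
def Xs {k h : ℕ} (π : Equiv.Perm (Fin (k * h))) (x : Fin k → Bool) : Finset (Cd k h) :=
  (Ph π).filter fun e => e.2 = true → x e.1.1 = true

/-- Number of units with a coordinate in `U`. -/
def touch {k h : ℕ} (U : Finset (Cd k h)) : ℕ := (U.image fun e => e.1).card

/-- There is a partition of the points into classes of `h` elements, of some types, all of them
planted or present in `G`, not all of them planted. -/
def Extra {k h : ℕ} (G : Cd k h → Bool) (π : Equiv.Perm (Fin (k * h))) : Prop :=
  ∃ (τ : Fin k → Fin k) (c : Fin (k * h) → Fin k), (∀ i, (cls c i).card = h) ∧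
    (∀ i, cls c i = blk π (τ i) ∨ G ((τ i, cls c i), false) = true) ∧
    ∃ i, cls c i ≠ blk π (τ i)

end SmallDepth
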