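import Mathlib

/-!
# Random restrictions

A restriction fixes some coordinates of `Ω → Bool` and leaves the other ones free. The coordinates
are independent: `S` is free with probability `q S`, true with probability `p S`, false with
probability `1 - q S - p S`.
-/

open Finset

namespace SmallDepth

/-- The number `1` if `P` is true and `0` if not. -/
noncomputable def ind (P : Prop) : ℝ := by
  classical exact if P then 1 else 0

theorem ind_true {P : Prop} (h : P) : ind P = 1 := by unfold ind; simp [h]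

theorem ind_false {P : Prop} (h : ¬ P) : ind P = 0 := by unfold ind; simp [h]

theorem ind_nonneg (P : Prop) : 0 ≤ ind P := by
  by_cases h : P
  · rw [ind_true h]; exact zero_le_one
  · rw [ind_false h]

theorem ind_le_one (P : Prop) : ind P ≤ 1 := by
  by_cases h : P
  · rw [ind_true h]
  · rw [ind_false h]; exact zero_le_one

theorem ind_mono {P Q : Prop} (h : P → Q) : ind P ≤ ind Q := by
  by_cases hP : P
  · rw [ind_true hP, ind_true (h hP)]
  · rw [ind_false hP]; exact ind_nonneg Q

theorem ind_or_le (P Q : Prop) : ind (P ∨ Q) ≤ ind P + ind Q := by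
  by_cases hP : P
  · rw [ind_true (Or.inl hP), ind_true hP]; linarith [ind_nonneg Q]
  · by_cases hQ : Q
    · rw [ind_true (Or.inr hQ), ind_true hQ]; linarith [ind_nonneg P]
    · rw [ind_false (by tauto), ind_false hP, ind_false hQ]; simp

theorem ind_and (P Q : Prop) : ind (P ∧ Q) = ind P * ind Q := by
  by_cases hP : P
  · by_cases hQ : Q
    · rw [ind_true ⟨hP, hQ⟩, ind_true hP, ind_true hQ]; simp
    · rw [ind_false (fun h => hQ h.2), ind_false hQ]; simp
  · rw [ind_false (fun h => hP h.1), ind_false hP]; simp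

theorem ind_exists_le {α : Type*} (s : Finset α) (P : α → Prop) :
    ind (∃ a ∈ s, P a) ≤ ∑ a ∈ s, ind (P a) := by
  by_cases h : ∃ a ∈ s, P a
  · obtain ⟨a, ha, hP⟩ := h
    rw [ind_true ⟨a, ha, hP⟩, ← ind_true hP]
    exact single_le_sum (f := fun a => ind (P a)) (fun a _ => ind_nonneg _) ha
  · rw [ind_false h]; exact sum_nonneg fun a _ => ind_nonneg _

/-- A restriction: `some b` is a fixed coordinate, `none` is a free one. -/
abbrev Restr (Ω : Type) := Ω → Option Bool

variable {Ω : Type}

/-- The assignment `x` at the free coordinates. -/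
def ap (ρ : Restr Ω) (x : Ω → Bool) : Ω → Bool := fun S => (ρ S).getD (x S)

/-- The restricted function. -/
def res (ρ : Restr Ω) (g : (Ω → Bool) → Prop) : (Ω → Bool) → Prop := fun x => g (ap ρ x)

/-- First `ρ₁`, then `ρ₂` for the coordinates which are free in `ρ₁`. -/
def comp (ρ₁ ρ₂ : Restr Ω) : Restr Ω := fun S => (ρ₁ S).elim (ρ₂ S) some

/-- The true coordinates. -/
def tr (ρ : Restr Ω) : Ω → Bool := fun S => decide (ρ S = some true)

theorem ap_comp (ρ₁ ρ₂ : Restr Ω) (x : Ω → Bool) : ap (comp ρ₁ ρ₂) x = ap ρ₁ (ap ρ₂ x) := by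
  funext S
  unfold ap comp
  cases ρ₁ S <;> simp

theorem res_comp (ρ₁ ρ₂ : Restr Ω) (g : (Ω → Bool) → Prop) :
    res (comp ρ₁ ρ₂) g = res ρ₂ (res ρ₁ g) := by
  funext x
  simp only [res, ap_comp]

/-- The weight of the value `a` of a restriction at a coordinate. -/
def lw (q p : ℝ) : Option Bool → ℝ
  | none => q
  | some true => p
  | some false => 1 - q - p

theorem sum_lw (q p : ℝ) : ∑ a, lw q p a = 1 := by
  rw [Fintype.sum_option, Fintype.sum_bool]
  simp only [lw]
  ring

theorem sum_lw_mul (q p : ℝ) (f : Option Bool → ℝ) :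
    ∑ a, lw q p a * f a = q * f none + p * f (some true) + (1 - q - p) * f (some false) := by
  rw [Fintype.sum_option, Fintype.sum_bool]
  simp only [lw]
  ring

theorem lw_nonneg {q p : ℝ} (hq : 0 ≤ q) (hp : 0 ≤ p) (hqp : q + p ≤ 1) (a : Option Bool) :
    0 ≤ lw q p a := by
  rcases a with _ | _ | _ <;> simp only [lw] <;> linarith

variable [Fintype Ω]

/-- The expectation of `F` for a random restriction. -/
noncomputable def Ex (q p : Ω → ℝ) (F : Restr Ω → ℝ) : ℝ := by
  classical exact ∑ ρ : Restr Ω, (∏ S, lw (q S) (p S) (ρ S)) * F ρ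

section

variable {q p : Ω → ℝ}

theorem Ex_one : Ex q p (fun _ : Restr Ω => (1 : ℝ)) = 1 := by
  classical
  unfold Ex
  simp only [mul_one]
  have h := Finset.prod_univ_sum (fun _ : Ω => (univ : Finset (Option Bool)))
    (fun S a => lw (q S) (p S) a)
  simp only [sum_lw, prod_const_one, Fintype.piFinset_univ] at h
  rw [h]

theorem Ex_congr {F G : Restr Ω → ℝ} (h : ∀ ρ, F ρ = G ρ) : Ex q p F = Ex q p G := by
  rw [show F = G from funext h]

theorem Ex_add (F G : Restr Ω → ℝ) : Ex q p (fun ρ => F ρ + G ρ) = Ex q p F + Ex q p G := by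
  unfold Ex
  simp only [mul_add, sum_add_distrib]

theorem Ex_mul (c : ℝ) (F : Restr Ω → ℝ) : Ex q p (fun ρ => c * F ρ) = c * Ex q p F := by
  unfold Ex
  rw [mul_sum]
  exact sum_congr rfl fun ρ _ => by ring

theorem Ex_const (c : ℝ) : Ex q p (fun _ : Restr Ω => c) = c := by
  have := Ex_mul (q := q) (p := p) (Ω := Ω) c (fun _ => 1)
  simpa [Ex_one] using this

theorem Ex_sum {α : Type*} (s : Finset α) (F : α → Restr Ω → ℝ) :
    Ex q p (fun ρ => ∑ a ∈ s, F a ρ) = ∑ a ∈ s, Ex q p (F a) := by
  unfold Ex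
  rw [sum_comm]
  exact sum_congr rfl fun ρ _ => by rw [mul_sum]

theorem Ex_mono (hq : ∀ S, 0 ≤ q S) (hp : ∀ S, 0 ≤ p S) (hqp : ∀ S, q S + p S ≤ 1) {F G : Restr Ω → ℝ}
    (h : ∀ ρ, F ρ ≤ G ρ) : Ex q p F ≤ Ex q p G :=
  sum_le_sum fun ρ _ =>
    mul_le_mul_of_nonneg_left (h ρ) (prod_nonneg fun S _ => lw_nonneg (hq S) (hp S) (hqp S) _)

theorem Ex_nonneg (hq : ∀ S, 0 ≤ q S) (hp : ∀ S, 0 ≤ p S) (hqp : ∀ S, q S + p S ≤ 1) {F : Restr Ω → ℝ}
    (h : ∀ ρ, 0 ≤ F ρ) : 0 ≤ Ex q p F :=
  sum_nonneg fun ρ _ => mul_nonneg (prod_nonneg fun S _ => lw_nonneg (hq S) (hp S) (hqp S) _) (h ρ)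

theorem Ex_le_one (hq : ∀ S, 0 ≤ q S) (hp : ∀ S, 0 ≤ p S) (hqp : ∀ S, q S + p S ≤ 1) {F : Restr Ω → ℝ}
    (h : ∀ ρ, F ρ ≤ 1) : Ex q p F ≤ 1 := by
  rw [← Ex_one (Ω := Ω) (q := q) (p := p)]
  exact Ex_mono hq hp hqp h

/-- Resampling one coordinate. -/
theorem Ex_update [DecidableEq Ω] (S : Ω) (F : Restr Ω → ℝ) :
    Ex q p F = ∑ a, lw (q S) (p S) a * Ex q p (fun ρ => F (Function.update ρ S a)) := by
  classical
  have key : ∀ H : Restr Ω → ℝ, Ex q p H = ∑ a, ∑ r : {j // j ≠ S} → Option Bool,
      lw (q S) (p S) a * (∏ j : {j // j ≠ S}, lw (q j) (p j) (r j)) *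
        H ((Equiv.funSplitAt S (Option Bool)).symm (a, r)) := by
    intro H
    unfold Ex
    rw [← Fintype.sum_prod_type' fun (a : Option Bool) (r : {j // j ≠ S} → Option Bool) =>
      lw (q S) (p S) a * (∏ j : {j // j ≠ S}, lw (q j) (p j) (r j)) *
        H ((Equiv.funSplitAt S (Option Bool)).symm (a, r))]
    rw [← Equiv.sum_comp (Equiv.funSplitAt S (Option Bool))]
    apply sum_congr
    · ext; simp
    · intro ρ _
      rw [Equiv.symm_apply_apply]
      have h1 : ∏ T, lw (q T) (p T) (ρ T) =
          lw (q S) (p S) (ρ S) * ∏ j : {j // j ≠ S}, lw (q j) (p j) (ρ j) := by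
        rw [← mul_prod_erase univ (fun T => lw (q T) (p T) (ρ T)) (mem_univ S)]
        congr 1
        refine (prod_subtype (univ.erase S) (p := fun T => T ≠ S) (fun T => by simp) _)
      rw [h1]
      rfl
  rw [key F]
  refine sum_congr rfl fun a _ => ?_
  rw [key]
  have h2 : ∀ (b : Option Bool) (r : {j // j ≠ S} → Option Bool),
      Function.update ((Equiv.funSplitAt S (Option Bool)).symm (b, r)) S a =
        (Equiv.funSplitAt S (Option Bool)).symm (a, r) := by
    intro b r
    funext T
    by_cases hT : T = S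
    · subst hT; simp [Equiv.funSplitAt, Equiv.piSplitAt]
    · simp [Equiv.funSplitAt, Equiv.piSplitAt, hT]
  simp only [h2]
  rw [sum_comm]
  have h3 : ∀ r : {j // j ≠ S} → Option Bool,
      ∑ b, lw (q S) (p S) b * (∏ j : {j // j ≠ S}, lw (q j) (p j) (r j)) *
      F ((Equiv.funSplitAt S (Option Bool)).symm (a, r)) = (∏ j : {j // j ≠ S}, lw (q j) (p j) (r j)) *
      F ((Equiv.funSplitAt S (Option Bool)).symm (a, r)) := by
    intro r
    simp only [mul_assoc]
    rw [← sum_mul, sum_lw, one_mul]
  simp only [h3]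
  rw [mul_sum]
  exact sum_congr rfl fun r _ => by ring

/-- Resampling one coordinate, in expanded form. -/
theorem Ex_update' [DecidableEq Ω] (S : Ω) (F : Restr Ω → ℝ) :
    Ex q p F = q S * Ex q p (fun ρ => F (Function.update ρ S none)) +
      p S * Ex q p (fun ρ => F (Function.update ρ S (some true))) +
      (1 - q S - p S) * Ex q p (fun ρ => F (Function.update ρ S (some false))) := by
  rw [Ex_update S F, sum_lw_mul]

/-- Independence: the coordinates in `Q` are free and `F` does not depend on them. -/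
theorem Ex_free [DecidableEq Ω] (Q : Finset Ω) (F : Restr Ω → ℝ)
    (hF : ∀ S ∈ Q, ∀ ρ a, F (Function.update ρ S a) = F ρ) :
    Ex q p (fun ρ => ind (∀ S ∈ Q, ρ S = none) * F ρ) = (∏ S ∈ Q, q S) * Ex q p F := by
  induction Q using Finset.induction_on with
  | empty =>
    simp only [prod_empty, one_mul]
    exact Ex_congr fun ρ => by rw [ind_true (by simp), one_mul]
  | insert S Q hS ih =>
    rw [Ex_update' S]
    have h1 : ∀ b : Bool, Ex q p (fun ρ => ind (∀ T ∈ insert S Q,
        Function.update ρ S (some b) T = none) * F (Function.update ρ S (some b))) = 0 := by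
      intro b
      rw [← Ex_const (q := q) (p := p) (Ω := Ω) 0]
      refine Ex_congr fun ρ => ?_
      rw [ind_false, zero_mul]
      intro h
      have := h S (mem_insert_self S Q)
      simp at this
    rw [h1, h1]
    have h2 : Ex q p (fun ρ => ind (∀ T ∈ insert S Q, Function.update ρ S none T = none) *
        F (Function.update ρ S none)) = Ex q p (fun ρ => ind (∀ T ∈ Q, ρ T = none) * F ρ) := by
      refine Ex_congr fun ρ => ?_
      rw [hF S (mem_insert_self S Q)]
      congr 2
      apply propext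
      constructor
      · intro h T hT
        have := h T (mem_insert_of_mem hT)
        rwa [Function.update_of_ne (ne_of_mem_of_not_mem hT hS)] at this
      · intro h T hT
        by_cases hTS : T = S
        · subst hTS; simp
        · rw [Function.update_of_ne hTS]
          exact h T (mem_of_mem_insert_of_ne hT hTS)
    rw [h2, ih fun T hT => hF T (mem_insert_of_mem hT), prod_insert hS]
    ring

/-- All coordinates in `Q` are true. -/
theorem Ex_true [DecidableEq Ω] (Q : Finset Ω) :
    Ex q p (fun ρ => ind (∀ S ∈ Q, ρ S = some true)) = ∏ S ∈ Q, p S := by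
  induction Q using Finset.induction_on with
  | empty =>
    rw [prod_empty, ← Ex_one (q := q) (p := p) (Ω := Ω)]
    exact Ex_congr fun ρ => by rw [ind_true (by simp)]
  | insert S Q hS ih =>
    rw [Ex_update' S]
    have h1 : ∀ a : Option Bool, a ≠ some true → Ex q p (fun ρ => ind (∀ T ∈ insert S Q,
        Function.update ρ S a T = some true)) = 0 := by
      intro a ha
      rw [← Ex_const (q := q) (p := p) (Ω := Ω) 0]
      refine Ex_congr fun ρ => ?_
      rw [ind_false]
      intro h
      have := h S (mem_insert_self S Q)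
      rw [Function.update_self] at this
      exact ha this
    rw [h1 none (by simp), h1 (some false) (by simp)]
    have h2 : Ex q p (fun ρ => ind (∀ T ∈ insert S Q,
        Function.update ρ S (some true) T = some true)) =
        Ex q p (fun ρ => ind (∀ T ∈ Q, ρ T = some true)) := by
      refine Ex_congr fun ρ => ?_
      congr 1
      apply propext
      constructor
      · intro h T hT
        have := h T (mem_insert_of_mem hT)
        rwa [Function.update_of_ne (ne_of_mem_of_not_mem hT hS)] at this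
      · intro h T hT
        by_cases hTS : T = S
        · subst hTS; simp
        · rw [Function.update_of_ne hTS]
          exact h T (mem_of_mem_insert_of_ne hT hTS)
    rw [h2, ih, prod_insert hS]
    ring

/-- No coordinate in `Q` is true. -/
theorem Ex_ne_true [DecidableEq Ω] (Q : Finset Ω) :
    Ex q p (fun ρ => ind (∀ S ∈ Q, ρ S ≠ some true)) = ∏ S ∈ Q, (1 - p S) := by
  induction Q using Finset.induction_on with
  | empty =>
    rw [prod_empty, ← Ex_one (q := q) (p := p) (Ω := Ω)]
    exact Ex_congr fun ρ => by rw [ind_true (by simp)]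
  | insert S Q hS ih =>
    rw [Ex_update' S]
    have h1 : Ex q p (fun ρ => ind (∀ T ∈ insert S Q,
        Function.update ρ S (some true) T ≠ some true)) = 0 := by
      rw [← Ex_const (q := q) (p := p) (Ω := Ω) 0]
      refine Ex_congr fun ρ => ?_
      rw [ind_false]
      intro h
      exact h S (mem_insert_self S Q) (Function.update_self _ _ _)
    have h2 : ∀ a : Option Bool, a ≠ some true → Ex q p (fun ρ => ind (∀ T ∈ insert S Q,
        Function.update ρ S a T ≠ some true)) =
        Ex q p (fun ρ => ind (∀ T ∈ Q, ρ T ≠ some true)) := by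
      intro a ha
      refine Ex_congr fun ρ => ?_
      congr 1
      apply propext
      constructor
      · intro h T hT
        have := h T (mem_insert_of_mem hT)
        rwa [Function.update_of_ne (ne_of_mem_of_not_mem hT hS)] at this
      · intro h T hT
        by_cases hTS : T = S
        · subst hTS; rw [Function.update_self]; exact ha
        · rw [Function.update_of_ne hTS]
          exact h T (mem_of_mem_insert_of_ne hT hTS)
    rw [h1, h2 none (by simp), h2 (some false) (by simp), ih, prod_insert hS]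
    ring

/-- Composition of two random restrictions. -/
theorem Ex_comp {q₁ p₁ q₂ p₂ : Ω → ℝ} (F : Restr Ω → ℝ) :
    Ex q₁ p₁ (fun ρ₁ => Ex q₂ p₂ (fun ρ₂ => F (comp ρ₁ ρ₂))) =
      Ex (fun S => q₁ S * q₂ S) (fun S => p₁ S + q₁ S * p₂ S) F := by
  classical
  have hlw : ∀ (S : Ω) (a : Option Bool), ∑ x : Option Bool × Option Bool with
      x.1.elim x.2 some = a, lw (q₁ S) (p₁ S) x.1 * lw (q₂ S) (p₂ S) x.2 =
        lw (q₁ S * q₂ S) (p₁ S + q₁ S * p₂ S) a := by
    intro S a
    have h1 : (univ : Finset (Option Bool × Option Bool)) = univ ×ˢ univ := rfl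
    rw [sum_filter, h1, sum_product]
    simp only [Fintype.sum_option, Fintype.sum_bool, Option.elim_none, Option.elim_some]
    rcases a with _ | _ | _ <;> simp [lw] <;> ring
  have hprod : ∀ ρ : Restr Ω, ∏ S, lw (q₁ S * q₂ S) (p₁ S + q₁ S * p₂ S) (ρ S) =
      ∑ z : Restr Ω × Restr Ω with comp z.1 z.2 = ρ,
        (∏ S, lw (q₁ S) (p₁ S) (z.1 S)) * ∏ S, lw (q₂ S) (p₂ S) (z.2 S) := by
    intro ρ
    simp only [← hlw]
    rw [Finset.prod_univ_sum]
    refine sum_bij' (i := fun z _ => (fun S => (z S).1, fun S => (z S).2))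
      (j := fun z _ => fun S => (z.1 S, z.2 S)) ?_ ?_ ?_ ?_ ?_
    · intro z hz
      rw [Fintype.mem_piFinset] at hz
      simp only [mem_filter, mem_univ, true_and] at hz ⊢
      funext S
      exact hz S
    · intro z hz
      rw [Fintype.mem_piFinset]
      simp only [mem_filter, mem_univ, true_and] at hz ⊢
      intro S
      exact congrFun hz S
    · intro z _; rfl
    · intro z _; rfl
    · intro z _
      rw [prod_mul_distrib]
  unfold Ex
  simp only [mul_sum, hprod, sum_mul]
  have h2 : ∀ ρ : Restr Ω, ∑ z : Restr Ω × Restr Ω with comp z.1 z.2 = ρ,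
      (∏ S, lw (q₁ S) (p₁ S) (z.1 S)) * (∏ S, lw (q₂ S) (p₂ S) (z.2 S)) * F ρ =
      ∑ z : Restr Ω × Restr Ω with comp z.1 z.2 = ρ,
      (∏ S, lw (q₁ S) (p₁ S) (z.1 S)) * (∏ S, lw (q₂ S) (p₂ S) (z.2 S)) * F (comp z.1 z.2) := by
    intro ρ
    refine sum_congr rfl fun z hz => ?_
    rw [(mem_filter.1 hz).2]
  simp only [h2]
  rw [sum_fiberwise (s := univ) (g := fun z : Restr Ω × Restr Ω => comp z.1 z.2)
    (f := fun z => (∏ S, lw (q₁ S) (p₁ S) (z.1 S)) * (∏ S, lw (q₂ S) (p₂ S) (z.2 S)) * F (comp z.1 z.2))]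
  rw [← Fintype.sum_prod_type' (fun ρ₁ ρ₂ : Restr Ω =>
    (∏ S, lw (q₁ S) (p₁ S) (ρ₁ S)) * ((∏ S, lw (q₂ S) (p₂ S) (ρ₂ S)) * F (comp ρ₁ ρ₂)))]
  refine sum_congr rfl fun z _ => by ring

end

end SmallDepth
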