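import Pool.Agent.Lib.MP_8fffab_lc_AC.Plan

/-!
# The threshold gate, and the dependence sets of all gates
-/

open Finset

namespace SmallDepth

section events

variable {ι Ω : Type} [DecidableEq Ω]

/-- The predecessors of a gate, as natural numbers. -/
def kids {i : ℕ} (S : Finset (Fin i)) : Finset ℕ := S.image fun b : Fin i => (b : ℕ)

/-- The gate number `i` reaches the set `Q`. -/
def Ev (C : Circuit ι) (a : (Ω → Bool) → ι → Prop) (K : ℕ) (G : Ω → Bool) (Q : Finset Ω)
    (i : ℕ) : Prop :=
  match C i with
  | .input _ => False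
  | .not _ => False
  | .and S => ∃ n ≤ K, Reach (gv C a) (gv C a i) (kids S) False G Q n Q
  | .or S => ∃ n ≤ K, Reach (gv C a) (gv C a i) (kids S) True G Q n Q
  | .other _ w _ => Q ⊆ (kids (univ.image w)).biUnion fun j => dep (gv C a j) G Q

theorem mem_kids {i : ℕ} {S : Finset (Fin i)} {j : ℕ} :
    j ∈ kids S ↔ ∃ b ∈ S, (b : ℕ) = j := by
  unfold kids
  rw [mem_image]

theorem dep_not (v : (Ω → Bool) → Prop) (G : Ω → Bool) (Q : Finset Ω) :
    dep (fun x => ¬ v x) G Q = dep v G Q := by
  ext S
  rw [mem_dep, mem_dep]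
  simp only [not_iff_not]

theorem dep_subset_of {v : (Ω → Bool) → Prop} {T : Finset Ω}
    (hT : ∀ x y, (∀ S ∈ T, x S = y S) → (v x ↔ v y)) (G : Ω → Bool) (Q : Finset Ω) :
    dep v G Q ⊆ T := by
  intro S hS
  obtain ⟨hSQ, X, hX, h⟩ := mem_dep.1 hS
  by_contra hST
  apply h
  refine hT _ _ fun S' hS' => ?_
  have : S' ≠ S := fun e => hST (e ▸ hS')
  unfold fl
  simp [this]

/-- If no gate reaches a set of medium size, then no gate depends on many coordinates. -/
theorem small_dep {C : Circuit ι} {a : (Ω → Bool) → ι → Prop} (ha : IsLit a) {o d K : ℕ}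
    {G : Ω → Bool} {P : Finset Ω} (hG : ∀ S ∈ P, G S = false) (hK : P.card ≤ K)
    {t : Finset Ω → ℕ} (ht : ∀ U V, U ⊆ V → t U ≤ t V) (ht' : ∀ U V, t (U ∪ V) ≤ t U + t V)
    (htc : ∀ U, t U ≤ U.card) {w : ℕ} (hw : 1 ≤ w)
    (hno : ∀ i ≤ o, (C i).counts = true → C.depth i ≤ d → ∀ Q ⊆ P, w < t Q → t Q ≤ 2 * w →
      ¬ Ev C a K G Q i) :
    ∀ i ≤ o, C.depth i ≤ d → t (dep (gv C a i) G P) ≤ w := by
  classical
  have ht0 : t ∅ = 0 := Nat.le_zero.1 ((htc ∅).trans (by simp))
  intro i
  induction i using Nat.strong_induction_on with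
  | _ i ih =>
  intro hi hd
  by_contra hcon
  push Not at hcon
  rcases hg : C i with v | b | S | S | ⟨r, u, g⟩
  · have h2 : gv C a i = fun x => a x v := by
      funext x
      unfold gv
      rw [val_eq, hg]
    obtain ⟨T, hT, hT'⟩ := (ha v).junta
    rw [h2] at hcon
    have h3 := dep_subset_of hT' G P
    have h4 := (ht _ _ h3).trans (htc T)
    omega
  · have h2 : gv C a i = fun x => ¬ gv C a b x := by
      funext x
      unfold gv
      rw [val_eq, hg]
    rw [h2, dep_not] at hcon
    rw [depth_eq, hg] at hd
    have := ih b b.isLt (by have := b.isLt; omega) hd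
    omega
  · have hd' : ∀ j ∈ kids S, C.depth j ≤ d := by
      intro j hj
      obtain ⟨b, hb, rfl⟩ := mem_kids.1 hj
      rw [depth_eq, hg] at hd
      have := le_sup (f := fun a : Fin i => C.depth a) hb
      simp only at hd this
      omega
    obtain ⟨Q, hQ, h1, h2, n, hn, h3⟩ := crossing (v := gv C a) (g := gv C a i) (A := kids S)
      (b := False) (by
        intro x
        have h5 : gv C a i x ↔ ∀ b : Fin i, b ∈ S → gv C a b x := by
          unfold gv
          rw [val_eq, hg]
        rw [h5]
        constructor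
        · intro h
          by_contra hcon2
          refine h.1 fun b hb => ?_
          by_contra h6
          exact hcon2 ⟨b, mem_kids.2 ⟨b, hb, rfl⟩, by simpa using h6⟩
        · rintro ⟨j, hj, h6⟩
          obtain ⟨b, hb, rfl⟩ := mem_kids.1 hj
          simp only [iff_false] at h6 ⊢
          exact fun h => h6 (h b hb)) hG ht ht' ht0 (w := w) (by
        intro j hj
        obtain ⟨b, hb, rfl⟩ := mem_kids.1 hj
        exact ih b b.isLt (by have := b.isLt; omega) (hd' _ hj)) hcon
    refine hno i hi (by rw [hg]; rfl) hd Q hQ h1 h2 ?_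
    unfold Ev
    rw [hg]
    exact ⟨n, hn.trans hK, h3⟩
  · have hd' : ∀ j ∈ kids S, C.depth j ≤ d := by
      intro j hj
      obtain ⟨b, hb, rfl⟩ := mem_kids.1 hj
      rw [depth_eq, hg] at hd
      have := le_sup (f := fun a : Fin i => C.depth a) hb
      simp only at hd this
      omega
    obtain ⟨Q, hQ, h1, h2, n, hn, h3⟩ := crossing (v := gv C a) (g := gv C a i) (A := kids S)
      (b := True) (by
        intro x
        have h5 : gv C a i x ↔ ∃ b : Fin i, b ∈ S ∧ gv C a b x := by
          unfold gv
          rw [val_eq, hg]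
        rw [h5]
        simp only [iff_true]
        constructor
        · rintro ⟨b, hb, h⟩
          exact ⟨b, mem_kids.2 ⟨b, hb, rfl⟩, h⟩
        · rintro ⟨j, hj, h6⟩
          obtain ⟨b, hb, rfl⟩ := mem_kids.1 hj
          exact ⟨b, hb, h6⟩) hG ht ht' ht0 (w := w) (by
        intro j hj
        obtain ⟨b, hb, rfl⟩ := mem_kids.1 hj
        exact ih b b.isLt (by have := b.isLt; omega) (hd' _ hj)) hcon
    refine hno i hi (by rw [hg]; rfl) hd Q hQ h1 h2 ?_
    unfold Ev
    rw [hg]
    exact ⟨n, hn.trans hK, h3⟩
  · have hd' : ∀ l, C.depth (u l) ≤ d := by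
      intro l
      rw [depth_eq, hg] at hd
      have := le_sup (f := fun l : Fin r => C.depth (u l)) (mem_univ l)
      simp only at hd this
      omega
    obtain ⟨Q, hQ, h1, h2, h3⟩ := crossing_fun (v := gv C a) (g := gv C a i)
      (A := kids (univ.image u)) (by
        intro x y hxy
        have h5 : ∀ x, gv C a i x ↔ g fun l => gv C a (u l) x := by
          intro x
          unfold gv
          rw [val_eq, hg]
        rw [h5, h5]
        have : (fun l => gv C a (u l) x) = fun l => gv C a (u l) y := by
          funext l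
          exact propext (hxy _ (mem_kids.2 ⟨u l, mem_image_of_mem _ (mem_univ _), rfl⟩))
        rw [this]) hG ht ht' ht0 (w := w) (by
        intro j hj
        obtain ⟨b, hb, rfl⟩ := mem_kids.1 hj
        obtain ⟨l, -, rfl⟩ := mem_image.1 hb
        exact ih (u l) (u l).isLt (by have := (u l).isLt; omega) (hd' l)) hcon
    refine hno i hi (by rw [hg]; rfl) hd Q hQ h1 h2 ?_
    unfold Ev
    rw [hg]
    exact h3

end events

section threshold

/-- The sign of an assignment of the states. -/
def sgn {k : ℕ} (x : Fin k → Bool) : ℝ := (-1) ^ (univ.filter fun j => x j = true).card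

theorem sgn_flip {k : ℕ} (x : Fin k → Bool) (j : Fin k) :
    sgn (Function.update x j (!(x j))) = - sgn x := by
  unfold sgn
  rcases hx : x j with _ | _
  · have h1 : (univ.filter fun l => Function.update x j (!false) l = true) =
        insert j (univ.filter fun l => x l = true) := by
      ext l
      by_cases hl : l = j
      · subst hl; simp
      · simp [hl]
    rw [h1, card_insert_of_notMem (by simp [hx]), pow_succ]
    ring
  · have h1 : (univ.filter fun l => Function.update x j (!true) l = true) =
        (univ.filter fun l => x l = true).erase j := by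
      ext l
      by_cases hl : l = j
      · subst hl; simp
      · simp [hl]
    have h2 : j ∈ univ.filter fun l => x l = true := by simp [hx]
    rw [h1]
    have h3 := card_erase_add_one h2
    rw [← h3, pow_succ]
    ring

theorem sum_sgn_eq_zero {k : ℕ} (F : (Fin k → Bool) → ℝ) (j : Fin k)
    (hF : ∀ x, F (Function.update x j (!(x j))) = F x) : ∑ x, sgn x * F x = 0 := by
  have hinv : Function.Involutive fun x : Fin k → Bool => Function.update x j (!(x j)) := by
    intro x
    funext l
    by_cases hl : l = j
    · subst hl; simp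
    · simp [Function.update_of_ne hl]
  have h1 : ∑ x, sgn x * F x = ∑ x, sgn (Function.update x j (!(x j))) *
      F (Function.update x j (!(x j))) :=
    (Equiv.sum_comp (Function.Involutive.toPerm _ hinv) fun x => sgn x * F x).symm
  have h2 : ∑ x, sgn (Function.update x j (!(x j))) * F (Function.update x j (!(x j))) =
      - ∑ x, sgn x * F x := by
    rw [← sum_neg_distrib]
    refine sum_congr rfl fun x _ => ?_
    rw [sgn_flip, hF]
    ring
  linarith

variable {k h : ℕ}

theorem card_Ph (π : Equiv.Perm (Fin (k * h))) : (Ph π).card ≤ 2 * k := by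
  unfold Ph
  refine card_image_le.trans ?_
  rw [card_univ, Fintype.card_prod, Fintype.card_fin, Fintype.card_bool, mul_comm]

theorem touch_mono (U V : Finset (Cd k h)) (hUV : U ⊆ V) : touch U ≤ touch V :=
  card_le_card (image_subset_image hUV)

theorem touch_union (U V : Finset (Cd k h)) : touch (U ∪ V) ≤ touch U + touch V := by
  unfold touch
  rw [image_union]
  exact card_union_le _ _

theorem touch_card (U : Finset (Cd k h)) : touch U ≤ U.card := card_image_le

/-- A function which touches fewer than `k` planted units does not depend on some state. -/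
theorem exists_free {v : (Cd k h → Bool) → Prop} {G : Cd k h → Bool}
    {π : Equiv.Perm (Fin (k * h))} (hv : touch (dep v G (Ph π)) < k) :
    ∃ j : Fin k, ∀ x : Fin k → Bool,
      (v (fl G (Ph π) (Xs π (Function.update x j (!(x j))))) ↔ v (fl G (Ph π) (Xs π x))) := by
  classical
  obtain ⟨j, hj⟩ : ∃ j : Fin k, (j, blk π j) ∉ (dep v G (Ph π)).image fun e => e.1 := by
    by_contra hcon
    push Not at hcon
    have h1 : (univ.image fun j : Fin k => (j, blk π j)) ⊆ (dep v G (Ph π)).image fun e => e.1 := by
      intro u hu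
      obtain ⟨j, -, rfl⟩ := mem_image.1 hu
      exact hcon j
    have h2 := card_le_card h1
    rw [card_image_of_injective _ (fun a b hab => (Prod.mk.inj hab).1), card_univ,
      Fintype.card_fin] at h2
    unfold touch at hv
    omega
  refine ⟨j, fun x => ?_⟩
  rw [dep_inter v G (Ph π) (Xs π (Function.update x j (!(x j)))) _ Subset.rfl,
    dep_inter v G (Ph π) (Xs π x) _ Subset.rfl]
  have h1 : Xs π (Function.update x j (!(x j))) ∩ dep v G (Ph π) = Xs π x ∩ dep v G (Ph π) := by
    ext e
    simp only [mem_inter]
    refine and_congr_left fun he => ?_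
    unfold Xs
    rw [mem_filter, mem_filter]
    refine and_congr_right fun heP => ?_
    have hne : e.1.1 ≠ j := by
      intro hej
      apply hj
      rw [mem_image]
      refine ⟨e, he, ?_⟩
      unfold Ph at heP
      obtain ⟨⟨j', b⟩, -, rfl⟩ := mem_image.1 heP
      simp only at hej
      subst hej
      rfl
    rw [Function.update_of_ne hne]
  rw [h1]

/-- A threshold gate which reads functions touching fewer than `k` planted units does not compute
the parity of the states. -/
theorem threshold_fails (hk : 0 < k) {G : Cd k h → Bool} {π : Equiv.Perm (Fin (k * h))}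
    {v : ℕ → (Cd k h → Bool) → Prop} {N : ℕ} {w : ℕ → ℝ} {θ : ℝ}
    (hv : ∀ i < N, touch (dep (v i) G (Ph π)) < k)
    (h : ∀ x : Fin k → Bool, Odd (univ.filter fun j => x j = true).card ↔
      θ ≤ ∑ i ∈ range N, w i * bit (v i (fl G (Ph π) (Xs π x)))) : False := by
  classical
  have h1 : ∀ i < N, ∑ x, sgn x * bit (v i (fl G (Ph π) (Xs π x))) = 0 := by
    intro i hi
    obtain ⟨j, hj⟩ := exists_free (hv i hi)
    exact sum_sgn_eq_zero (fun x => bit (v i (fl G (Ph π) (Xs π x)))) j fun x => by
      rw [propext (hj x)]
  have h2 : ∑ x : Fin k → Bool, sgn x * θ = 0 :=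
    sum_sgn_eq_zero (fun _ => θ) ⟨0, hk⟩ fun _ => rfl
  have h3 : ∑ x : Fin k → Bool, sgn x *
      (∑ i ∈ range N, w i * bit (v i (fl G (Ph π) (Xs π x))) - θ) = 0 := by
    simp only [mul_sub, sum_sub_distrib, h2, sub_zero, mul_sum]
    rw [sum_comm]
    refine sum_eq_zero fun i hi => ?_
    have := h1 i (mem_range.1 hi)
    calc _ = ∑ x, w i * (sgn x * bit (v i (fl G (Ph π) (Xs π x)))) :=
          sum_congr rfl fun x _ => by ring
      _ = 0 := by rw [← mul_sum, this, mul_zero]
  have h4 : ∑ x : Fin k → Bool, sgn x *
      (∑ i ∈ range N, w i * bit (v i (fl G (Ph π) (Xs π x))) - θ) < 0 := by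
    refine sum_neg' ?_ ⟨fun _ => false, mem_univ _, ?_⟩
    · intro x _
      by_cases hx : Odd (univ.filter fun j => x j = true).card
      · have := (h x).1 hx
        unfold sgn
        rw [hx.neg_one_pow]
        linarith
      · have := mt (h x).2 hx
        push Not at this
        unfold sgn
        rw [(Nat.not_odd_iff_even.1 hx).neg_one_pow]
        linarith
    · have hx : ¬ Odd (univ.filter fun j : Fin k => (fun _ : Fin k => false) j = true).card := by
        simp
      have := mt (h _).2 hx
      push Not at this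
      unfold sgn
      rw [(Nat.not_odd_iff_even.1 hx).neg_one_pow]
      linarith
  exact h4.ne h3

end threshold

end SmallDepth
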