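import Pool.Agent.Lib.MP_8fffab_lc_AC.UpDefs

open Finset

namespace SmallDepth

variable {ι : Type}

/-- Row UPA. The inputs are available: gate number `i < Fintype.card ι` is the input `e.symm i`. -/
theorem Lay.start [Fintype ι] : Lay (Set.range fun (e : ι) (x : ι → Prop) => x e) 0 0 := by
  classical
  set C : Circuit ι := fun i => if h : i < Fintype.card ι then
    Gate.input ((Fintype.equivFin ι).symm ⟨i, h⟩) else Gate.and ∅ with hC
  have hCi : ∀ (i : ℕ) (h : i < Fintype.card ι), C i =
      Gate.input ((Fintype.equivFin ι).symm ⟨i, h⟩) := fun i h => by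
    rw [hC]
    exact dif_pos h
  refine ⟨C, Fintype.card ι, ?_, ?_, ?_⟩
  · rintro g ⟨e, rfl⟩
    refine ⟨(Fintype.equivFin ι e : ℕ), (Fintype.equivFin ι e).isLt, fun x => ?_⟩
    rw [val_eq, hCi _ (Fintype.equivFin ι e).isLt]
    simp
  · rw [Nat.le_zero, card_eq_zero, filter_eq_empty_iff]
    intro i hi
    rw [hCi i (mem_range.1 hi)]
    simp [Gate.counts]
  · intro i hi
    rw [depth_eq, hCi i hi]
    exact ⟨le_rfl, rfl⟩

end SmallDepth
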