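import Pool.Agent.Lib.MP_8fffab_lc_AC.UpDefs

open Finset

namespace SmallDepth

variable {ι : Type}

private theorem val_congr_lt {C C' : Circuit ι} {N : ℕ} (h : ∀ i < N, C' i = C i)
    (x : ι → Prop) : ∀ i < N, C'.val x i = C.val x i := by
  intro i
  induction i using Nat.strong_induction_on with
  | _ i ih =>
  intro hi
  rw [val_eq, val_eq C, h i hi]
  rcases C i with v | b | S | S | ⟨r, w, g⟩
  · rfl
  · simp only
    rw [ih b b.isLt (b.isLt.trans hi)]
  · exact propext (forall_congr' fun a => imp_congr_right fun _ => by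
      rw [ih a a.isLt (a.isLt.trans hi)])
  · exact propext (exists_congr fun a => and_congr_right fun _ => by
      rw [ih a a.isLt (a.isLt.trans hi)])
  · simp only
    congr 1
    funext l
    exact ih (w l) (w l).isLt ((w l).isLt.trans hi)

private theorem depth_congr_lt {C C' : Circuit ι} {N : ℕ} (h : ∀ i < N, C' i = C i) :
    ∀ i < N, C'.depth i = C.depth i := by
  intro i
  induction i using Nat.strong_induction_on with
  | _ i ih =>
  intro hi
  rw [depth_eq, depth_eq C, h i hi]
  rcases C i with v | b | S | S | ⟨r, w, g⟩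
  · rfl
  · exact ih b b.isLt (b.isLt.trans hi)
  · simp only
    congr 1
    exact Finset.sup_congr rfl fun a _ => ih a a.isLt (a.isLt.trans hi)
  · simp only
    congr 1
    exact Finset.sup_congr rfl fun a _ => ih a a.isLt (a.isLt.trans hi)
  · simp only
    congr 1
    exact Finset.sup_congr rfl fun l _ => ih (w l) (w l).isLt ((w l).isLt.trans hi)

/-- Row UPB. One layer: new gates number `N + t`, `t < M`, each of them an AND gate or OR gate of
gates with numbers `< N`; values and depths of the old gates do not change. -/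
theorem Lay.layer {A : Set ((ι → Prop) → Prop)} {d s M : ℕ} (h : Lay A d s)
    (G : Fin M → (ι → Prop) → Prop) (hG : ∀ t, IsStep A (G t)) :
    Lay (A ∪ Set.range G) (d + 1) (s + M) := by
  classical
  obtain ⟨C, N, hA, hs, hd⟩ := h
  -- every step is a conjunction or a disjunction of old gates
  have hex : ∀ t, ∃ (S : Finset ℕ) (κ : Bool), (∀ j ∈ S, j < N) ∧
      ((κ = true ∧ ∀ x, G t x ↔ ∀ j ∈ S, C.val x j) ∨
        (κ = false ∧ ∀ x, G t x ↔ ∃ j ∈ S, C.val x j)) := by
    intro t
    obtain ⟨r, u, hu, hg⟩ := hG t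
    choose j hj hjv using fun a => hA (u a) (hu a)
    rcases hg with hg | hg
    · refine ⟨univ.image j, true, ?_, Or.inl ⟨rfl, fun x => ?_⟩⟩
      · intro i hi
        obtain ⟨a, -, rfl⟩ := mem_image.1 hi
        exact hj a
      · rw [hg x]
        constructor
        · intro h1 i hi
          obtain ⟨a, -, rfl⟩ := mem_image.1 hi
          exact (hjv a x).2 (h1 a)
        · intro h1 a
          exact (hjv a x).1 (h1 _ (mem_image_of_mem _ (mem_univ a)))
    · refine ⟨univ.image j, false, ?_, Or.inr ⟨rfl, fun x => ?_⟩⟩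
      · intro i hi
        obtain ⟨a, -, rfl⟩ := mem_image.1 hi
        exact hj a
      · rw [hg x]
        constructor
        · rintro ⟨a, ha⟩
          exact ⟨_, mem_image_of_mem _ (mem_univ a), (hjv a x).2 ha⟩
        · rintro ⟨i, hi, h1⟩
          obtain ⟨a, -, rfl⟩ := mem_image.1 hi
          exact ⟨a, (hjv a x).1 h1⟩
  choose S κ hSN hSv using hex
  set C' : Circuit ι := fun i => if i < N then C i else
    if h : i - N < M then
      (if κ ⟨i - N, h⟩ = true then Gate.and (univ.filter fun a : Fin i => (a : ℕ) ∈ S ⟨i - N, h⟩)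
        else Gate.or (univ.filter fun a : Fin i => (a : ℕ) ∈ S ⟨i - N, h⟩))
    else Gate.and ∅ with hC'
  have hold : ∀ i < N, C' i = C i := fun i hi => by
    rw [hC']
    exact if_pos hi
  have hnew : ∀ (i : ℕ) (hi : N ≤ i) (h : i - N < M), C' i =
      if κ ⟨i - N, h⟩ = true then Gate.and (univ.filter fun a : Fin i => (a : ℕ) ∈ S ⟨i - N, h⟩)
        else Gate.or (univ.filter fun a : Fin i => (a : ℕ) ∈ S ⟨i - N, h⟩) := fun i hi h => by
    have h1 : ¬ i < N := by omega
    rw [hC']
    simp only
    rw [if_neg h1, dif_pos h]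
  have hval := val_congr_lt hold
  have hdep := depth_congr_lt hold
  refine ⟨C', N + M, ?_, ?_, ?_⟩
  · rintro g (hg | ⟨t, rfl⟩)
    · obtain ⟨i, hi, hv⟩ := hA g hg
      exact ⟨i, by omega, fun x => by rw [hval x i hi]; exact hv x⟩
    · refine ⟨N + t, by omega, fun x => ?_⟩
      have hlt : N + (t : ℕ) - N < M := by omega
      have ht : (⟨N + (t : ℕ) - N, hlt⟩ : Fin M) = t := Fin.ext (by simp)
      rw [val_eq, hnew (N + t) (by omega) hlt, ht]
      rcases hSv t with ⟨hκ, hv⟩ | ⟨hκ, hv⟩
      · rw [if_pos hκ, hv x]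
        simp only [mem_filter, mem_univ, true_and]
        constructor
        · intro h1 j hj
          have hjN := hSN t j hj
          have h2 := h1 ⟨j, by omega⟩ hj
          rwa [hval x j hjN] at h2
        · intro h1 a ha
          rw [hval x a (hSN t a ha)]
          exact h1 a ha
      · rw [if_neg (by rw [hκ]; simp), hv x]
        simp only [mem_filter, mem_univ, true_and]
        constructor
        · rintro ⟨a, ha, h1⟩
          rw [hval x a (hSN t a ha)] at h1
          exact ⟨a, ha, h1⟩
        · rintro ⟨j, hj, h1⟩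
          have hjN := hSN t j hj
          refine ⟨⟨j, by omega⟩, hj, ?_⟩
          rw [hval x j hjN]
          exact h1
  · have h1 : ((range (N + M)).filter fun i => (C' i).counts = true) ⊆
        ((range N).filter fun i => (C i).counts = true) ∪ Ico N (N + M) := by
      intro i hi
      rw [mem_filter, mem_range] at hi
      rw [mem_union, mem_filter, mem_range, mem_Ico]
      rcases Nat.lt_or_ge i N with h2 | h2
      · left
        rw [hold i h2] at hi
        exact ⟨h2, hi.2⟩
      · exact Or.inr ⟨h2, hi.1⟩
    calc _ ≤ (((range N).filter fun i => (C i).counts = true) ∪ Ico N (N + M)).card :=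
          card_le_card h1
      _ ≤ _ := card_union_le _ _
      _ ≤ s + M := by
        rw [Nat.card_Ico]
        omega
  · intro i hi
    rcases Nat.lt_or_ge i N with h2 | h2
    · rw [hdep i h2, hold i h2]
      exact ⟨(hd i h2).1.trans (Nat.le_succ d), (hd i h2).2⟩
    · have hlt : i - N < M := by omega
      have hsup : ((univ.filter fun a : Fin i => (a : ℕ) ∈ S ⟨i - N, hlt⟩).sup
          fun a => C'.depth a) ≤ d := by
        refine Finset.sup_le fun a ha => ?_
        have h3 := hSN _ _ (mem_filter.1 ha).2
        rw [hdep a h3]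
        exact (hd a h3).1
      rw [depth_eq, hnew i h2 hlt]
      by_cases hκ : κ ⟨i - N, hlt⟩ = true
      · rw [if_pos hκ]
        exact ⟨Nat.succ_le_succ hsup, rfl⟩
      · rw [if_neg hκ]
        exact ⟨Nat.succ_le_succ hsup, rfl⟩

end SmallDepth
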