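import Pool.Agent.Lib.MP_8fffab_lc_AC.UpA
import Pool.Agent.Lib.MP_8fffab_lc_AC.UpB

open Finset

namespace SmallDepth

variable {ι : Type}

/-! ### The dynamic program -/

private theorem Lay.mono {A A' : Set ((ι → Prop) → Prop)} {d s : ℕ} (h : Lay A' d s)
    (hA : A ⊆ A') : Lay A d s := by
  obtain ⟨C, N, h1, h2, h3⟩ := h
  exact ⟨C, N, fun g hg => h1 g (hA hg), h2, h3⟩

private theorem Lay.layer' {κ : Type*} [Fintype κ] {A : Set ((ι → Prop) → Prop)} {d s : ℕ}
    (h : Lay A d s) (G : κ → (ι → Prop) → Prop) (hG : ∀ t, IsStep A (G t)) :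
    Lay (A ∪ Set.range G) (d + 1) (s + Fintype.card κ) := by
  have h1 := h.layer (fun t => G ((Fintype.equivFin κ).symm t)) fun t => hG _
  refine h1.mono ?_
  rintro g (hg | ⟨t, rfl⟩)
  · exact Or.inl hg
  · exact Or.inr ⟨Fintype.equivFin κ t, by simp⟩

private theorem isStep_and {κ : Type*} [Fintype κ] {A : Set ((ι → Prop) → Prop)}
    {g : (ι → Prop) → Prop} (u : κ → (ι → Prop) → Prop) (hu : ∀ a, u a ∈ A)
    (hg : ∀ x, g x ↔ ∀ a, u a x) : IsStep A g := by
  refine ⟨Fintype.card κ, fun a => u ((Fintype.equivFin κ).symm a), fun a => hu _, Or.inl ?_⟩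
  intro x
  rw [hg x]
  constructor
  · exact fun h a => h _
  · intro h a
    have h1 := h (Fintype.equivFin κ a)
    simpa using h1

private theorem isStep_or {κ : Type*} [Fintype κ] {A : Set ((ι → Prop) → Prop)}
    {g : (ι → Prop) → Prop} (u : κ → (ι → Prop) → Prop) (hu : ∀ a, u a ∈ A)
    (hg : ∀ x, g x ↔ ∃ a, u a x) : IsStep A g := by
  refine ⟨Fintype.card κ, fun a => u ((Fintype.equivFin κ).symm a), fun a => hu _, Or.inr ?_⟩
  intro x
  rw [hg x]
  constructor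
  · rintro ⟨a, ha⟩
    exact ⟨Fintype.equivFin κ a, by simpa using ha⟩
  · rintro ⟨a, ha⟩
    exact ⟨_, ha⟩

/-- the inputs -/
private def Inp (m n : ℕ) : Set ((Fin m × Fin n → Prop) → Prop) :=
  Set.range fun (e : Fin m × Fin n) (x : Fin m × Fin n → Prop) => x e

/-- the functions `Cov k U` -/
private def CovS (m n k : ℕ) : Set ((Fin m × Fin n → Prop) → Prop) :=
  {g | ∃ U : Finset (Fin n), ∀ x, g x ↔ Cov k U x}

/-- the functions `Cov' b k i t U` -/
private def CovS' (m n b k t : ℕ) : Set ((Fin m × Fin n → Prop) → Prop) :=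
  {g | ∃ (i : Fin m) (U : Finset (Fin n)), ∀ x, g x ↔ Cov' b k i t U x}

private theorem cov'_zero {m n b k : ℕ} (i : Fin m) (U : Finset (Fin n))
    (x : Fin m × Fin n → Prop) : Cov' b k i 0 U x ↔ Cov k U x := by
  unfold Cov' Cov
  simp

/-- the part of `U` in the block `t` with residues in `Y` -/
private def part {n : ℕ} (b t : ℕ) (U : Finset (Fin n)) (Y : Finset (Fin b)) : Finset (Fin n) :=
  U.filter fun v => v.val / b = t ∧ ∃ y ∈ Y, (y : ℕ) = v.val % b

private theorem mem_part {n b t : ℕ} {U : Finset (Fin n)} {Y : Finset (Fin b)} {v : Fin n} :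
    v ∈ part b t U Y ↔ v ∈ U ∧ v.val / b = t ∧ ∃ y ∈ Y, (y : ℕ) = v.val % b := by
  unfold part
  rw [mem_filter]

private theorem cov'_succ {m n b k t : ℕ} (hb : 0 < b) (i : Fin m) (U : Finset (Fin n))
    (x : Fin m × Fin n → Prop) : Cov' b k i (t + 1) U x ↔
      ∃ Y : Finset (Fin b), (∀ v ∈ part b t U Y, x (i, v)) ∧ Cov' b k i t (U \ part b t U Y) x := by
  classical
  constructor
  · rintro ⟨I, hI⟩
    refine ⟨univ.filter fun y : Fin b => ∃ v ∈ U, v.val / b = t ∧ (y : ℕ) = v.val % b ∧ x (i, v),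
      ?_, I, ?_⟩
    · intro v hv
      obtain ⟨hvU, hvt, y, hy, hyv⟩ := mem_part.1 hv
      obtain ⟨-, v', hv'U, hv't, hyv', hx⟩ := mem_filter.1 hy
      have h1 : v = v' := by
        apply Fin.ext
        rw [← Nat.div_add_mod v.val b, ← Nat.div_add_mod v'.val b, hvt, hv't, ← hyv, ← hyv']
      rw [h1]
      exact hx
    · intro v hv
      obtain ⟨hvU, hv'⟩ := mem_sdiff.1 hv
      rcases hI v hvU with ⟨h1, h2⟩ | h1
      · left
        refine ⟨?_, h2⟩
        rcases Nat.lt_or_ge (v.val / b) t with h3 | h3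
        · exact h3
        · exfalso
          refine hv' (mem_part.2 ⟨hvU, by omega, ⟨v.val % b, Nat.mod_lt _ hb⟩, ?_, rfl⟩)
          exact mem_filter.2 ⟨mem_univ _, v, hvU, by omega, rfl, h2⟩
      · exact Or.inr h1
  · rintro ⟨Y, hY, I, hI⟩
    refine ⟨I, fun v hv => ?_⟩
    by_cases h : v ∈ part b t U Y
    · left
      exact ⟨by have := (mem_part.1 h).2.1; omega, hY v h⟩
    · rcases hI v (mem_sdiff.2 ⟨hv, h⟩) with ⟨h1, h2⟩ | h1
      · exact Or.inl ⟨by omega, h2⟩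
      · exact Or.inr h1

private theorem cov_succ {m n b k T : ℕ} (hT : n ≤ b * T) (U : Finset (Fin n))
    (x : Fin m × Fin n → Prop) : Cov (k + 1) U x ↔ ∃ i : Fin m, Cov' b k i T U x := by
  have hlt : ∀ v : Fin n, v.val / b < T := fun v => Nat.div_lt_of_lt_mul (v.isLt.trans_le hT)
  constructor
  · rintro ⟨I, hI⟩
    refine ⟨I 0, fun a => I a.succ, fun v hv => ?_⟩
    obtain ⟨a, ha⟩ := hI v hv
    revert ha
    refine Fin.cases (fun ha => Or.inl ⟨hlt v, ha⟩) (fun a ha => Or.inr ⟨a, ha⟩) a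
  · rintro ⟨i, I, hI⟩
    refine ⟨Fin.cons i I, fun v hv => ?_⟩
    rcases hI v hv with ⟨-, h⟩ | ⟨a, h⟩
    · exact ⟨0, h⟩
    · exact ⟨a.succ, by simpa using h⟩

private theorem dp_step {m n b k t d s : ℕ} (hb : 0 < b)
    (h : Lay (Inp m n ∪ CovS m n k ∪ CovS' m n b k t) d s) :
    Lay (Inp m n ∪ CovS m n k ∪ CovS' m n b k (t + 1)) (d + 2)
      (s + (m * 2 ^ n * 2 ^ b + m * 2 ^ n)) := by
  classical
  -- AND gates
  have h1 := h.layer' (fun (q : (Fin m × Finset (Fin n)) × Finset (Fin b))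
    (x : Fin m × Fin n → Prop) => (∀ v ∈ part b t q.1.2 q.2, x (q.1.1, v)) ∧
      Cov' b k q.1.1 t (q.1.2 \ part b t q.1.2 q.2) x) (by
    rintro ⟨⟨i, U⟩, Y⟩
    refine isStep_and (κ := Option {v // v ∈ part b t U Y}) (fun o x => match o with
      | none => Cov' b k i t (U \ part b t U Y) x
      | some v => x (i, v.1)) ?_ ?_
    · rintro (_ | v)
      · exact Or.inr ⟨i, _, fun x => Iff.rfl⟩
      · exact Or.inl (Or.inl ⟨(i, v.1), rfl⟩)
    · intro x
      constructor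
      · rintro ⟨ha, hc⟩ (_ | v)
        · exact hc
        · exact ha v.1 v.2
      · intro ha
        exact ⟨fun v hv => ha (some ⟨v, hv⟩), ha none⟩)
  -- OR gates
  have h2 := h1.layer' (fun (q : Fin m × Finset (Fin n)) (x : Fin m × Fin n → Prop) =>
      Cov' b k q.1 (t + 1) q.2 x) (by
    rintro ⟨i, U⟩
    refine isStep_or (κ := Finset (Fin b)) (fun Y x => (∀ v ∈ part b t U Y, x (i, v)) ∧
      Cov' b k i t (U \ part b t U Y) x) ?_ ?_
    · intro Y
      exact Or.inr ⟨((i, U), Y), rfl⟩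
    · intro x
      exact cov'_succ hb i U x)
  have h3 : Fintype.card ((Fin m × Finset (Fin n)) × Finset (Fin b)) = m * 2 ^ n * 2 ^ b := by
    simp
  have h4 : Fintype.card (Fin m × Finset (Fin n)) = m * 2 ^ n := by
    simp
  rw [h3, h4] at h2
  have h5 : s + (m * 2 ^ n * 2 ^ b + m * 2 ^ n) = s + m * 2 ^ n * 2 ^ b + m * 2 ^ n := by ring
  rw [h5]
  refine Lay.mono (d := d + 2) h2 ?_
  rintro g (hg | ⟨i, U, hg⟩)
  · exact Or.inl (Or.inl (Or.inl hg))
  · exact Or.inr ⟨(i, U), by funext x; exact propext (hg x).symm⟩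

private theorem dp_steps {m n b k T d s : ℕ} (hb : 0 < b) (h : Lay (Inp m n ∪ CovS m n k) d s) :
    Lay (Inp m n ∪ CovS m n k ∪ CovS' m n b k T) (d + 2 * T)
      (s + T * (m * 2 ^ n * 2 ^ b + m * 2 ^ n)) := by
  induction T with
  | zero =>
    rw [Nat.zero_mul, Nat.mul_zero]
    refine Lay.mono h ?_
    rintro g (hg | ⟨i, U, hg⟩)
    · exact hg
    · exact Or.inr ⟨U, fun x => (hg x).trans (cov'_zero i U x)⟩
  | succ T ih =>
    have h1 := dp_step hb ih
    have e1 : d + 2 * (T + 1) = d + 2 * T + 2 := by ring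
    have e2 : s + (T + 1) * (m * 2 ^ n * 2 ^ b + m * 2 ^ n) =
        s + T * (m * 2 ^ n * 2 ^ b + m * 2 ^ n) + (m * 2 ^ n * 2 ^ b + m * 2 ^ n) := by ring
    rw [e1, e2]
    exact h1

private theorem dp_all (m n k b T : ℕ) (hb : 0 < b) (hT : n ≤ b * T) :
    Lay (Inp m n ∪ CovS m n k)
      (1 + k * (2 * T + 1)) (2 ^ n + k * (T * (m * 2 ^ n * 2 ^ b + m * 2 ^ n) + 2 ^ n)) := by
  classical
  have hcard : Fintype.card (Finset (Fin n)) = 2 ^ n := by simp
  induction k with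
  | zero =>
    have h1 := (Lay.start (ι := Fin m × Fin n)).layer' (fun (U : Finset (Fin n))
      (x : Fin m × Fin n → Prop) => Cov 0 U x) (by
      intro U
      by_cases hU : U = ∅
      · refine isStep_and (κ := Fin 0) (fun a => a.elim0) (fun a => a.elim0) fun x => ?_
        subst hU
        refine iff_of_true ⟨fun a => a.elim0, fun v hv => absurd hv (notMem_empty v)⟩
          fun a => a.elim0
      · refine isStep_or (κ := Fin 0) (fun a => a.elim0) (fun a => a.elim0) fun x => ?_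
        refine iff_of_false ?_ ?_
        · rintro ⟨I, hI⟩
          obtain ⟨v, hv⟩ := nonempty_iff_ne_empty.2 hU
          obtain ⟨a, -⟩ := hI v hv
          exact a.elim0
        · rintro ⟨a, -⟩
          exact a.elim0)
    rw [hcard] at h1
    have e1 : 1 + 0 * (2 * T + 1) = 0 + 1 := by ring
    have e2 : 2 ^ n + 0 * (T * (m * 2 ^ n * 2 ^ b + m * 2 ^ n) + 2 ^ n) = 0 + 2 ^ n := by ring
    rw [e1, e2]
    refine Lay.mono h1 ?_
    rintro g (hg | ⟨U, hg⟩)
    · exact Or.inl hg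
    · exact Or.inr ⟨U, by funext x; exact propext (hg x).symm⟩
  | succ k ih =>
    have h1 := dp_steps (T := T) hb ih
    have h2 := h1.layer' (fun (U : Finset (Fin n)) (x : Fin m × Fin n → Prop) => Cov (k + 1) U x)
      (by
        intro U
        refine isStep_or (κ := Fin m) (fun i x => Cov' b k i T U x) ?_ ?_
        · exact fun i => Or.inr ⟨i, U, fun x => Iff.rfl⟩
        · exact fun x => cov_succ hT U x)
    rw [hcard] at h2
    have e1 : 1 + (k + 1) * (2 * T + 1) = 1 + k * (2 * T + 1) + 2 * T + 1 := by ring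
    have e2 : 2 ^ n + (k + 1) * (T * (m * 2 ^ n * 2 ^ b + m * 2 ^ n) + 2 ^ n) =
        2 ^ n + k * (T * (m * 2 ^ n * 2 ^ b + m * 2 ^ n) + 2 ^ n) +
          T * (m * 2 ^ n * 2 ^ b + m * 2 ^ n) + 2 ^ n := by ring
    rw [e1, e2]
    refine Lay.mono h2 ?_
    rintro g (hg | ⟨U, hg⟩)
    · exact Or.inl (Or.inl (Or.inl hg))
    · exact Or.inr ⟨U, by funext x; exact propext (hg x).symm⟩

/-- Row UPC. The dynamic program, block by block, from `Lay.start` and `Lay.layer`:
`Cov' b j i 0 U = Cov j U`; `Cov' b j i (t + 1) U ↔ ∃ X ⊆ U ∩ (block t), (∀ v ∈ X, x (i, v)) ∧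
Cov' b j i t (U \ X)` (layer of `m * 2 ^ n * 2 ^ b` AND gates, the block has at most `b` elements,
and layer of `m * 2 ^ n` OR gates), `Cov (j + 1) U ↔ ∃ i, Cov' b j i T U` if `n ≤ b * T`
(`2 ^ n` OR gates), `Cov 0 U` is constant (`2 ^ n` gates with no wires). -/
theorem dp (m n k b T : ℕ) (hb : 0 < b) (hT : n ≤ b * T) :
    Lay {g : (Fin m × Fin n → Prop) → Prop | ∃ U : Finset (Fin n), ∀ x, g x ↔ Cov k U x}
      (1 + k * (2 * T + 1)) (2 ^ n + k * (T * (m * 2 ^ n * 2 ^ b + m * 2 ^ n) + 2 ^ n)) :=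
  (dp_all m n k b T hb hT).mono fun _ hg => Or.inr hg

end SmallDepth
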