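import Pool.Agent.Lib.MP_8fffab_lc_AC.UpC

open Finset

namespace SmallDepth

variable {ι : Type}

private theorem one_le_bit (p : Prop) : 1 ≤ bit p ↔ p := by
  unfold bit
  by_cases h : p
  · simp [h]
  · simp [h]

private theorem hasCover_iff {m n k : ℕ} (hm : 0 < m ∨ k = 0) (a : Fin m → Fin n → Prop) :
    HasCover k a ↔ Cov k (univ : Finset (Fin n)) (fun e : Fin m × Fin n => a e.1 e.2) := by
  classical
  constructor
  · rintro ⟨I, hI, hc⟩
    rcases hm with hm | hk
    · refine ⟨fun b => if h : (b : ℕ) < I.card then (I.equivFin.symm ⟨b, h⟩ : I) else ⟨0, hm⟩,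
        fun v _ => ?_⟩
      obtain ⟨i, hi, hv⟩ := hc v
      have hlt : (I.equivFin ⟨i, hi⟩ : ℕ) < I.card := (I.equivFin ⟨i, hi⟩).isLt
      refine ⟨⟨(I.equivFin ⟨i, hi⟩ : ℕ), hlt.trans_le hI⟩, ?_⟩
      have h1 : (I.equivFin.symm ⟨(I.equivFin ⟨i, hi⟩ : ℕ), hlt⟩ : I) = ⟨i, hi⟩ := by
        simp
      simp only [dif_pos hlt, h1]
      exact hv
    · subst hk
      have hI0 : I = ∅ := card_eq_zero.1 (Nat.le_zero.1 hI)
      refine ⟨fun b => b.elim0, fun v _ => ?_⟩
      obtain ⟨i, hi, -⟩ := hc v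
      rw [hI0] at hi
      exact absurd hi (notMem_empty i)
  · rintro ⟨I, hI⟩
    refine ⟨univ.image I, ?_, fun v => ?_⟩
    · exact card_image_le.trans (by simp)
    · obtain ⟨b, hb⟩ := hI v (mem_univ v)
      exact ⟨I b, mem_image_of_mem _ (mem_univ b), hb⟩

/-- Row UPD. The output gate is `Cov k univ` with `HasCover k a ↔ Cov k univ` (for `k ≤ m`, or
always if `m > 0`; the case `m = 0` or `k = 0` separately if necessary); weight `1` for the output
gate, `0` for the others, `θ = 1`. -/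
theorem hasCircuit_dp (m n k b T : ℕ) (hb : 0 < b) (hT : n ≤ b * T) :
    HasCircuit m n k (1 + k * (2 * T + 1)) 0
      (2 ^ n + k * (T * (m * 2 ^ n * 2 ^ b + m * 2 ^ n) + 2 ^ n)) := by
  classical
  obtain ⟨C, N, h1, h2, h3⟩ := dp m n k b T hb hT
  obtain ⟨o, ho, hv⟩ := h1 (fun x => Cov k (univ : Finset (Fin n)) x) ⟨univ, fun x => Iff.rfl⟩
  have hsize : C.size o ≤ 2 ^ n + k * (T * (m * 2 ^ n * 2 ^ b + m * 2 ^ n) + 2 ^ n) := by
    refine le_trans (card_le_card ?_) h2
    exact filter_subset_filter _ (range_subset_range.2 (by omega))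
  have hdw : ∀ i ≤ o, C.depth i ≤ 1 + k * (2 * T + 1) ∧ (C i).wires ≤ 0 := fun i hi =>
    ⟨(h3 i (by omega)).1, (h3 i (by omega)).2.le⟩
  by_cases hm : 0 < m ∨ k = 0
  · refine ⟨C, o, fun i => if i = o then 1 else 0, 1, hsize, hdw, fun a => ?_⟩
    have h4 : ∑ i ∈ range (o + 1), (if i = o then (1 : ℝ) else 0) *
        bit (C.val (fun e => a e.1 e.2) i) = bit (C.val (fun e => a e.1 e.2) o) := by
      rw [sum_eq_single_of_mem o (mem_range.2 (Nat.lt_succ_self o))]
      · rw [if_pos rfl, one_mul]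
      · intro i _ hi
        rw [if_neg hi, zero_mul]
    rw [h4, one_le_bit, hasCover_iff hm]
    exact (hv _).symm
  · push Not at hm
    have hm0 : m = 0 := Nat.le_zero.1 hm.1
    refine ⟨C, o, fun _ => 0, if n = 0 then 0 else 1, hsize, hdw, fun a => ?_⟩
    have h4 : HasCover k a ↔ n = 0 := by
      constructor
      · rintro ⟨I, -, hI⟩
        by_contra hn
        obtain ⟨i, -, -⟩ := hI ⟨0, Nat.pos_of_ne_zero hn⟩
        subst hm0
        exact i.elim0
      · intro hn
        subst hn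
        exact ⟨∅, by simp, fun v => v.elim0⟩
    rw [h4]
    simp only [zero_mul, sum_const_zero]
    by_cases hn : n = 0
    · simp [hn]
    · simp [hn]

end SmallDepth
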