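import Pool.Agent.Lib.MP_8fffab_lc_AC.Level

/-!
# Upper bounds: circuits built layer by layer
-/

open Finset

namespace SmallDepth

variable {ι : Type}

/-- All functions in `A` are values of gates of one circuit of depth at most `d` with at most `s`
gates, which are all AND gates and OR gates. -/
def Lay (A : Set ((ι → Prop) → Prop)) (d s : ℕ) : Prop :=
  ∃ (C : Circuit ι) (N : ℕ), (∀ g ∈ A, ∃ i < N, ∀ x, C.val x i ↔ g x) ∧
    ((range N).filter fun i => (C i).counts = true).card ≤ s ∧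
    ∀ i < N, C.depth i ≤ d ∧ (C i).wires = 0

/-- `g` is the conjunction or the disjunction of finitely many functions in `A`. -/
def IsStep (A : Set ((ι → Prop) → Prop)) (g : (ι → Prop) → Prop) : Prop :=
  ∃ (r : ℕ) (u : Fin r → (ι → Prop) → Prop), (∀ a, u a ∈ A) ∧
    ((∀ x, g x ↔ ∀ a, u a x) ∨ ∀ x, g x ↔ ∃ a, u a x)

/-- `U` is covered by `j` rows. -/
def Cov {m n : ℕ} (j : ℕ) (U : Finset (Fin n)) (x : Fin m × Fin n → Prop) : Prop :=
  ∃ I : Fin j → Fin m, ∀ v ∈ U, ∃ a, x (I a, v)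

/-- `U` without the elements of row `i` in the first `t` blocks (of length `b`) is covered by `j`
rows. -/
def Cov' {m n : ℕ} (b j : ℕ) (i : Fin m) (t : ℕ) (U : Finset (Fin n))
    (x : Fin m × Fin n → Prop) : Prop :=
  ∃ I : Fin j → Fin m, ∀ v ∈ U, (v.val / b < t ∧ x (i, v)) ∨ ∃ a, x (I a, v)

end SmallDepth
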