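import Pool.Agent.Lib.MP_8fffab_lc_AC.UpD

open Finset

namespace SmallDepth

/-- From `hasCircuit_dp` with `b = ⌊ε n / 2⌋`, `T = ⌈4 / ε⌉`. -/
theorem upper (k : ℕ) (ε : ℝ) (hε : 0 < ε) : ∃ d n₀ : ℕ, ∀ n ≥ n₀, ∀ m : ℕ, ∃ s : ℕ,
    (s : ℝ) ≤ 2 ^ ((1 + ε) * n) * (m + 1) ∧ HasCircuit m n k d 0 s := by
  obtain ⟨T, hT⟩ : ∃ T : ℕ, T = ⌈4 / ε⌉₊ := ⟨_, rfl⟩
  have hT1 : 4 / ε ≤ T := by
    rw [hT]
    exact Nat.le_ceil _
  obtain ⟨K, hK⟩ : ∃ K : ℕ, K = 1 + k + 2 * (k * T) := ⟨_, rfl⟩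
  obtain ⟨n₁, hn₁⟩ : ∃ n₁ : ℕ, (2 * K / ε : ℝ) ≤ n₁ := exists_nat_ge _
  obtain ⟨n₂, hn₂⟩ : ∃ n₂ : ℕ, (4 / ε : ℝ) ≤ n₂ := exists_nat_ge _
  refine ⟨1 + k * (2 * T + 1), max n₁ n₂, ?_⟩
  intro n hn m
  have hnr1 : (2 * K / ε : ℝ) ≤ n := hn₁.trans (by exact_mod_cast (le_max_left _ _).trans hn)
  have hnr2 : (4 / ε : ℝ) ≤ n := hn₂.trans (by exact_mod_cast (le_max_right _ _).trans hn)
  have hn4 : 4 ≤ ε * n := by
    rw [div_le_iff₀ hε] at hnr2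
    linarith
  have hnK : 2 * (K : ℝ) ≤ ε * n := by
    rw [div_le_iff₀ hε] at hnr1
    linarith
  obtain ⟨b, hb⟩ : ∃ b : ℕ, b = ⌊ε * n / 2⌋₊ := ⟨_, rfl⟩
  have hb1 : (b : ℝ) ≤ ε * n / 2 := by
    rw [hb]
    exact Nat.floor_le (by positivity)
  have hb2 : ε * n / 2 < b + 1 := by
    rw [hb]
    exact Nat.lt_floor_add_one _
  have hb3 : ε * n / 4 ≤ b := by linarith
  have hb0 : 0 < b := by
    have : (0 : ℝ) < b := by linarith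
    exact_mod_cast this
  have hbT : n ≤ b * T := by
    have h1 : (n : ℝ) ≤ b * T := by
      calc (n : ℝ) = ε * n / 4 * (4 / ε) := by field_simp
        _ ≤ b * T := mul_le_mul hb3 hT1 (by positivity) (by positivity)
    exact_mod_cast h1
  refine ⟨_, ?_, hasCircuit_dp m n k b T hb0 hbT⟩
  have h2b : (1 : ℝ) ≤ 2 ^ b := one_le_pow₀ (by norm_num)
  have hKb : (K : ℝ) ≤ 2 ^ (ε * n / 2 : ℝ) := by
    have h1 : (K : ℝ) ≤ 2 ^ K := by exact_mod_cast (Nat.lt_two_pow_self (n := K)).le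
    refine h1.trans ?_
    rw [← Real.rpow_natCast]
    exact Real.rpow_le_rpow_of_exponent_le (by norm_num) (by linarith)
  have hbb : (2 : ℝ) ^ b ≤ 2 ^ (ε * n / 2 : ℝ) := by
    rw [← Real.rpow_natCast]
    exact Real.rpow_le_rpow_of_exponent_le (by norm_num) hb1
  push_cast
  have hm0 : (0 : ℝ) ≤ m := Nat.cast_nonneg m
  have hk0 : (0 : ℝ) ≤ k := Nat.cast_nonneg k
  have hT0 : (0 : ℝ) ≤ T := Nat.cast_nonneg T
  have h2n : (0 : ℝ) < 2 ^ n := by positivity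
  have h1 : (2 : ℝ) ^ n + k * (T * (m * 2 ^ n * 2 ^ b + m * 2 ^ n) + 2 ^ n) ≤
      2 ^ n * (m + 1) * (K * 2 ^ b) := by
    have h3 : ((K : ℕ) : ℝ) = 1 + k + 2 * (k * T) := by
      rw [hK]
      push_cast
      ring
    rw [h3]
    have e1 : (2 : ℝ) ^ n * (m + 1) * ((1 + k + 2 * (k * T)) * 2 ^ b) -
        (2 ^ n + k * (T * (m * 2 ^ n * 2 ^ b + m * 2 ^ n) + 2 ^ n)) =
        2 ^ n * ((1 + k) * ((m + 1) * 2 ^ b - 1) + (k * T) * (m * 2 ^ b - m) +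
          (k * T) * (2 * 2 ^ b)) := by ring
    have e2 : 0 ≤ (m + 1) * (2 : ℝ) ^ b - 1 := by nlinarith
    have e3 : 0 ≤ m * (2 : ℝ) ^ b - m := by nlinarith
    have e4 : 0 ≤ 2 ^ n * ((1 + k) * ((m + 1) * (2 : ℝ) ^ b - 1) + (k * T) * (m * 2 ^ b - m) +
          (k * T) * (2 * 2 ^ b)) := by positivity
    linarith
  refine h1.trans ?_
  have h4 : (K : ℝ) * 2 ^ b ≤ 2 ^ (ε * n : ℝ) := by
    calc (K : ℝ) * 2 ^ b ≤ 2 ^ (ε * n / 2 : ℝ) * 2 ^ (ε * n / 2 : ℝ) :=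
          mul_le_mul hKb hbb (by positivity) (by positivity)
      _ = 2 ^ (ε * n : ℝ) := by
          rw [← Real.rpow_add (by norm_num)]
          congr 1
          ring
  calc (2 : ℝ) ^ n * (m + 1) * (K * 2 ^ b) ≤ 2 ^ n * (m + 1) * 2 ^ (ε * n : ℝ) :=
        mul_le_mul_of_nonneg_left h4 (by positivity)
    _ = 2 ^ ((1 + ε) * n) * (m + 1) := by
        rw [add_mul, one_mul, Real.rpow_add (by norm_num), Real.rpow_natCast]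
        ring

end SmallDepth
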